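import Pool.Agent.H43C.Sm

/-!
# Multiple polylogarithms at roots of unity
-/

set_option autoImplicit false

namespace Pool.Agent.H43C

open Filter Topology Pool.Agent.Y760.ZG Pool.Agent.Y777.AL Pool.Agent.TH883.Zg
open Pool.Agent.Y777.AM

/-- primes in a residue class with large indices -/
lemma pr_inf {Q ρ : ℕ} (hQ : Q ≠ 0) (h : ρ.Coprime Q) (m : ℕ) :
    ∃ q, m ≤ q ∧ pr q % Q = ρ % Q := by
  obtain ⟨p, hp1, hp2, hp3⟩ := Nat.forall_exists_prime_gt_and_modEq (pr m) hQ h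
  refine ⟨Nat.count Nat.Prime p, ?_, ?_⟩
  · have h1 := Nat.count_monotone Nat.Prime hp1.le
    rwa [pr, Nat.count_nth_of_infinite Nat.infinite_setOfPred_prime] at h1
  · rw [pr, Nat.nth_count hp2]
    exact hp3

/-- real parts of algebraic numbers -/
lemma re_alg {z : ℂ} (hz : IsAlgebraic ℚ z) : IsAlgebraic ℚ z.re := by
  have h1 : IsAlgebraic ℚ ((starRingEnd ℂ) z) := by
    obtain ⟨p, hp, hpz⟩ := hz
    refine ⟨p, hp, ?_⟩
    have h2 := congrArg (starRingEnd ℂ) hpz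
    rw [map_zero, Polynomial.aeval_def, Polynomial.hom_eval₂] at h2
    rw [Polynomial.aeval_def, ← h2]
    congr 1
    exact Subsingleton.elim _ _
  have h2 : IsAlgebraic ℚ ((z.re : ℝ) : ℂ) := by
    have h3 : ((z.re : ℝ) : ℂ) = (z + (starRingEnd ℂ) z) * ((2 : ℚ)⁻¹ : ℚ) := by
      rw [Complex.add_conj]
      push_cast
      ring
    rw [h3]
    exact (hz.add h1).mul (isAlgebraic_algebraMap (R := ℚ) (A := ℂ) ((2 : ℚ)⁻¹))
  exact (isAlgebraic_algebraMap_iff (algebraMap ℝ ℂ).injective).1 h2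

lemma I_alg : IsAlgebraic ℚ Complex.I := by
  refine IsAlgebraic.of_pow (n := 2) (by norm_num) ?_
  rw [Complex.I_sq]
  exact isAlgebraic_one.neg

lemma im_alg {z : ℂ} (hz : IsAlgebraic ℚ z) : IsAlgebraic ℚ z.im := by
  have h1 : z.im = (-(Complex.I) * z).re := by simp
  rw [h1]
  exact re_alg (I_alg.neg.mul hz)

lemma root_alg {z : ℂ} {Q : ℕ} (hQ : 0 < Q) (hz : z ^ Q = 1) : IsAlgebraic ℚ z :=
  IsAlgebraic.of_pow hQ (by rw [hz]; exact isAlgebraic_one)

lemma root_norm {z : ℂ} {Q : ℕ} (hQ : 0 < Q) (hz : z ^ Q = 1) : ‖z‖ = 1 :=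
  Complex.norm_eq_one_of_pow_eq_one hz (by omega)

/-- the last power -/
lemma root_pred {z : ℂ} {Q : ℕ} (hQ : 0 < Q) (hz : z ^ Q = 1) :
    z ^ (Q - 1) = (starRingEnd ℂ) z := by
  have h1 : z ^ (Q - 1) * z = 1 := by
    rw [← pow_succ, show Q - 1 + 1 = Q by omega, hz]
  have h2 : (starRingEnd ℂ) z * z = 1 := by
    rw [mul_comm, Complex.mul_conj, Complex.normSq_eq_norm_sq, root_norm hQ hz]
    norm_num
  have h3 : z ≠ 0 := by
    rintro rfl
    rw [mul_zero] at h1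
    exact zero_ne_one h1
  exact mul_right_cancel₀ h3 (h1.trans h2.symm)

/-- the two twists of a root of unity -/
noncomputable def xb (z : ℂ) (t : Bool) (m : ℕ) : ℝ := if t then (z ^ m).re else (z ^ m).im

/-- the coefficients -/
noncomputable def lb (z : ℂ) (k ρ : ℕ) : ℝ :=
  (z ^ k).re / (2 * z.re) + (if ρ = 1 then 1 else -1) * ((z ^ k).im / (2 * z.im))

/-- the inverse -/
noncomputable def mb (z : ℂ) (t : Bool) (ρ : ℕ) : ℝ :=
  if t then 1 / (2 * z.re) else (if ρ = 1 then 1 else -1) * (1 / (2 * z.im))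

lemma xb_alg {z : ℂ} {Q : ℕ} (hQ : 0 < Q) (hz : z ^ Q = 1) (t : Bool) (m : ℕ) :
    IsAlgebraic ℚ (xb z t m) := by
  unfold xb
  have h1 := (root_alg hQ hz).pow m
  split_ifs
  · exact re_alg h1
  · exact im_alg h1

lemma one_ne {z : ℂ} {Q : ℕ} (hz : z ^ Q = 1) (hi : z.im ≠ 0) : 3 ≤ Q ∨ Q = 0 := by
  by_contra h
  have h1 : Q = 1 ∨ Q = 2 := by omega
  apply hi
  rcases h1 with rfl | rfl
  · rw [pow_one] at hz
    rw [hz, Complex.one_im]
  · have h2 : (z - 1) * (z + 1) = 0 := by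
      have : (z - 1) * (z + 1) = z ^ 2 - 1 := by ring
      rw [this, hz, sub_self]
    rcases mul_eq_zero.1 h2 with h3 | h3
    · rw [sub_eq_zero.1 h3, Complex.one_im]
    · rw [eq_neg_of_add_eq_zero_left h3]
      simp

/-- **the twists of a root of unity** -/
lemma tws_b {z : ℂ} {Q : ℕ} (hQ : 0 < Q) (hz : z ^ Q = 1) (hr : z.re ≠ 0) (hi : z.im ≠ 0) :
    Tws (xb z) Q {1, Q - 1} (lb z) 1 := by
  have hQ3 : 3 ≤ Q := (one_ne hz hi).resolve_right (by omega)
  have hne : (1 : ℕ) ≠ Q - 1 := by omega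
  have hne' : Q - 1 ≠ 1 := by omega
  have hp := root_pred hQ hz
  have hp1 : (z ^ (Q - 1)).re = z.re := by rw [hp, Complex.conj_re]
  have hp2 : (z ^ (Q - 1)).im = -z.im := by rw [hp, Complex.conj_im]
  refine ⟨?_, ?_, ?_, ?_⟩
  · intro t m m' h
    have h1 : ∀ m : ℕ, z ^ m = z ^ (m % Q) := by
      intro m
      conv_lhs => rw [← Nat.div_add_mod m Q, pow_add, pow_mul, hz, one_pow, one_mul]
    unfold xb
    rw [h1 m, h1 m', h]
  · intro t k
    rw [Finset.sum_pair hne]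
    unfold xb lb
    rw [if_pos rfl, if_neg hne', pow_one, hp1, hp2]
    cases t
    · simp only [Bool.false_eq_true, if_false]
      field_simp
      ring
    · simp only [if_true]
      field_simp
      ring
  · intro ρ hρ m
    rw [Finset.mem_insert, Finset.mem_singleton] at hρ
    rcases hρ with rfl | rfl
    · exact pr_inf (by omega) (Nat.coprime_one_left Q) m
    · refine pr_inf (by omega) ?_ m
      have h1 : Nat.Coprime (Q - 1) (Q - 1 + 1) := (Nat.coprime_self_add_right).2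
        (Nat.coprime_one_right _)
      rwa [show Q - 1 + 1 = Q by omega] at h1
  · intro t m
    have h1 : ‖z ^ m‖ = 1 := by rw [norm_pow, root_norm hQ hz, one_pow]
    unfold xb
    split_ifs
    · rw [← h1]
      exact Complex.abs_re_le_norm _
    · rw [← h1]
      exact Complex.abs_im_le_norm _

lemma mu_b {z : ℂ} {Q : ℕ} (hQ : 0 < Q) (hz : z ^ Q = 1) (hr : z.re ≠ 0) (hi : z.im ≠ 0)
    (t t' : Bool) : ∑ ρ ∈ ({1, Q - 1} : Finset ℕ), mb z t ρ * xb z t' ρ =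
      if t = t' then 1 else 0 := by
  have hQ3 : 3 ≤ Q := (one_ne hz hi).resolve_right (by omega)
  have hne : (1 : ℕ) ≠ Q - 1 := by omega
  have hne' : Q - 1 ≠ 1 := by omega
  have hp := root_pred hQ hz
  have hp1 : (z ^ (Q - 1)).re = z.re := by rw [hp, Complex.conj_re]
  have hp2 : (z ^ (Q - 1)).im = -z.im := by rw [hp, Complex.conj_im]
  rw [Finset.sum_pair hne]
  unfold xb mb
  rw [if_pos rfl, if_neg hne', pow_one, hp1, hp2]
  cases t <;> cases t' <;> simp <;> field_simp <;> norm_num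

/-! ### alternating sums -/

/-- the signs -/
noncomputable def xs (_ : Unit) (m : ℕ) : ℝ := (-1) ^ m

lemma tws_s : Tws xs 2 {1} (fun k _ => -(-1) ^ k) 1 := by
  refine ⟨?_, ?_, ?_, ?_⟩
  · intro t m m' h
    unfold xs
    have h1 : ∀ m : ℕ, (-1 : ℝ) ^ m = (-1) ^ (m % 2) := by
      intro m
      conv_lhs => rw [← Nat.div_add_mod m 2, pow_add, pow_mul]
      norm_num
    rw [h1 m, h1 m', h]
  · intro t k
    rw [Finset.sum_singleton]
    unfold xs
    rw [pow_one]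
    ring
  · intro ρ hρ m
    rw [Finset.mem_singleton] at hρ
    subst hρ
    exact pr_inf (by norm_num) (Nat.coprime_one_left 2) m
  · intro t m
    unfold xs
    rw [abs_pow, abs_neg, abs_one, one_pow]

lemma mu_s (t t' : Unit) : ∑ ρ ∈ ({1} : Finset ℕ), (-1 : ℝ) * xs t' ρ =
    if t = t' then 1 else 0 := by
  rw [Finset.sum_singleton, xs, pow_one, if_pos (Subsingleton.elim _ _)]
  ring

/-! ### polylogarithms in one variable -/

/-- the multiple polylogarithm in one variable, which belongs to the largest summation variable -/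
noncomputable def Lz (z : ℂ) : List ℕ → ℂ
  | [] => 1
  | s :: l => ∑' k : ℕ, z ^ (k + 1) / ((k + 1 : ℕ) : ℂ) ^ s * ((hr l (k + 1) : ℝ) : ℂ)

lemma Lz_summ {z : ℂ} (hz : ‖z‖ = 1) (a : ℕ) (u : List ℕ) (hu : ∀ m ∈ u, 1 ≤ m) (ha : 2 ≤ a) :
    Summable fun k : ℕ => z ^ (k + 1) / ((k + 1 : ℕ) : ℂ) ^ a * ((hr u (k + 1) : ℝ) : ℂ) := by
  refine Summable.of_norm ((summ_w a u hu ha).congr fun k => ?_)
  rw [norm_mul, norm_div, norm_pow, norm_pow, hz, one_pow, Complex.norm_natCast,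
    Complex.norm_real, Real.norm_eq_abs, abs_of_nonneg (hr_nonneg _ _)]
  ring

lemma Lz_term (z : ℂ) (a : ℕ) (u : List ℕ) (k : ℕ) :
    z ^ (k + 1) / ((k + 1 : ℕ) : ℂ) ^ a * ((hr u (k + 1) : ℝ) : ℂ) =
      z ^ (k + 1) * ((hr u (k + 1) / ((k + 1 : ℕ) : ℝ) ^ a : ℝ) : ℂ) := by
  push_cast
  ring

lemma Lz_re {z : ℂ} (hz : ‖z‖ = 1) {w : List ℕ} (hw0 : w ≠ []) (hw : ∀ m ∈ w, 1 ≤ m)
    (hw2 : ∀ k ∈ w.head?, 2 ≤ k) : (Lz z w).re = mzt (fun m => (z ^ m).re) w := by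
  cases w with
  | nil => exact absurd rfl hw0
  | cons a u =>
    have hs := Lz_summ hz a u (fun m hm => hw m (List.mem_cons_of_mem _ hm)) (hw2 a (by simp))
    rw [Lz, mzt, Complex.re_tsum hs]
    refine tsum_congr fun k => ?_
    rw [Lz_term, Complex.re_mul_ofReal]

lemma Lz_im {z : ℂ} (hz : ‖z‖ = 1) {w : List ℕ} (hw0 : w ≠ []) (hw : ∀ m ∈ w, 1 ≤ m)
    (hw2 : ∀ k ∈ w.head?, 2 ≤ k) : (Lz z w).im = mzt (fun m => (z ^ m).im) w := by
  cases w with
  | nil => exact absurd rfl hw0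
  | cons a u =>
    have hs := Lz_summ hz a u (fun m hm => hw m (List.mem_cons_of_mem _ hm)) (hw2 a (by simp))
    rw [Lz, mzt, Complex.im_tsum hs]
    refine tsum_congr fun k => ?_
    rw [Lz_term, Complex.im_mul_ofReal]

lemma Lz_neg {w : List ℕ} (hw0 : w ≠ []) (hw : ∀ m ∈ w, 1 ≤ m)
    (hw2 : ∀ k ∈ w.head?, 2 ≤ k) : (Lz (-1) w).re = mzt (xs ()) w := by
  rw [Lz_re (by simp) hw0 hw hw2]
  congr 1
  funext m
  rw [xs]
  have : ((-1 : ℂ)) ^ m = (((-1 : ℝ) ^ m : ℝ) : ℂ) := by push_cast; rfl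
  rw [this, Complex.ofReal_re]

end Pool.Agent.H43C
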