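import Pool.Agent.H43C.Main
import Pool.Agent.Y777.AM.G

/-!
# Twisted multiple sums of large depth or with many arguments at least two
-/

set_option autoImplicit false

namespace Pool.Agent.H43C

open Filter Topology Pool.Agent.Y760.ZG Pool.Agent.Y777.AL Pool.Agent.TH883.Zg
open Pool.Agent.Y777.AM

/-- absolute convergence -/
lemma summ_w (a : ℕ) (u : List ℕ) (hu : ∀ m ∈ u, 1 ≤ m) (ha : 2 ≤ a) :
    Summable fun k : ℕ => hr u (k + 1) / ((k + 1 : ℕ) : ℝ) ^ a := by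
  set D := ht u with hD
  have h1 : ∀ k : ℕ, hr u (k + 1) / ((k + 1 : ℕ) : ℝ) ^ a ≤
      (2 ^ u.length * (2 ^ D / D.factorial)) *
        (Real.sqrt ((k + 1 : ℕ) : ℝ) / ((k + 1 : ℕ) : ℝ) ^ 2) := by
    intro k
    have h2 : (1 : ℝ) ≤ ((k + 1 : ℕ) : ℝ) := by exact_mod_cast Nat.le_add_left 1 k
    have h3 := hr_ht u hu (k + 1) (by omega)
    have h4 : hr u (k + 1) / ((k + 1 : ℕ) : ℝ) ^ a ≤ hr u (k + 1) / ((k + 1 : ℕ) : ℝ) ^ 2 :=
      div_le_div_of_nonneg_left (hr_nonneg _ _) (by positivity) (pow_le_pow_right₀ h2 ha)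
    have h5 : Sf f2 (k + 1) ^ D ≤ 2 ^ D :=
      pow_le_pow_left₀ (Sf_nonneg f2_nonneg _) (Sf2_le _) _
    calc hr u (k + 1) / ((k + 1 : ℕ) : ℝ) ^ a ≤ hr u (k + 1) / ((k + 1 : ℕ) : ℝ) ^ 2 := h4
      _ ≤ (2 ^ u.length * Real.sqrt ((k + 1 : ℕ) : ℝ) * (Sf f2 (k + 1) ^ D / D.factorial)) /
          ((k + 1 : ℕ) : ℝ) ^ 2 := div_le_div_of_nonneg_right h3 (by positivity)
      _ ≤ (2 ^ u.length * Real.sqrt ((k + 1 : ℕ) : ℝ) * (2 ^ D / D.factorial)) /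
          ((k + 1 : ℕ) : ℝ) ^ 2 := by gcongr
      _ = _ := by ring
  have hs := summ32.mul_left (2 ^ u.length * (2 ^ D / (D.factorial : ℝ)))
  exact Summable.of_nonneg_of_le (fun k => div_nonneg (hr_nonneg _ _) (by positivity)) h1 hs

lemma summ_t {χ : ℕ → ℝ} {M : ℝ} (hM : ∀ m, |χ m| ≤ M) (a : ℕ) (u : List ℕ)
    (hu : ∀ m ∈ u, 1 ≤ m) (ha : 2 ≤ a) :
    Summable fun k : ℕ => |χ (k + 1) * (hr u (k + 1) / ((k + 1 : ℕ) : ℝ) ^ a)| := by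
  refine Summable.of_nonneg_of_le (fun k => abs_nonneg _) (fun k => ?_)
    ((summ_w a u hu ha).mul_left M)
  have h1 : 0 ≤ hr u (k + 1) / ((k + 1 : ℕ) : ℝ) ^ a := div_nonneg (hr_nonneg _ _) (by positivity)
  rw [abs_mul, abs_of_nonneg h1]
  exact mul_le_mul_of_nonneg_right (hM _) h1

/-- comparison with the untwisted value -/
lemma mzt_le {χ : ℕ → ℝ} {M : ℝ} (hM : ∀ m, |χ m| ≤ M) {w : List ℕ} (hw0 : w ≠ [])
    (hw : ∀ m ∈ w, 1 ≤ m) (hw2 : ∀ k ∈ w.head?, 2 ≤ k) : |mzt χ w| ≤ M * mz w := by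
  cases w with
  | nil => exact absurd rfl hw0
  | cons a u =>
    have ha : 2 ≤ a := hw2 a (by simp)
    have hu : ∀ m ∈ u, 1 ≤ m := fun m hm => hw m (List.mem_cons_of_mem _ hm)
    rw [mzt, mz, ← tsum_mul_left]
    have h1 := summ_t hM a u hu ha
    have h2 := norm_tsum_le_tsum_norm (f := fun k : ℕ => χ (k + 1) *
      (hr u (k + 1) / ((k + 1 : ℕ) : ℝ) ^ a)) (by simpa only [Real.norm_eq_abs] using h1)
    rw [Real.norm_eq_abs] at h2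
    refine h2.trans ?_
    simp only [Real.norm_eq_abs]
    refine h1.tsum_le_tsum (fun k => ?_) ((summ_w a u hu ha).mul_left M)
    have h3 : 0 ≤ hr u (k + 1) / ((k + 1 : ℕ) : ℝ) ^ a :=
      div_nonneg (hr_nonneg _ _) (by positivity)
    rw [abs_mul, abs_of_nonneg h3]
    exact mul_le_mul_of_nonneg_right (hM _) h3

/-- words of large depth -/
lemma mz_deep {n K : ℕ} (hn : 3 ≤ n) (hK : 2 ≤ K) {w : List ℕ} (hw : K < w.length)
    (hw1 : ∀ m ∈ w, 1 ≤ m) (hw2 : ∀ k ∈ w.head?, n ≤ k) :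
    mz w ≤ 8 * ze 2 * (K : ℝ) ^ 3 * ((K : ℝ) ^ n)⁻¹ := by
  have h0 : dl w = 0 := by
    unfold dl
    rw [if_neg (by omega)]
  have hIn : In n K w := by
    cases w with
    | nil => simp at hw
    | cons a u => exact ⟨a, u, rfl, Or.inr hw⟩
  have h1 := mz_inf hn hK hIn hw1 hw2
  rw [h0, sub_zero] at h1
  exact (le_abs_self _).trans h1

/-- all bounds for a word of large depth -/
lemma mzt_deep {χ : ℕ → ℝ} {M : ℝ} (hM : ∀ m, |χ m| ≤ M) {n K : ℕ} (hn : 3 ≤ n) (hK : 2 ≤ K)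
    {w : List ℕ} (hw : K < w.length) (hw1 : ∀ m ∈ w, 1 ≤ m) (hw2 : ∀ k ∈ w.head?, n ≤ k) :
    |mzt χ w| ≤ M * (8 * ze 2 * (K : ℝ) ^ 3 * ((K : ℝ) ^ n)⁻¹) := by
  have hM0 : 0 ≤ M := (abs_nonneg _).trans (hM 0)
  have hw0 : w ≠ [] := by
    rintro rfl
    simp at hw
  exact (mzt_le hM hw0 hw1 (fun k hk => le_trans (by omega) (hw2 k hk))).trans
    (mul_le_mul_of_nonneg_left (mz_deep hn hK hw hw1 hw2) hM0)

/-- one scale -/
theorem F1t_step {l : ℕ} (β : Fin l → ℝ) (hβ : ∀ j, IsAlgebraic ℚ (β j))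
    (hli : LinearIndependent ℚ β) {T : Type} [Fintype T] [DecidableEq T] (χ : T → ℕ → ℝ)
    (hχa : ∀ t m, IsAlgebraic ℚ (χ t m)) {Q : ℕ} (hQ : 1 ≤ Q) {U : Finset ℕ} {lam : ℕ → ℕ → ℝ}
    {M : ℝ} (hχ : Tws χ Q U lam M) (μ : T → ℕ → ℝ)
    (hμ : ∀ t t', ∑ ρ ∈ U, μ t ρ * χ t' ρ = if t = t' then 1 else 0) (hM0 : 0 ≤ M) (N K : ℕ)
    (κ C : ℝ) (hC : 1 ≤ C) :
    ∃ B : ℝ, 1 < B ∧ ∃ K1 n0 : ℕ, ∀ n : ℕ, n0 ≤ n → ∀ W : Finset (List ℕ), W.card ≤ N →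
      (∀ w ∈ W, w ≠ [] ∧ Adj n κ w) → (∀ w ∈ W, w.length ≤ K ∨ K1 < w.length) →
      ∀ (b : Fin l → ℤ) (a : List ℕ → T → Fin l → ℤ),
      ((∃ j, b j ≠ 0) ∨ ∃ w ∈ W, w.length ≤ K ∧ ∃ t j, a w t j ≠ 0) →
      (∀ j, |(b j : ℝ)| ≤ C ^ n) → (∀ w ∈ W, ∀ t j, |(a w t j : ℝ)| ≤ C ^ n) →
      (B ^ n)⁻¹ < |∑ j, β j * b j + ∑ w ∈ W, ∑ t, ∑ j, (β j * a w t j) * mzt (χ t) w| := by
  classical
  obtain ⟨B, hB, n1, hmain⟩ := mainWt β hβ hli χ hχa hQ hχ μ hμ N K κ C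
  set bb : ℝ := ∑ j, |β j| with hbb
  have hb0 : 0 ≤ bb := Finset.sum_nonneg fun j _ => abs_nonneg _
  set E : ℝ := N * ((Fintype.card T : ℝ) * (bb * (M * (8 * ze 2)))) with hE
  obtain ⟨K1, hK1, n2, hn2, hthr⟩ := thr (B * C) E (by nlinarith only [hB, hC])
  refine ⟨2 * B, by linarith only [hB], K1, max (max n1 n2) 1, ?_⟩
  intro n hn W hWN hW hFI b a ha hbC haC
  have hn1 : n1 ≤ n := (le_max_left _ _).trans ((le_max_left _ _).trans hn)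
  have hn2' : n2 ≤ n := (le_max_right _ _).trans ((le_max_left _ _).trans hn)
  have hn3 : 3 ≤ n := hn2.trans hn2'
  have hBn : 0 < B ^ n := by positivity
  have hCn : 0 < C ^ n := by positivity
  set S1 : Finset (List ℕ) := W.filter (fun w => w.length ≤ K) with hS1
  set S2 : Finset (List ℕ) := W.filter (fun w => ¬ w.length ≤ K) with hS2
  set f : List ℕ → ℝ := fun w => ∑ t, ∑ j, (β j * a w t j) * mzt (χ t) w with hf
  have h1 := hmain n hn1 S1 ((Finset.card_filter_le _ _).trans hWN) (by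
      intro w hw
      obtain ⟨hwW, hwK⟩ := Finset.mem_filter.1 hw
      exact ⟨(hW w hwW).1, hwK, (hW w hwW).2⟩) b a (by
      rcases ha with h | ⟨w, hw, hwK, h⟩
      · exact Or.inl h
      · exact Or.inr ⟨w, Finset.mem_filter.2 ⟨hw, hwK⟩, h⟩) hbC
    (fun w hw => haC w (Finset.mem_filter.1 hw).1)
  have e1 : ∑ w ∈ W, f w = ∑ w ∈ S1, f w + ∑ w ∈ S2, f w :=
    (Finset.sum_filter_add_sum_filter_not W (fun w => w.length ≤ K) f).symm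
  -- the error
  have herr : |∑ w ∈ S2, f w| ≤ (B ^ n)⁻¹ / 2 := by
    have h3 : ∀ w ∈ S2, |f w| ≤ (Fintype.card T : ℝ) * (bb * C ^ n *
        (M * (8 * ze 2 * (K1 : ℝ) ^ 3 * ((K1 : ℝ) ^ n)⁻¹))) := by
      intro w hw
      obtain ⟨hwW, hwK⟩ := Finset.mem_filter.1 hw
      have hIn : K1 < w.length := (hFI w hwW).resolve_left hwK
      have h5 : ∀ t, |∑ j, (β j * a w t j) * mzt (χ t) w| ≤ bb * C ^ n *
        (M * (8 * ze 2 * (K1 : ℝ) ^ 3 * ((K1 : ℝ) ^ n)⁻¹)) := by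
        intro t
        have h4 := mzt_deep (hχ.bd t) hn3 hK1 hIn (fun m hm => ((hW w hwW).2.1 m hm).1)
          (hW w hwW).2.2
        refine (Finset.abs_sum_le_sum_abs _ _).trans ?_
        rw [hbb, Finset.sum_mul, Finset.sum_mul]
        refine Finset.sum_le_sum fun j _ => ?_
        rw [abs_mul, abs_mul]
        exact mul_le_mul (mul_le_mul_of_nonneg_left (haC w hwW t j) (abs_nonneg _)) h4
          (abs_nonneg _) (by positivity)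
      refine (Finset.abs_sum_le_sum_abs _ _).trans ((Finset.sum_le_sum fun t _ => h5 t).trans ?_)
      rw [Finset.sum_const, nsmul_eq_mul, Finset.card_univ]
    have h5 : |∑ w ∈ S2, f w| ≤ N * ((Fintype.card T : ℝ) * (bb * C ^ n *
        (M * (8 * ze 2 * (K1 : ℝ) ^ 3 * ((K1 : ℝ) ^ n)⁻¹)))) := by
      refine (Finset.abs_sum_le_sum_abs _ _).trans ((Finset.sum_le_sum h3).trans ?_)
      rw [Finset.sum_const, nsmul_eq_mul]
      have : (S2.card : ℝ) ≤ N := by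
        exact_mod_cast (Finset.card_filter_le _ _).trans hWN
      exact mul_le_mul_of_nonneg_right this (by have := ze2_pos; positivity)
    have h6 := hthr n hn2' K1 rfl
    rw [mul_pow, mul_inv] at h6
    calc _ ≤ N * ((Fintype.card T : ℝ) * (bb * C ^ n *
        (M * (8 * ze 2 * (K1 : ℝ) ^ 3 * ((K1 : ℝ) ^ n)⁻¹)))) := h5
      _ = C ^ n * (E * ((K1 : ℝ) ^ 3 * ((K1 : ℝ) ^ n)⁻¹)) := by rw [hE]; ring
      _ ≤ C ^ n * ((B ^ n)⁻¹ * (C ^ n)⁻¹ / 2) := mul_le_mul_of_nonneg_left h6 hCn.le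
      _ = (B ^ n)⁻¹ / 2 := by field_simp
  have h7 : ((2 * B) ^ n)⁻¹ ≤ (B ^ n)⁻¹ / 2 := by
    rw [mul_pow, mul_inv]
    have h8 : (2 : ℝ) ≤ 2 ^ n := by
      calc (2 : ℝ) = 2 ^ 1 := (pow_one _).symm
        _ ≤ 2 ^ n := pow_le_pow_right₀ one_le_two (by omega)
    have h9 : ((2 : ℝ) ^ n)⁻¹ ≤ 1 / 2 := by
      rw [one_div]
      exact inv_anti₀ two_pos h8
    calc ((2 : ℝ) ^ n)⁻¹ * (B ^ n)⁻¹ ≤ 1 / 2 * (B ^ n)⁻¹ :=
          mul_le_mul_of_nonneg_right h9 (by positivity)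
      _ = _ := by ring
  change ((2 * B) ^ n)⁻¹ < |∑ j, β j * b j + ∑ w ∈ W, f w|
  change (B ^ n)⁻¹ < |∑ j, β j * b j + ∑ w ∈ S1, f w| at h1
  have h10 : |∑ j, β j * b j + ∑ w ∈ S1, f w| ≤ |∑ j, β j * b j + ∑ w ∈ W, f w| +
      |∑ w ∈ S2, f w| := by
    have h11 : ∑ j, β j * b j + ∑ w ∈ S1, f w = (∑ j, β j * b j + ∑ w ∈ W, f w) -
      ∑ w ∈ S2, f w := by
      rw [e1]
      ring
    rw [h11]
    exact abs_sub _ _
  linarith only [h1, h7, h10, herr]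

/-- unbounded depths -/
theorem F1t_ind {l : ℕ} (β : Fin l → ℝ) (hβ : ∀ j, IsAlgebraic ℚ (β j))
    (hli : LinearIndependent ℚ β) {T : Type} [Fintype T] [DecidableEq T] (χ : T → ℕ → ℝ)
    (hχa : ∀ t m, IsAlgebraic ℚ (χ t m)) {Q : ℕ} (hQ : 1 ≤ Q) {U : Finset ℕ} {lam : ℕ → ℕ → ℝ}
    {M : ℝ} (hχ : Tws χ Q U lam M) (μ : T → ℕ → ℝ)
    (hμ : ∀ t t', ∑ ρ ∈ U, μ t ρ * χ t' ρ = if t = t' then 1 else 0) (hM0 : 0 ≤ M) (N : ℕ)
    (κ C : ℝ) (hC : 1 ≤ C) (m : ℕ) :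
    ∀ K : ℕ, ∃ B : ℝ, 1 < B ∧ ∃ n0 : ℕ, ∀ n : ℕ, n0 ≤ n → ∀ W : Finset (List ℕ), W.card ≤ N →
      (∀ w ∈ W, w ≠ [] ∧ Adj n κ w) → (W.filter fun w => ¬ w.length ≤ K).card ≤ m →
      ∀ (b : Fin l → ℤ) (a : List ℕ → T → Fin l → ℤ),
      ((∃ j, b j ≠ 0) ∨ ∃ w ∈ W, w.length ≤ K ∧ ∃ t j, a w t j ≠ 0) →
      (∀ j, |(b j : ℝ)| ≤ C ^ n) → (∀ w ∈ W, ∀ t j, |(a w t j : ℝ)| ≤ C ^ n) →
      (B ^ n)⁻¹ < |∑ j, β j * b j + ∑ w ∈ W, ∑ t, ∑ j, (β j * a w t j) * mzt (χ t) w| := by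
  classical
  induction m with
  | zero =>
    intro K
    obtain ⟨B, hB, K1, n0, h⟩ := F1t_step β hβ hli χ hχa hQ hχ μ hμ hM0 N K κ C hC
    refine ⟨B, hB, n0, fun n hn W hWN hW hc b a ha hbC haC =>
      h n hn W hWN hW ?_ b a ha hbC haC⟩
    intro w hw
    left
    by_contra hF
    have h1 : w ∈ W.filter fun w => ¬ w.length ≤ K := Finset.mem_filter.2 ⟨hw, hF⟩
    rw [Finset.card_eq_zero.1 (Nat.le_zero.1 hc)] at h1
    simp at h1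
  | succ m ih =>
    intro K
    obtain ⟨B, hB, K1, n0, h⟩ := F1t_step β hβ hli χ hχa hQ hχ μ hμ hM0 N K κ C hC
    obtain ⟨B', hB', n0', h'⟩ := ih (max K K1)
    refine ⟨max B B', lt_max_of_lt_left hB, max n0 n0', ?_⟩
    intro n hn W hWN hW hc b a ha hbC haC
    by_cases hall : ∀ w ∈ W, w.length ≤ K ∨ K1 < w.length
    · refine lt_of_le_of_lt ?_ (h n ((le_max_left _ _).trans hn) W hWN hW hall b a ha hbC haC)
      refine inv_anti₀ (by positivity) ?_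
      exact pow_le_pow_left₀ (by linarith only [hB]) (le_max_left _ _) _
    · push Not at hall
      obtain ⟨w1, hw1, hF1, hI1⟩ := hall
      refine lt_of_le_of_lt ?_ (h' n ((le_max_right _ _).trans hn) W hWN hW ?_ b a ?_ hbC haC)
      · refine inv_anti₀ (by positivity) ?_
        exact pow_le_pow_left₀ (by linarith only [hB']) (le_max_right _ _) _
      · have h2 : (W.filter fun w => ¬ w.length ≤ max K K1) ⊂
            W.filter fun w => ¬ w.length ≤ K := by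
          refine Finset.ssubset_iff_subset_ne.2 ⟨fun w hw => ?_, fun heq => ?_⟩
          · obtain ⟨h3, h4⟩ := Finset.mem_filter.1 hw
            exact Finset.mem_filter.2 ⟨h3, fun h5 => h4 (h5.trans (le_max_left _ _))⟩
          · have h3 : w1 ∈ W.filter fun w => ¬ w.length ≤ K :=
              Finset.mem_filter.2 ⟨hw1, by omega⟩
            rw [← heq] at h3
            exact (Finset.mem_filter.1 h3).2 (hI1.trans (le_max_right _ _))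
        have h3 := Finset.card_lt_card h2
        omega
      · rcases ha with h3 | ⟨w, hw, hwK, hj⟩
        · exact Or.inl h3
        · exact Or.inr ⟨w, hw, hwK.trans (le_max_left _ _), hj⟩

/-- **bounded numbers of values, unbounded depths** -/
theorem F1t {l : ℕ} (β : Fin l → ℝ) (hβ : ∀ j, IsAlgebraic ℚ (β j))
    (hli : LinearIndependent ℚ β) {T : Type} [Fintype T] [DecidableEq T] (χ : T → ℕ → ℝ)
    (hχa : ∀ t m, IsAlgebraic ℚ (χ t m)) {Q : ℕ} (hQ : 1 ≤ Q) {U : Finset ℕ} {lam : ℕ → ℕ → ℝ}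
    {M : ℝ} (hχ : Tws χ Q U lam M) (μ : T → ℕ → ℝ)
    (hμ : ∀ t t', ∑ ρ ∈ U, μ t ρ * χ t' ρ = if t = t' then 1 else 0) (hM0 : 0 ≤ M) (N K : ℕ)
    (κ C : ℝ) :
    ∃ B : ℝ, 1 < B ∧ ∃ n0 : ℕ, ∀ n : ℕ, n0 ≤ n → ∀ W : Finset (List ℕ), W.card ≤ N →
      (∀ w ∈ W, w ≠ [] ∧ Adj n κ w) → ∀ (b : Fin l → ℤ) (a : List ℕ → T → Fin l → ℤ),
      ((∃ j, b j ≠ 0) ∨ ∃ w ∈ W, w.length ≤ K ∧ ∃ t j, a w t j ≠ 0) →
      (∀ j, |(b j : ℝ)| ≤ C ^ n) → (∀ w ∈ W, ∀ t j, |(a w t j : ℝ)| ≤ C ^ n) →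
      (B ^ n)⁻¹ < |∑ j, β j * b j + ∑ w ∈ W, ∑ t, ∑ j, (β j * a w t j) * mzt (χ t) w| := by
  obtain ⟨B, hB, n0, h⟩ := F1t_ind β hβ hli χ hχa hQ hχ μ hμ hM0 N κ (max |C| 1)
    (le_max_right _ _) N K
  have hCC : ∀ n, C ^ n ≤ max |C| 1 ^ n := fun n => by
    refine (le_abs_self _).trans ?_
    rw [abs_pow]
    exact pow_le_pow_left₀ (abs_nonneg _) (le_max_left _ _) _
  exact ⟨B, hB, n0, fun n hn W hWN hW b a ha hbC haC => h n hn W hWN hW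
    ((Finset.card_filter_le _ _).trans hWN) b a ha (fun j => (hbC j).trans (hCC n))
    (fun w hw t j => (haC w hw t j).trans (hCC n))⟩

end Pool.Agent.H43C
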