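import Pool.Agent.H43C.Tw

/-!
# Multiple sums with a twist of the largest variable: tails (after helper760 and helper777)
-/

set_option autoImplicit false

namespace Pool.Agent.H43C

open Filter Topology Pool.Agent.TH932.Abs Pool.Agent.TH932.Germs Pool.Agent.TH932.Chi
open Pool.Agent.TH796.AL Pool.Agent.Y760.ZG Pool.Agent.Y777.AL

/-- the multiple sum, the largest variable is twisted by `χ`; the first argument belongs to the
largest variable -/
noncomputable def mzt (χ : ℕ → ℝ) : List ℕ → ℝ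
  | [] => 1
  | a :: l => ∑' k : ℕ, χ (k + 1) * (hr l (k + 1) / ((k + 1 : ℕ) : ℝ) ^ a)

variable {I : Type} [Fintype I] [DecidableEq I]

/-- the remainder -/
noncomputable def Rt (s : ℕ → I → ℕ) (χ : ℕ → ℝ) (n : ℕ) : List I → ℕ → ℝ
  | [], _ => 0
  | a :: u, k => - tl (fun m => χ m * (hr (aj s n u) m / (m : ℝ) ^ (s n a))) k

omit [Fintype I] [DecidableEq I] in
lemma Rt_nil (s : ℕ → I → ℕ) (χ : ℕ → ℝ) (n k : ℕ) : Rt s χ n ([] : List I) k = 0 := by rw [Rt]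
omit [Fintype I] [DecidableEq I] in
lemma Rt_cons (s : ℕ → I → ℕ) (χ : ℕ → ℝ) (n : ℕ) (a : I) (u : List I) (k : ℕ) :
    Rt s χ n (a :: u) k = - tl (fun m => χ m * (hr (aj s n u) m / (m : ℝ) ^ (s n a))) k := by
  rw [Rt]

omit [Fintype I] [DecidableEq I] in
lemma Rt_one (s : ℕ → I → ℕ) (χ : ℕ → ℝ) (n : ℕ) (a : I) (u : List I) :
    - Rt s χ n (a :: u) 1 = mzt χ (aj s n (a :: u)) := by
  rw [Rt_cons, neg_neg, aj_cons, mzt]
  rfl

section

variable {s : ℕ → I → ℕ} {x : I → ℝ} {χ : ℕ → ℝ} {M : ℝ}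

omit [Fintype I] [DecidableEq I] in
lemma term_bd (hM : ∀ m, |χ m| ≤ M) (n : ℕ) (a : I) (u : List I) {σ : ℕ} (hs : σ ≤ s n a) {m : ℕ}
    (hm : 1 ≤ m) : |χ m * (hr (aj s n u) m / (m : ℝ) ^ (s n a))| ≤
      M * (m : ℝ) ^ (2 * u.length) * ((m : ℝ) ^ σ)⁻¹ := by
  have hM0 : 0 ≤ M := (abs_nonneg _).trans (hM 0)
  have hm1 : (1 : ℝ) ≤ m := by exact_mod_cast hm
  have h2 := hr_le (aj s n u) m hm
  rw [aj_length] at h2
  rw [abs_mul, mul_assoc M]
  refine mul_le_mul (hM m) ?_ (abs_nonneg _) hM0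
  rw [abs_of_nonneg (div_nonneg (hr_nonneg _ _) (by positivity)), div_eq_mul_inv]
  exact mul_le_mul (h2.trans (pow_le_pow_right₀ hm1 (by omega)))
    (inv_anti₀ (by positivity) (pow_le_pow_right₀ hm1 hs)) (by positivity) (by positivity)

omit [Fintype I] [DecidableEq I] in
lemma Rt_bd (hM : ∀ m, |χ m| ≤ M) (n : ℕ) (w : List I) {σ : ℕ} (hσ : 2 * w.length ≤ σ)
    (hs : ∀ i ∈ w.head?, σ ≤ s n i) (k : ℕ) (hk : 1 ≤ k) :
    |Rt s χ n w k| ≤ M * ze 2 ^ w.length * (k : ℝ) ^ (2 * w.length) * ((k : ℝ) ^ σ)⁻¹ := by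
  have hM0 : 0 ≤ M := (abs_nonneg _).trans (hM 0)
  have hz := ze_ge_one (le_refl 2)
  have hz0 : 0 ≤ ze 2 := by linarith only [hz]
  cases w with
  | nil =>
    rw [Rt_nil, abs_zero]
    positivity
  | cons a u =>
    rw [List.length_cons] at hσ ⊢
    rw [Rt_cons, abs_neg]
    have h1 := tail_bd (f := fun m => χ m * (hr (aj s n u) m / (m : ℝ) ^ (s n a))) (C := M)
      (A := 2 * u.length) (σ := σ) hM0 (by omega)
      (fun m hm => term_bd hM n a u (hs a (by simp)) hm) hk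
    refine h1.trans ?_
    have h3 : ze 2 ≤ ze 2 ^ (u.length + 1) := by
      rw [pow_succ]
      exact le_mul_of_one_le_left hz0 (one_le_pow₀ hz)
    have h4 : 2 * u.length + 2 = 2 * (u.length + 1) := by ring
    rw [h4]
    gcongr

omit [Fintype I] [DecidableEq I] in
lemma splitt (hM : ∀ m, |χ m| ≤ M) (n : ℕ) (a : I) (u : List I) {σ : ℕ}
    (hσ : 2 * (u.length + 1) ≤ σ) (hs : σ ≤ s n a) (k : ℕ) (hk : 1 ≤ k) :
    ∑ m ∈ Finset.Ico 1 k, χ m * (hr (aj s n u) m / (m : ℝ) ^ (s n a)) =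
      mzt χ (aj s n (a :: u)) + Rt s χ n (a :: u) k := by
  have hM0 : 0 ≤ M := (abs_nonneg _).trans (hM 0)
  have h1 : Summable fun m => (fun m => χ m * (hr (aj s n u) m / (m : ℝ) ^ (s n a))) (m + 1) :=
    tail_sum (f := fun m => χ m * (hr (aj s n u) m / (m : ℝ) ^ (s n a))) (k := 1) (C := M)
      (A := 2 * u.length) (σ := σ) hM0 (by omega) (fun m hm => term_bd hM n a u hs hm) le_rfl
  have h2 := tail_split (f := fun m => χ m * (hr (aj s n u) m / (m : ℝ) ^ (s n a))) h1 hk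
  rw [h2, ← Rt_one, Rt_cons, Rt_cons, neg_neg, ← sub_eq_add_neg]

end

/-! ### germs -/

section

variable (s : ℕ → I → ℕ) (χ : ℕ → ℝ)

/-- the remainder as a germ -/
noncomputable def Rgt (w : List I) (k : ℕ) : HR := gr fun n => Rt s χ n w k

/-- the values as germs -/
noncomputable def Xgt (w : List I) : HR := gr fun n => mzt χ (aj s n w)

omit [Fintype I] [DecidableEq I] in
lemma Gt_gr (a : I) (u : List I) (k : ℕ) : Gt s χ (a :: u) k =
    gr fun n => ∑ m ∈ Finset.Ico 1 k, χ m * (hr (aj s n u) m / (m : ℝ) ^ (s n a)) := by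
  rw [Gt_cons]
  have h1 : ∀ m ∈ Finset.Ico 1 k, algebraMap ℝ HR (χ m) * rho (lj s a m * Gj s u m) =
      gr fun n => χ m * (hr (aj s n u) m / (m : ℝ) ^ (s n a)) := by
    intro m _
    rw [map_mul, rho_Gj]
    unfold lj
    rw [rho_gm, gr_mul, cst_eq, gr_mul]
    congr 1
    funext n
    push_cast
    rw [div_eq_inv_mul]
  rw [Finset.sum_congr rfl h1, gr_sum]

variable {s χ} {x : I → ℝ} {L : ℕ → ℝ} (hL : Tendsto L atTop atTop)
  (hLs : ∀ i, x i ≠ 0 → ∀ᶠ n in (UU : Filter ℕ), L n ≤ (s n i : ℝ)) {M : ℝ} (hM : ∀ m, |χ m| ≤ M)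
include hL hLs hM

omit [DecidableEq I] in
lemma SR_Rgt {w : List I} (hw : Lj x w) {k : ℕ} (hk : 1 ≤ k) :
    Rgt s χ w k ∈ SR L (Real.log k) := by
  unfold Rgt
  rw [mem_SR]
  intro ε hε
  have h1 := SR_cst hL (M * ze 2 ^ w.length * (k : ℝ) ^ (2 * w.length))
  rw [cst_eq, mem_SR] at h1
  have hk1 : (1 : ℝ) ≤ k := by exact_mod_cast hk
  filter_upwards [h1 ε hε, evj_sig hL hLs w.length, L_nonneg hL] with n h2 h3 h4
  have h5 := Rt_bd (s := s) hM n w h3.1 (fun i hi => by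
    rcases hw with h | ⟨j, u, h, hj⟩
    · rw [h] at hi
      simp at hi
    · rw [h] at hi
      simp only [List.head?_cons, Option.mem_def, Option.some.injEq] at hi
      subst hi
      exact h3.2 _ hj) k hk
  refine h5.trans ?_
  have h6 : ((k : ℝ) ^ ⌈L n⌉₊)⁻¹ ≤ Real.exp (-(Real.log k) * L n) := by
    rw [show ((k : ℝ) ^ ⌈L n⌉₊)⁻¹ = Real.exp (-(Real.log k) * (⌈L n⌉₊ : ℝ)) by
      rw [neg_mul, Real.exp_neg, mul_comm (Real.log k), Real.exp_nat_mul,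
        Real.exp_log (by linarith only [hk1])]]
    apply Real.exp_le_exp.2
    have h7 := Nat.le_ceil (L n)
    have h8 := Real.log_nonneg hk1
    nlinarith only [h7, h8]
  have h7 := (le_abs_self _).trans h2
  calc M * ze 2 ^ w.length * (k : ℝ) ^ (2 * w.length) * ((k : ℝ) ^ ⌈L n⌉₊)⁻¹ ≤
      Real.exp (-(0 - ε) * L n) * Real.exp (-(Real.log k) * L n) :=
        mul_le_mul h7 h6 (by positivity) (by positivity)
    _ = Real.exp (-(Real.log k - ε) * L n) := by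
      rw [← Real.exp_add]
      congr 1
      ring

omit [DecidableEq I] in
lemma Gt_Lj {w : List I} (hw : Lj x w) {k : ℕ} (hk : 1 ≤ k) :
    Gt s χ w k = Xgt s χ w + Rgt s χ w k := by
  rcases hw with rfl | ⟨i, u, rfl, hi⟩
  · have h1 : Xgt s χ ([] : List I) = 1 := by
      unfold Xgt
      rw [← gr_one]
      rfl
    have h2 : Rgt s χ ([] : List I) k = 0 := by
      unfold Rgt
      simp only [Rt_nil]
      exact gr_zero
    rw [h1, h2, Gt_nil, add_zero]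
  · rw [Gt_gr]
    unfold Xgt Rgt
    rw [gr_add, gr_eq]
    filter_upwards [evj_sig hL hLs (u.length + 1)] with n hn
    exact splitt hM n i u hn.1 (hn.2 i hi) k hk

lemma DD_Xgt {F : IntermediateField ℚ ℝ} (hχ : ∀ m, χ m ∈ F) (hs : Lim s x L) {w : List I}
    (hw : Lj x w) : DD hL F (Xgt s χ w) := by
  intro E
  obtain ⟨k, hk⟩ := exists_nat_ge (Real.exp E)
  have hk0 : (0 : ℝ) < k := lt_of_lt_of_le (Real.exp_pos E) hk
  have hk1 : 1 ≤ k := by
    have : 0 < k := by exact_mod_cast hk0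
    omega
  refine ⟨Gt s χ w k, SF_Gt hs hχ w k, ?_⟩
  rw [Gt_Lj hL hLs hM hw hk1, sub_add_cancel_left]
  refine SR_neg (SR_anti hL ?_ (SR_Rgt hL hLs hM hw hk1))
  rw [Real.le_log_iff_exp_le hk0]
  exact hk

end

section

variable {s : ℕ → I → ℕ} {x : I → ℝ} {L : ℕ → ℝ} (hL : Tendsto L atTop atTop)
  (hLs : ∀ i, x i ≠ 0 → ∀ᶠ n in (UU : Filter ℕ), L n ≤ (s n i : ℝ))
include hL hLs

omit [DecidableEq I] in
lemma trunc_sumt {W : Type} [Fintype W] {w : W → List I} (hw : ∀ v, Lj x (w v))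
    {X : W → ℕ → ℝ} {M : ℝ} (hM : ∀ v m, |X v m| ≤ M)
    {c : W → HR} {K : ℝ} (hK : ∀ v, c v ∈ SR L (-K)) (hn : Nul L (∑ v, c v * Xgt s (X v) (w v)))
    {k : ℕ} (hk : 1 ≤ k) : ∑ v, c v * Gt s (X v) (w v) k ∈ SR L (Real.log k - K) := by
  have e1 : ∑ v, c v * Gt s (X v) (w v) k =
      ∑ v, c v * Xgt s (X v) (w v) + ∑ v, c v * Rgt s (X v) (w v) k := by
    rw [← Finset.sum_add_distrib]
    refine Finset.sum_congr rfl fun v _ => ?_
    rw [Gt_Lj hL hLs (hM v) (hw v) hk]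
    ring
  rw [e1]
  refine SR_add hL (hn _) (SR_sum hL _ _ fun v _ => ?_)
  have h1 := SR_mul hL (hK v) (SR_Rgt hL hLs (hM v) (hw v) hk)
  refine SR_anti hL (le_of_eq ?_) h1
  ring

end

end Pool.Agent.H43C
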