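import Pool.Agent.H43C.Pr

/-!
# Independence of powers and truncated multiple sums on an infinite set of primes (after helper777)
-/

set_option autoImplicit false

namespace Pool.Agent.H43C

open Filter Topology Pool.Agent.TH932.Abs Pool.Agent.TH932.Germs Pool.Agent.TH932.Chi
open Pool.Agent.TH796.AL Pool.Agent.Y760.ZG Pool.Agent.Y777.AL

/-- independence at the primes with an index in `R` of the products of the powers with exponents
`D` and the truncated multiple sums with letters in `A` -/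
def PISR (R : ℕ → Prop) {I J : Type} [Fintype J] (s : ℕ → I → ℕ) (D : ℕ → J → ℕ)
    (A : I → Prop) : Prop :=
  ∀ (q0 : ℕ) (Λ : Finset (List I)), (∀ β ∈ Λ, ∀ a ∈ β, A a) → ∀ c : J → List I → HR,
    (∀ q, q0 ≤ q → R q → ∑ j, ∑ β ∈ Λ, c j β * rho (ug D q j * Gj s β (pr q)) = 0) →
    ∀ j, ∀ β ∈ Λ, c j β = 0

variable {R : ℕ → Prop}

lemma PISR_sub {I J : Type} [Fintype J] {s : ℕ → I → ℕ} {D : ℕ → J → ℕ} {A : I → Prop}
    (h : PISR R (fun n (i : {i // A i}) => s n i.1) D (fun _ => True)) : PISR R s D A := by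
  classical
  intro q0 Λ hΛ c hc j β hβ
  have hinj : Function.Injective (List.map (Subtype.val : {i // A i} → I)) :=
    List.map_injective_iff.2 Subtype.val_injective
  have h1 := h q0 (Λ.preimage (List.map Subtype.val) hinj.injOn) (fun _ _ _ _ => trivial)
    (fun j β => c j (β.map Subtype.val)) (fun q hq hRq => by
      rw [← hc q hq hRq]
      refine Finset.sum_congr rfl fun j _ => ?_
      have h2 := Finset.sum_preimage (List.map (Subtype.val : {i // A i} → I)) Λ hinj.injOn
        (fun β => c j β * rho (ug D q j * Gj s β (pr q))) (fun β hβ hβ' => by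
          exfalso
          apply hβ'
          have h3 := hΛ β hβ
          exact ⟨β.attach.map fun a => ⟨a.1, h3 a.1 a.2⟩, by
            rw [List.map_map]
            show List.map (fun a => a.1) β.attach = β
            exact List.attach_map_subtype_val β⟩)
      rw [← h2]
      refine Finset.sum_congr rfl fun β _ => ?_
      rw [Gj_map]) j
  have h3 := hΛ β hβ
  have h4 : (β.attach.map fun a => (⟨a.1, h3 a.1 a.2⟩ : {i // A i})).map Subtype.val = β := by
    rw [List.map_map]
    show List.map (fun a => a.1) β.attach = β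
    exact List.attach_map_subtype_val β
  have h5 := h1 (β.attach.map fun a => (⟨a.1, h3 a.1 a.2⟩ : {i // A i})) (by
    rw [Finset.mem_preimage, h4]
    exact hβ)
  rwa [h4] at h5

lemma PISR_shift {I J : Type} [Fintype J] {s : ℕ → I → ℕ} {D D' : ℕ → J → ℕ} {m : ℕ → ℕ}
    {A : I → Prop} (hD : ∀ n j, D n j = D' n j + m n) (h : PISR R s D' A) : PISR R s D A := by
  intro q0 Λ hΛ c hc
  refine h q0 Λ hΛ c fun q hq hRq => ?_
  set u : GG := gm fun n => ((pr q : ℚ) ^ (m n))⁻¹ with hu
  have hp : (pr q : ℚ) ≠ 0 := by exact_mod_cast (pr_prime q).ne_zero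
  have hu0 : rho u ≠ 0 := by
    rw [Ne, map_eq_zero]
    intro h0
    rw [hu, ← gm_zero, gm_eq] at h0
    obtain ⟨n, hn⟩ := h0.exists
    exact inv_ne_zero (pow_ne_zero _ hp) hn
  have hug : ∀ j, ug D q j = ug D' q j * u := by
    intro j
    rw [hu]
    unfold ug
    rw [gm_mul]
    congr 1
    funext n
    rw [hD, pow_add, mul_inv]
  have h1 := hc q hq hRq
  have h2 : ∑ j, ∑ β ∈ Λ, c j β * rho (ug D q j * Gj s β (pr q)) =
      (∑ j, ∑ β ∈ Λ, c j β * rho (ug D' q j * Gj s β (pr q))) * rho u := by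
    rw [Finset.sum_mul]
    refine Finset.sum_congr rfl fun j _ => ?_
    rw [Finset.sum_mul]
    refine Finset.sum_congr rfl fun β _ => ?_
    rw [hug]
    simp only [map_mul]
    ring
  rw [h2] at h1
  exact (mul_eq_zero.1 h1).resolve_right hu0

/-- **the case of constant exponents** -/
lemma PISR_const (hR : ∀ m, ∃ q, m ≤ q ∧ R q) {I J : Type} [Fintype I] [DecidableEq I] [Fintype J] [DecidableEq J]
    {s : ℕ → I → ℕ} {D : ℕ → J → ℕ} (hs : ∀ n, Function.Injective (s n))
    (hD : ∀ n, Function.Injective (D n)) (hs1 : ∀ n i, 1 ≤ s n i) {b : ℕ}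
    (hsb : ∀ᶠ n in (UU : Filter ℕ), (∀ i, s n i ≤ b) ∧ ∀ j, D n j ≤ b) :
    PISR R s D (fun _ => True) := by
  classical
  intro q0 Λ _ c hc j0 β0 hβ0
  -- the constants
  have h1 : ∀ i, ∃ e : ℕ, ∀ᶠ n in (UU : Filter ℕ), s n i = e := by
    intro i
    have h2 : Set.Iic b ∈ UU.map (fun n => s n i) := by
      show ∀ᶠ n in (UU : Filter ℕ), s n i ∈ Set.Iic b
      filter_upwards [hsb] with n hn
      exact hn.1 i
    obtain ⟨a, _, ha⟩ := Ultrafilter.eq_pure_of_finite_mem (Set.finite_Iic b) h2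
    refine ⟨a, ?_⟩
    have h3 : ({a} : Set ℕ) ∈ UU.map (fun n => s n i) := by
      rw [ha]
      exact Ultrafilter.mem_pure.2 rfl
    exact h3
  have h2 : ∀ j, ∃ e : ℕ, ∀ᶠ n in (UU : Filter ℕ), D n j = e := by
    intro j
    have h2 : Set.Iic b ∈ UU.map (fun n => D n j) := by
      show ∀ᶠ n in (UU : Filter ℕ), D n j ∈ Set.Iic b
      filter_upwards [hsb] with n hn
      exact hn.2 j
    obtain ⟨a, _, ha⟩ := Ultrafilter.eq_pure_of_finite_mem (Set.finite_Iic b) h2
    refine ⟨a, ?_⟩
    have h3 : ({a} : Set ℕ) ∈ UU.map (fun n => D n j) := by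
      rw [ha]
      exact Ultrafilter.mem_pure.2 rfl
    exact h3
  choose e he using h1
  choose d hd using h2
  have hall : ∀ᶠ n in (UU : Filter ℕ), (∀ i, s n i = e i) ∧ ∀ j, D n j = d j := by
    have h3 : ∀ᶠ n in (UU : Filter ℕ), ∀ i, s n i = e i := Filter.eventually_all.2 he
    have h4 : ∀ᶠ n in (UU : Filter ℕ), ∀ j, D n j = d j := Filter.eventually_all.2 hd
    exact h3.and h4
  obtain ⟨n0, hn0, hn0'⟩ := hall.exists
  have he1 : ∀ i, 0 < e i := fun i => by
    have := hs1 n0 i
    rw [hn0 i] at this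
    exact this
  set bp : I → ℕ+ := fun i => ⟨e i, he1 i⟩ with hbp
  have hbpi : Function.Injective bp := by
    intro i i' h
    apply hs n0
    rw [hn0 i, hn0 i']
    exact congrArg PNat.val h
  have hdi : Function.Injective d := by
    intro j j' h
    apply hD n0
    rw [hn0' j, hn0' j', h]
  set E : List I → List ℕ+ := List.map bp with hE
  have hEi : Function.Injective E := List.map_injective_iff.2 hbpi
  have hcl : ∀ β : List I, cl (E β) = β.map e := by
    intro β
    induction β with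
    | nil => rfl
    | cons a β ih =>
      rw [hE] at ih ⊢
      rw [List.map_cons, List.map_cons]
      show (bp a : ℕ) :: cl (List.map bp β) = _
      rw [ih]
      rfl
  -- real functionals
  by_contra hne
  obtain ⟨φ, hφ⟩ : ∃ φ : Module.Dual ℝ HR, φ (c j0 β0) ≠ 0 := by
    by_contra hcon
    push Not at hcon
    exact hne ((Module.forall_dual_apply_eq_zero_iff ℝ (c j0 β0)).1 hcon)
  apply hφ
  have hval : ∀ q j β, rho (ug D q j * Gj s β (pr q)) =
      algebraMap ℝ HR (((pr q : ℝ) ^ (d j))⁻¹ * hr (β.map e) (pr q)) := by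
    intro q j β
    rw [map_mul, rho_Gj]
    unfold ug
    rw [rho_gm, gr_mul, cst_eq, gr_eq]
    filter_upwards [hall] with n hn
    have h3 : aj s n β = β.map e := by
      unfold aj
      exact List.map_congr_left fun a _ => hn.1 a
    rw [h3, hn.2 j]
    push_cast
    rfl
  set Λ' : Finset (List ℕ+) := Λ.image E with hΛ'
  have hfin := env_finR R hR Λ' Finset.univ (fun j : J => (d j : ℤ)) (fun j _ j' _ h => by
      apply hdi
      exact_mod_cast h) (fun j β => φ (c j (Function.invFun E β.1))) q0 (fun q hq hRq => by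
    have h3 := congrArg φ (hc q hq hRq)
    rw [map_zero] at h3
    rw [← h3, map_sum]
    refine Finset.sum_congr rfl fun j _ => ?_
    rw [map_sum, Finset.mul_sum]
    rw [Finset.sum_coe_sort Λ' (fun β => ((pr q : ℝ) ^ (d j : ℤ))⁻¹ *
      (hr (cl β) (pr q) * φ (c j (Function.invFun E β))))]
    rw [hΛ', Finset.sum_image fun a _ b _ h => hEi h]
    refine Finset.sum_congr rfl fun β _ => ?_
    rw [Function.leftInverse_invFun hEi β, hval, hcl, mul_comm (c j β), ← Algebra.smul_def,
      map_smul, smul_eq_mul, zpow_natCast]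
    ring) j0 (Finset.mem_univ _) ⟨E β0, Finset.mem_image_of_mem _ hβ0⟩
  simp only at hfin
  rwa [Function.leftInverse_invFun hEi β0] at hfin

/-- linear independence over the real germs of functions on the natural numbers `≥ q0` -/
def IndR (R : ℕ → Prop) {κ : Type} (q0 : ℕ) (S : Finset κ) (f : κ → ℕ → GG) : Prop :=
  ∀ μ : κ → HR, (∀ q, q0 ≤ q → R q → ∑ k ∈ S, μ k * rho (f k q) = 0) → ∀ k ∈ S, μ k = 0

/-- **elimination** -/
lemma gaussR {L : ℕ → ℝ} (hL : Tendsto L atTop atTop) {κ : Type} (q0 : ℕ) (δ : ℝ)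
    (S : Finset κ) : ∀ f : κ → ℕ → GG, (∀ k ∈ S, ∀ q, f k q ∈ KK L hL) → IndR R q0 S f →
      ∀ z : κ → HR, (∀ q, q0 ≤ q → R q → ∑ k ∈ S, z k * rho (f k q) ∈ SR L δ) →
      ∀ k ∈ S, z k ∈ SR L δ := by
  classical
  induction S using Finset.induction_on with
  | empty =>
    intro f _ _ z _ k hk
    exact absurd hk (Finset.notMem_empty k)
  | insert k1 S hk1 ih =>
    intro f hf hi z hz
    obtain ⟨q1, hq1, hRq1, hne⟩ : ∃ q1, q0 ≤ q1 ∧ R q1 ∧ f k1 q1 ≠ 0 := by
      by_contra hcon
      push Not at hcon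
      have h1 := hi (Pi.single k1 1) (fun q hq hRq => by
        rw [Finset.sum_eq_single k1]
        · rw [hcon q hq hRq, map_zero, mul_zero]
        · intro k _ hk
          rw [Pi.single_eq_of_ne hk, zero_mul]
        · intro h
          exact absurd (Finset.mem_insert_self k1 S) h) k1 (Finset.mem_insert_self k1 S)
      rw [Pi.single_eq_same] at h1
      exact one_ne_zero h1
    have hk1f := hf k1 (Finset.mem_insert_self k1 S)
    have hrne : rho (f k1 q1) ≠ 0 := by
      rw [Ne, map_eq_zero]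
      exact hne
    set g : κ → ℕ → GG := fun k q => f k q - f k q1 * (f k1 q1)⁻¹ * f k1 q with hg
    have hrg : ∀ k q, rho (g k q) = rho (f k q) -
        rho (f k q1) * (rho (f k1 q1))⁻¹ * rho (f k1 q) := by
      intro k q
      rw [hg]
      simp only [map_sub, map_mul, map_inv₀]
    have hS : ∀ k ∈ S, z k ∈ SR L δ := by
      refine ih g (fun k hk q => ?_) ?_ z ?_
      · have h1 := hf k (Finset.mem_insert_of_mem hk)
        exact (KK L hL).sub_mem (h1 q) ((KK L hL).mul_mem ((KK L hL).mul_mem (h1 q1)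
          ((KK L hL).inv_mem (hk1f q1))) (hk1f q))
      · intro μ hμ k hk
        set μ' : κ → HR := fun k => if k = k1 then
          - ∑ k ∈ S, μ k * (rho (f k q1) * (rho (f k1 q1))⁻¹) else μ k with hμ'
        have h1 := hi μ' (fun q hq hRq => by
          rw [Finset.sum_insert hk1]
          have e1 : μ' k1 = - ∑ k ∈ S, μ k * (rho (f k q1) * (rho (f k1 q1))⁻¹) := if_pos rfl
          have e2 : ∀ k ∈ S, μ' k * rho (f k q) = μ k * rho (f k q) := by
            intro k hk
            have : k ≠ k1 := fun h => hk1 (h ▸ hk)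
            rw [hμ']
            simp only [if_neg this]
          rw [e1, Finset.sum_congr rfl e2, ← hμ q hq hRq, neg_mul, Finset.sum_mul, neg_add_eq_sub,
            ← Finset.sum_sub_distrib]
          refine Finset.sum_congr rfl fun k _ => ?_
          rw [hrg]
          ring) k (Finset.mem_insert_of_mem hk)
        have : k ≠ k1 := fun h => hk1 (h ▸ hk)
        rw [hμ'] at h1
        simp only [if_neg this] at h1
        exact h1
      · intro q hq hRq
        have e1 : ∑ k ∈ S, z k * rho (g k q) = ∑ k ∈ insert k1 S, z k * rho (f k q) -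
            (∑ k ∈ insert k1 S, z k * rho (f k q1)) * (rho (f k1 q1 )⁻¹ * rho (f k1 q)) := by
          rw [Finset.sum_insert hk1, Finset.sum_insert hk1, map_inv₀]
          have e2 : ∑ k ∈ S, z k * rho (g k q) = ∑ k ∈ S, z k * rho (f k q) -
              (∑ k ∈ S, z k * rho (f k q1)) * ((rho (f k1 q1))⁻¹ * rho (f k1 q)) := by
            rw [Finset.sum_mul, ← Finset.sum_sub_distrib]
            refine Finset.sum_congr rfl fun k _ => ?_
            rw [hrg]
            ring
          rw [e2]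
          field_simp
          ring
        rw [e1]
        refine SR_sub hL (hz q hq hRq) ?_
        have h1 := SR_mul hL (hz q1 hq1 hRq1) (SR_KK hL ((KK L hL).mul_mem ((KK L hL).inv_mem
          (hk1f q1)) (hk1f q)))
        rw [map_mul, add_zero] at h1
        exact h1
    intro k hk
    rw [Finset.mem_insert] at hk
    rcases hk with rfl | hk
    · have h1 := SR_sub hL (hz q1 hq1 hRq1) (SR_sum hL S (fun k' => z k' * rho (f k' q1))
        (fun k' hk' => by
          have h2 := SR_mul hL (hS k' hk') (SR_KK hL (hf k' (Finset.mem_insert_of_mem hk') q1))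
          rwa [add_zero] at h2))
      rw [Finset.sum_insert hk1, add_sub_cancel_right] at h1
      have h2 := SR_mul hL h1 (SR_KK hL ((KK L hL).inv_mem (hk1f q1)))
      rw [add_zero, map_inv₀, mul_assoc, mul_inv_cancel₀ hrne, mul_one] at h2
      exact h2
    · exact hS k hk

section

variable {I J : Type} [Fintype I] [DecidableEq I] [Fintype J] [DecidableEq J]
  {s : ℕ → I → ℕ} {D : ℕ → J → ℕ} {L : ℕ → ℝ} {hL : Tendsto L atTop atTop}
  {F : IntermediateField ℚ ℝ} {x : I → ℝ} {d : J → ℝ}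

/-- the coefficients can be taken among the finite sums of characters -/
lemma to_SFR (hs : Lim s x L) (hD : Lim D d L) {q0 : ℕ} {Λ : Finset (List I)}
    {c : J → List I → HR} (hc : ∀ q, q0 ≤ q → R q →
      ∑ j, ∑ β ∈ Λ, c j β * rho (ug D q j * Gj s β (pr q)) = 0) {j0 : J} {β0 : List I}
    (hβ0 : β0 ∈ Λ) (hne : c j0 β0 ≠ 0) : ∃ c' : J → List I → HR, c' j0 β0 ≠ 0 ∧
      (∀ j β, c' j β ∈ SF hL F) ∧
      ∀ q, q0 ≤ q → R q → ∑ j, ∑ β ∈ Λ, c' j β * rho (ug D q j * Gj s β (pr q)) = 0 := by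
  classical
  obtain ⟨c', h1, h2, h3⟩ := descend (SF hL F) (Finset.univ ×ˢ Λ) (fun q : ℕ => q0 ≤ q ∧ R q)
    (fun (p : J × List I) q => rho (ug D q p.1 * Gj s p.2 (pr q))) (fun p _ q _ => by
      simp only [map_mul]
      exact (SF hL F).mul_mem (SF_ug hD q p.1) (SF_Gj hs p.2 _)) (fun p => c p.1 p.2)
    (fun q hq => by
      rw [Finset.sum_product]
      exact hc q hq.1 hq.2) (k0 := (j0, β0)) hne
  refine ⟨fun j β => c' (j, β), h2 (Finset.mem_product.2 ⟨Finset.mem_univ _, hβ0⟩),
    fun j β => h1 _, fun q hq hRq => ?_⟩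
  have h4 := h3 q ⟨hq, hRq⟩
  rw [Finset.sum_product] at h4
  exact h4

/-- **the classes of the exponents** -/
lemma step_clsR (hF : FiniteDimensional ℚ F) (hs : Lim s x L) (hD : Lim D d L) {q0 : ℕ}
    {Λ : Finset (List I)} {c : J → List I → HR} (hcS : ∀ j β, c j β ∈ SF hL F)
    (hc : ∀ q, q0 ≤ q → R q → ∑ j, ∑ β ∈ Λ, c j β * rho (ug D q j * Gj s β (pr q)) = 0) :
    ∃ q1 : ℕ, ∀ q, q1 ≤ q → R q → ∀ e : ℝ, ∑ j : {j // d j = e}, ∑ β ∈ Λ,
      c j.1 β * rho (ug D q j.1 * Gj s β (pr q)) = 0 := by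
  classical
  obtain ⟨m0, hm0⟩ := SF_common (J := J × Λ) (x := fun p => c p.1 p.2.1)
    (fun p => hcS p.1 p.2.1)
  refine ⟨q0 + m0, fun q hq hRq e => ?_⟩
  have hqM : q < pr q := by
    have := pr_ge q
    omega
  set RR : ℝ → HR := fun e => ∑ j ∈ Finset.univ.filter (fun j => d j = e), ∑ β ∈ Λ,
    c j β * (rho (ug D q j / ch1 hL q (-e)) * rho (Gj s β (pr q))) with hRR
  have hRNQ : ∀ e, NQ hL F q (pr q) (RR e) := by
    intro e
    refine NQ.sum _ _ fun j hj => NQ.sum _ _ fun β hβ => ?_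
    rw [Finset.mem_filter] at hj
    refine ((hm0 q (by omega) (j, ⟨β, hβ⟩)).mono hqM.le).mul (NQ.mul ?_ ?_)
    · have h1 := ug_const hL hD q j
      rw [hj.2] at h1
      exact NQ.coe ⟨_, rho_mem_KA hL F ⟨_, h1⟩⟩
    · exact NQ_Gj hs hqM (by omega) β
  have hmul : ∀ e, rho (ch1 hL q (-e)) * RR e =
      ∑ j ∈ Finset.univ.filter (fun j => d j = e), ∑ β ∈ Λ,
        c j β * rho (ug D q j * Gj s β (pr q)) := by
    intro e
    rw [hRR]
    simp only
    rw [Finset.mul_sum]
    refine Finset.sum_congr rfl fun j _ => ?_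
    rw [Finset.mul_sum]
    refine Finset.sum_congr rfl fun β _ => ?_
    have hch : rho (ch1 hL q (-e)) ≠ 0 := by
      rw [Ne, map_eq_zero]
      exact ch1_ne hL q _
    rw [map_div₀, map_mul]
    field_simp
  set Y : Finset ℝ := Finset.univ.image d with hY
  have htot : ∑ e ∈ Y, rho (ch (bs (pr q)) hL (Pi.single ⟨q, hqM⟩ (-e))) * RR e = 0 := by
    rw [← hc q (by omega) hRq]
    have h1 : ∀ e ∈ Y, rho (ch (bs (pr q)) hL (Pi.single ⟨q, hqM⟩ (-e))) * RR e =
        ∑ j ∈ Finset.univ.filter (fun j => d j = e), ∑ β ∈ Λ,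
          c j β * rho (ug D q j * Gj s β (pr q)) := by
      intro e _
      rw [ch1_eq, hmul]
    rw [Finset.sum_congr rfl h1]
    exact Finset.sum_fiberwise_of_maps_to (fun j hj => Finset.mem_image_of_mem d hj) _
  have hR0 : ∀ e ∈ Y, RR e = 0 := by
    intro e he
    refine SF_nul hF (SF_of_NQ (hRNQ e)) fun t => ?_
    have h1 := split hF hqM Y RR (fun e _ => hRNQ e) (x := t + e * Real.log (pr q)) (by
      rw [htot]
      exact SR_zero _) e he
    rwa [add_sub_cancel_right] at h1
  have h2 : ∑ j ∈ Finset.univ.filter (fun j => d j = e), ∑ β ∈ Λ,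
      c j β * rho (ug D q j * Gj s β (pr q)) = 0 := by
    by_cases he : e ∈ Y
    · rw [← hmul, hR0 e he, mul_zero]
    · rw [Finset.filter_eq_empty_iff.2, Finset.sum_empty]
      intro j _ hj
      exact he (Finset.mem_image.2 ⟨j, Finset.mem_univ _, hj⟩)
  rw [← h2]
  exact (Finset.sum_subtype (Finset.univ.filter (fun j => d j = e)) (p := fun j => d j = e)
    (fun j => by
      rw [Finset.mem_filter]
      exact ⟨fun h => h.2, fun h => ⟨Finset.mem_univ _, h⟩⟩)
    (fun j => ∑ β ∈ Λ, c j β * rho (ug D q j * Gj s β (pr q)))).symm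

/-- **one class** -/
lemma step_oneR (hF : FiniteDimensional ℚ F) (hs : Lim s x L) (hD : Lim D (fun _ => 0) L)
    (hx : ∀ i, x i = 0 ∨ 2 ≤ x i)
    (hLs : ∀ i, x i ≠ 0 → ∀ᶠ n in (UU : Filter ℕ), L n ≤ (s n i : ℝ))
    (hJ : PISR R s D (fun a => x a = 0))
    (hA : ∀ y, 2 ≤ y → PIS s (fun n (i : {i // x i = y}) => s n i.1) (fun a => x a = 0))
    {q0 : ℕ} {Λ : Finset (List I)} {c : J → List I → HR} (hcS : ∀ j β, c j β ∈ SF hL F)
    (hc : ∀ q, q0 ≤ q → R q → ∑ j, ∑ β ∈ Λ, c j β * rho (ug D q j * Gj s β (pr q)) = 0) :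
    ∀ j, ∀ β ∈ Λ, c j β = 0 := by
  classical
  set Λ' : Finset (List I) := Λ.biUnion fun β => ((spj x β).map Prod.fst).toFinset with hΛ'
  have hΛm : ∀ β ∈ Λ, ∀ p ∈ spj x β, p.1 ∈ Λ' := by
    intro β hβ p hp
    rw [hΛ', Finset.mem_biUnion]
    refine ⟨β, hβ, ?_⟩
    rw [List.mem_toFinset, List.mem_map]
    exact ⟨p, hp, rfl⟩
  have hΛs : ∀ ν ∈ Λ', ∀ a ∈ ν, x a = 0 := by
    intro ν hν a ha
    rw [hΛ', Finset.mem_biUnion] at hν
    obtain ⟨β, _, hν⟩ := hν
    rw [List.mem_toFinset, List.mem_map] at hν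
    obtain ⟨p, hp, rfl⟩ := hν
    exact spj_mem x p hp a ha
  set Z : J → List I → HR := fun j ν => ∑ β ∈ Λ, c j β * Xbj s x β ν with hZ
  -- bounds for the coefficients
  choose c0 hc0 hc0' using fun (p : J × Λ) => SF_bdd (hcS p.1 p.2.1)
  set K : ℝ := ∑ p, c0 p with hK
  have hcK : ∀ j, ∀ β ∈ Λ, c j β ∈ SR L (-K) := fun j β hβ =>
    SR_anti hL (neg_le_neg (Finset.single_le_sum (f := c0) (fun v _ => hc0 v)
      (Finset.mem_univ (j, ⟨β, hβ⟩)))) (hc0' (j, ⟨β, hβ⟩))
  have hug : ∀ q j, ug D q j ∈ KK L hL := by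
    intro q j
    have h1 := ug_const hL hD q j
    rwa [neg_zero, ch1_zero, div_one] at h1
  -- the coefficients of the expansions
  have hZn : ∀ j, ∀ ν ∈ Λ', Nul L (Z j ν) := by
    intro j ν hν t
    obtain ⟨q1, hq1⟩ := exists_nat_ge (Real.exp (t + K))
    set f : J × List I → ℕ → GG := fun p q => ug D q p.1 * Gj s p.2 (pr q) with hf
    refine gaussR hL (q0 + q1) t (Finset.univ ×ˢ Λ') f (by
      rintro ⟨j, ν⟩ hp q
      rw [Finset.mem_product] at hp
      exact (KK L hL).mul_mem (hug q j) (Gj_KK hs (hΛs ν hp.2) _)) (by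
      rintro μ hμ ⟨j, ν⟩ hp
      rw [Finset.mem_product] at hp
      refine hJ (q0 + q1) Λ' hΛs (fun j ν => μ (j, ν)) (fun q hq hRq => ?_) j ν hp.2
      have h1 := hμ q hq hRq
      rw [Finset.sum_product] at h1
      exact h1) (fun p => Z p.1 p.2) (fun q hq hRq => ?_) (j, ν)
      (Finset.mem_product.2 ⟨Finset.mem_univ _, hν⟩)
    have hp := pr_prime q
    have hpr : (0 : ℝ) < pr q := by exact_mod_cast hp.pos
    have hlogp : t + K ≤ Real.log (pr q) := by
      rw [Real.le_log_iff_exp_le hpr]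
      refine hq1.trans ?_
      have := pr_ge q
      exact_mod_cast (by omega : q1 ≤ pr q)
    have h1 : ∑ j, ∑ β ∈ Λ, c j β * (rho (ug D q j) * Rgj s x β (pr q)) ∈ SR L t := by
      refine SR_sum hL _ _ fun j _ => SR_sum hL _ _ fun β hβ => ?_
      have h2 := SR_mul hL (hcK j β hβ) (SR_mul hL (SR_KK hL (hug q j))
        (SR_Rgj hL hLs β (k := pr q) hp.pos))
      refine SR_anti hL ?_ h2
      linarith only [hlogp]
    have h2 : ∑ p ∈ Finset.univ ×ˢ Λ', Z p.1 p.2 * rho (f p q) =
        - ∑ j, ∑ β ∈ Λ, c j β * (rho (ug D q j) * Rgj s x β (pr q)) := by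
      rw [eq_neg_iff_add_eq_zero, Finset.sum_product, ← hc q (by omega) hRq,
        ← Finset.sum_add_distrib]
      refine Finset.sum_congr rfl fun j _ => ?_
      have h3 : ∑ ν ∈ Λ', Z j ν * rho (f (j, ν) q) =
          ∑ β ∈ Λ, c j β * (rho (ug D q j) * ∑ ν ∈ Λ', rho (Gj s ν (pr q)) * Xbj s x β ν) := by
        rw [hZ, hf]
        simp only [Finset.sum_mul, Finset.mul_sum, map_mul]
        rw [Finset.sum_comm]
        refine Finset.sum_congr rfl fun β _ => Finset.sum_congr rfl fun ν _ => ?_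
        ring
      rw [h3, ← Finset.sum_add_distrib]
      refine Finset.sum_congr rfl fun β hβ => ?_
      rw [map_mul, Gj_expand hL hLs β (k := pr q) hp.pos,
        Xbj_sum s x Λ' (spj x β) (hΛm β hβ) (fun ν => rho (Gj s ν (pr q)))]
      unfold Xbj
      ring
    rw [h2]
    exact SR_neg h1
  -- the longest first parts
  intro j
  by_contra hcon
  push Not at hcon
  obtain ⟨β1, hβ1, hβ1'⟩ := hcon
  obtain ⟨β4, hβ4, hmax⟩ := Finset.exists_max_image (Λ.filter fun β => c j β ≠ 0)
    (fun β => (prej x β).length) ⟨β1, Finset.mem_filter.2 ⟨hβ1, hβ1'⟩⟩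
  rw [Finset.mem_filter] at hβ4
  set ν : List I := prej x β4 with hν
  have hνs : ∀ a ∈ ν, x a = 0 := prej_mem x
  have hNul : Nul L (Z j ν) := by
    by_cases hν' : ν ∈ Λ'
    · exact hZn j ν hν'
    · have h1 : Z j ν = 0 := by
        rw [hZ]
        refine Finset.sum_eq_zero fun β hβ => ?_
        have h2 : Xbj s x β ν = 0 := by
          unfold Xbj
          refine List.sum_eq_zero fun z hz => ?_
          obtain ⟨p, hp, rfl⟩ := List.mem_map.1 hz
          rw [if_neg]
          intro h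
          exact hν' (h ▸ hΛm β hβ p hp)
        rw [h2, mul_zero]
      rw [h1]
      intro t
      exact SR_zero t
  set S : Finset (List I) := Λ.filter (fun β => c j β ≠ 0 ∧ prej x β = ν) with hS
  have hSm : ∀ β : S, β.1 ∈ Λ ∧ c j β.1 ≠ 0 ∧ prej x β.1 = ν := fun β =>
    Finset.mem_filter.1 β.2
  have h5 := indWj (hL := hL) hF hs hx hLs hA (∑ β ∈ Λ, β.length)
    S (fun β => rstj x β.1) (fun β β' h => by
      apply Subtype.ext
      have h6 : rstj x β.1 = rstj x β'.1 := h
      rw [pre_rstj x β.1, pre_rstj x β'.1, (hSm β).2.2, (hSm β').2.2, h6])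
      (fun β => Lj_rstj x _) (fun β => (rstj_length x β.1).trans
        (Finset.single_le_sum (f := fun β : List I => β.length) (fun _ _ => Nat.zero_le _)
          (hSm β).1)) (fun β => c j β.1) (fun β => hcS _ _) (by
      refine (congrArg (Nul L) ?_).mp hNul
      have e1 : ∀ β ∈ Λ, c j β * Xbj s x β ν = if c j β ≠ 0 ∧ prej x β = ν then
          c j β * Xgj s x (rstj x β) else 0 := by
        intro β hβ
        by_cases hcβ : c j β = 0
        · rw [hcβ, zero_mul, if_neg]
          intro h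
          exact h.1 rfl
        · have h9 := hmax β (Finset.mem_filter.2 ⟨hβ, hcβ⟩)
          rw [Xbj_pre x s β ν h9]
          by_cases h10 : prej x β = ν
          · rw [if_pos h10, if_pos ⟨hcβ, h10⟩]
          · rw [if_neg h10, if_neg (fun h => h10 h.2), mul_zero]
      rw [hZ]
      simp only
      rw [Finset.sum_congr rfl e1, ← Finset.sum_filter]
      exact (Finset.sum_coe_sort S (fun β => c j β * Xgj s x (rstj x β))).symm)
    ⟨β4, Finset.mem_filter.2 ⟨hβ4.1, hβ4.2, rfl⟩⟩
  exact hβ4.2 h5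

end

/-- **independence at the primes** -/
theorem PI_allR (hR : ∀ m, ∃ q, m ≤ q ∧ R q) (N : ℕ) : ∀ (I J : Type) [Fintype I] [DecidableEq I] [Fintype J] [DecidableEq J]
    (s : ℕ → I → ℕ) (D : ℕ → J → ℕ), (∀ n, Function.Injective (s n)) →
    (∀ n, Function.Injective (D n)) → (∀ n i, 1 ≤ s n i) → Fintype.card J + nb s ≤ N →
    PISR R s D (fun _ => True) := by
  classical
  induction N with
  | zero =>
    intro I J _ _ _ _ s D _ _ _ hN q0 Λ _ c _ j
    haveI : IsEmpty J := Fintype.card_eq_zero_iff.1 (by omega)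
    exact isEmptyElim j
  | succ N ih =>
    intro I J _ _ _ _ s D0 hs hD0 hs1 hN
    by_cases hJe : IsEmpty J
    · intro q0 Λ _ c _ j
      exact isEmptyElim j
    rw [not_isEmpty_iff] at hJe
    -- the smallest exponent is zero
    set mn : ℕ → ℕ := fun n => Finset.univ.inf' Finset.univ_nonempty (D0 n) with hmn
    have hmn1 : ∀ n j, mn n ≤ D0 n j := fun n j => Finset.inf'_le _ (Finset.mem_univ j)
    have hmn2 : ∀ n, ∃ j, D0 n j = mn n := fun n => by
      obtain ⟨j, _, hj⟩ := Finset.exists_mem_eq_inf' Finset.univ_nonempty (D0 n)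
      exact ⟨j, hj.symm⟩
    set D : ℕ → J → ℕ := fun n j => D0 n j - mn n with hD
    have hDD : ∀ n j, D0 n j = D n j + mn n := fun n j => by
      have := hmn1 n j
      rw [hD]
      simp only
      omega
    have hDi : ∀ n, Function.Injective (D n) := by
      intro n j j' h
      apply hD0 n
      rw [hDD, hDD, h]
    have hDz : ∀ n, ∃ j, D n j = 0 := fun n => by
      obtain ⟨j, hj⟩ := hmn2 n
      exact ⟨j, by rw [hD]; simp only; omega⟩
    refine PISR_shift hDD ?_
    set M : ℕ → ℕ := fun n => ∑ i, s n i + ∑ j, D n j with hM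
    have hsM : ∀ n i, s n i ≤ M n := fun n i =>
      (Finset.single_le_sum (f := s n) (fun _ _ => Nat.zero_le _) (Finset.mem_univ i)).trans
        (Nat.le_add_right _ _)
    have hDM : ∀ n j, D n j ≤ M n := fun n j =>
      (Finset.single_le_sum (f := D n) (fun _ _ => Nat.zero_le _) (Finset.mem_univ j)).trans
        (Nat.le_add_left _ _)
    by_cases hb : ∃ b, ∀ᶠ n in (UU : Filter ℕ), M n ≤ b
    · obtain ⟨b, hb⟩ := hb
      refine PISR_const hR hs hDi hs1 (b := b) ?_
      filter_upwards [hb] with n hn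
      exact ⟨fun i => (hsM n i).trans hn, fun j => (hDM n j).trans hn⟩
    have hMinf : ∀ b, ∀ᶠ n in (UU : Filter ℕ), b ≤ M n := by
      intro b
      have h1 : ¬ ∀ᶠ n in (UU : Filter ℕ), M n ≤ b := fun h => hb ⟨b, h⟩
      rw [← Ultrafilter.eventually_not] at h1
      filter_upwards [h1] with n hn
      omega
    intro q0 Λ _ c hc j0 β0 hβ0
    by_contra hne
    -- representatives
    choose cr hcr using fun j β => gr_surj (c j β)
    have hrel : ∀ q, q0 ≤ q → R q → ∀ᶠ n in (UU : Filter ℕ), ∑ j, ∑ β ∈ Λ,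
        cr j β n * (((pr q : ℝ) ^ (D n j))⁻¹ * hr (aj s n β) (pr q)) = 0 := by
      intro q hq hRq
      have h1 := hc q hq hRq
      simp only [← hcr] at h1
      rw [rel_gr, ← gr_zero, gr_eq] at h1
      exact h1
    have hne' : ∀ᶠ n in (UU : Filter ℕ), cr j0 β0 n ≠ 0 := by
      rw [← hcr j0 β0] at hne
      exact gr_ne_zero.1 hne
    have hbd : ∀ i, ∃ b : ℕ, ¬ unb s i → ∀ᶠ n in (UU : Filter ℕ), s n i = b := by
      intro i
      by_cases h : unb s i
      · exact ⟨0, fun h' => absurd h h'⟩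
      · unfold unb at h
        rw [not_not] at h
        obtain ⟨b, hb⟩ := h
        exact ⟨b, fun _ => hb⟩
    choose bd hbd using hbd
    have hchoice : ∀ k : ℕ, ∃ n : ℕ, (∀ q, q0 ≤ q → q ≤ k → R q → ∑ j, ∑ β ∈ Λ,
        cr j β n * (((pr q : ℝ) ^ (D n j))⁻¹ * hr (aj s n β) (pr q)) = 0) ∧ k ≤ M n ∧
        cr j0 β0 n ≠ 0 ∧ ∀ i, ¬ unb s i → s n i = bd i := by
      intro k
      have h1 : ∀ᶠ n in (UU : Filter ℕ), ∀ q ∈ Finset.Icc q0 k, R q → ∑ j, ∑ β ∈ Λ,
          cr j β n * (((pr q : ℝ) ^ (D n j))⁻¹ * hr (aj s n β) (pr q)) = 0 := by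
        rw [Filter.eventually_all_finset]
        intro q hq
        by_cases hRq : R q
        · filter_upwards [hrel q (Finset.mem_Icc.1 hq).1 hRq] with n hn _
          exact hn
        · exact Eventually.of_forall fun n h => absurd h hRq
      have h2 : ∀ᶠ n in (UU : Filter ℕ), ∀ i, ¬ unb s i → s n i = bd i := by
        rw [Filter.eventually_all]
        intro i
        by_cases h : unb s i
        · exact Eventually.of_forall fun n h' => absurd h h'
        · filter_upwards [hbd i h] with n hn _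
          exact hn
      obtain ⟨n, h3, h4, h5, h6⟩ := (h1.and ((hMinf k).and (hne'.and h2))).exists
      exact ⟨n, fun q hq hqk hRq => h3 q (Finset.mem_Icc.2 ⟨hq, hqk⟩) hRq, h4, h5, h6⟩
    choose n hn1 hn2 hn3 hn4 using hchoice
    -- the new sequences
    set s' : ℕ → I → ℕ := fun k i => s (n k) i with hs'
    set D' : ℕ → J → ℕ := fun k j => D (n k) j with hD'
    set c' : J → List I → HR := fun j β => gr fun k => cr j β (n k) with hc'
    have hne2 : c' j0 β0 ≠ 0 := by
      rw [hc']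
      exact gr_ne_zero.2 (Eventually.of_forall fun k => hn3 k)
    have hrel' : ∀ q, q0 ≤ q → R q → ∑ j, ∑ β ∈ Λ, c' j β * rho (ug D' q j * Gj s' β (pr q)) = 0 := by
      intro q hq hRq
      rw [hc', rel_gr s' D' Λ (fun j β k => cr j β (n k)) q, ← gr_zero, gr_eq]
      filter_upwards [ev_of_atTop (eventually_ge_atTop q)] with k hk
      exact hn1 k q hq hk hRq
    have hnb : nb s' ≤ nb s := by
      unfold nb
      refine Finset.card_le_card fun i hi => ?_
      rw [Finset.mem_filter] at hi ⊢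
      refine ⟨hi.1, ?_⟩
      by_contra h
      exact hi.2 ⟨bd i, Eventually.of_forall fun k => hn4 k i h⟩
    have hs'i : ∀ k, Function.Injective (s' k) := fun k => hs (n k)
    have hD'i : ∀ k, Function.Injective (D' k) := fun k => hDi (n k)
    have hs'1 : ∀ k i, 1 ≤ s' k i := fun k i => hs1 (n k) i
    have hL0 : Tendsto (fun k => (M (n k) : ℝ)) atTop atTop :=
      tendsto_natCast_atTop_atTop.comp (tendsto_atTop_mono hn2 tendsto_id)
    obtain ⟨x0, hx0, hsl⟩ := lim_exists (M := fun k => M (n k)) hn2 (s := s')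
      (fun k i => hsM (n k) i)
    obtain ⟨d0, hd0, hDl⟩ := lim_exists (M := fun k => M (n k)) hn2 (s := D')
      (fun k j => hDM (n k) j)
    have hF : FiniteDimensional ℚ (⊥ : IntermediateField ℚ ℝ) := inferInstance
    have hJcard : 1 ≤ Fintype.card J := Fintype.card_pos
    by_cases hcl : ∃ j1, d0 j1 ≠ d0 j0
    · -- several classes
      obtain ⟨j1, hj1⟩ := hcl
      obtain ⟨c2, h1, h2, h3⟩ := to_SFR (hL := hL0) (F := ⊥) hsl hDl hrel' hβ0 hne2
      obtain ⟨q1, hq1⟩ := step_clsR hF hsl hDl h2 h3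
      have hcard : Fintype.card {j // d0 j = d0 j0} < Fintype.card J :=
        Fintype.card_subtype_lt (x := j1) hj1
      have h4 := ih I {j // d0 j = d0 j0} s' (fun k (j : {j // d0 j = d0 j0}) => D' k j.1) hs'i
        (fun k a b hab => Subtype.ext (hD'i k hab)) hs'1 (by omega) q1 Λ
        (fun _ _ _ _ => trivial) (fun j β => c2 j.1 β) (fun q hq hRq => hq1 q hq hRq (d0 j0))
        ⟨j0, rfl⟩ β0 hβ0
      exact h1 h4
    · -- one class
      push Not at hcl
      have hd00 : d0 j0 = 0 := by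
        choose jz hjz using fun k => hDz (n k)
        obtain ⟨ja, hja⟩ := ult_fin jz
        rw [← hcl ja]
        by_contra h
        refine Lim_unb hL0 hDl h ⟨0, ?_⟩
        filter_upwards [hja] with k hk
        rw [hD']
        simp only
        rw [← hk]
        exact hjz k
      have hDl0 : Lim D' (fun _ => 0) (fun k => (M (n k) : ℝ)) := by
        intro j ε hε
        have h1 := hDl j ε hε
        rwa [hcl j, hd00] at h1
      obtain ⟨i1, hi1⟩ : ∃ i, x0 i ≠ 0 := by
        by_contra hcon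
        push Not at hcon
        set ε : ℝ := 1 / (2 * ((Fintype.card I : ℝ) + Fintype.card J + 1)) with hε
        have hε0 : 0 < ε := by positivity
        have h1 : ∀ᶠ k in (UU : Filter ℕ), ∀ i, (s' k i : ℝ) ≤ ε * M (n k) := by
          rw [Filter.eventually_all]
          intro i
          filter_upwards [hsl i ε hε0] with k hk
          rw [hcon i, zero_mul, sub_zero, Nat.abs_cast] at hk
          exact hk
        have h2 : ∀ᶠ k in (UU : Filter ℕ), ∀ j, (D' k j : ℝ) ≤ ε * M (n k) := by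
          rw [Filter.eventually_all]
          intro j
          filter_upwards [hDl0 j ε hε0] with k hk
          rw [zero_mul, sub_zero, Nat.abs_cast] at hk
          exact hk
        obtain ⟨k, h3, h4, h5⟩ := (h1.and (h2.and (ev_of_atTop (eventually_ge_atTop 1)))).exists
        have h6 : (M (n k) : ℝ) = ∑ i, (s' k i : ℝ) + ∑ j, (D' k j : ℝ) := by
          rw [hM]
          push_cast
          rfl
        have h7 : ∑ i, (s' k i : ℝ) ≤ Fintype.card I * (ε * M (n k)) := by
          calc ∑ i, (s' k i : ℝ) ≤ ∑ _i : I, ε * M (n k) := Finset.sum_le_sum fun i _ => h3 i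
            _ = _ := by rw [Finset.sum_const, nsmul_eq_mul, Finset.card_univ]
        have h8 : ∑ j, (D' k j : ℝ) ≤ Fintype.card J * (ε * M (n k)) := by
          calc ∑ j, (D' k j : ℝ) ≤ ∑ _j : J, ε * M (n k) := Finset.sum_le_sum fun j _ => h4 j
            _ = _ := by rw [Finset.sum_const, nsmul_eq_mul, Finset.card_univ]
        have h9 : (1 : ℝ) ≤ M (n k) := by exact_mod_cast h5.trans (hn2 k)
        have h10 : ((Fintype.card I : ℝ) + Fintype.card J) * ε ≤ 1 / 2 := by
          rw [hε, mul_one_div, div_le_div_iff₀ (by positivity) (by norm_num)]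
          linarith only []
        have h11 : (M (n k) : ℝ) ≤ ((Fintype.card I : ℝ) + Fintype.card J) * ε * M (n k) := by
          nlinarith only [h6, h7, h8]
        nlinarith only [h9, h10, h11]
      obtain ⟨i2, hi2, hmin⟩ := Finset.exists_min_image
        (Finset.univ.filter fun i => x0 i ≠ 0) x0
        ⟨i1, Finset.mem_filter.2 ⟨Finset.mem_univ _, hi1⟩⟩
      have hi2' : 0 < x0 i2 := lt_of_le_of_ne (hx0 i2) (Ne.symm (Finset.mem_filter.1 hi2).2)
      set ε : ℝ := x0 i2 / 2 with hε
      have hε0 : 0 < ε := by positivity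
      set x : I → ℝ := fun i => x0 i / ε with hx
      have hxx : ∀ i, x i = 0 ∨ 2 ≤ x i := by
        intro i
        by_cases h : x0 i = 0
        · left
          rw [hx]
          simp only
          rw [h, zero_div]
        · right
          rw [hx]
          simp only
          rw [le_div_iff₀ hε0, hε]
          have := hmin i (Finset.mem_filter.2 ⟨Finset.mem_univ _, h⟩)
          linarith only [this]
      have hLt : Tendsto (fun k => ε * (M (n k) : ℝ)) atTop atTop :=
        hL0.const_mul_atTop hε0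
      have hsx : Lim s' x (fun k => ε * (M (n k) : ℝ)) := Lim_scale hsl hε0
      have hDx : Lim D' (fun _ => 0) (fun k => ε * (M (n k) : ℝ)) := by
        have := Lim_scale hDl0 hε0
        simpa only [zero_div] using this
      obtain ⟨c2, h1, h2, h3⟩ := to_SFR (hL := hLt) (F := ⊥) hsx hDx hrel' hβ0 hne2
      have hxu : ∀ i, x i ≠ 0 → unb s' i := fun i hi => Lim_unb hLt hsx hi
      have hxi1 : x i1 ≠ 0 := div_ne_zero hi1 hε0.ne'
      have h4 := step_oneR hF hsx hDx hxx (Lim_large hLt hsx hxx)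
        (PISR_sub (ih {i // x i = 0} J _ D' (fun k a b hab => Subtype.ext (hs'i k hab)) hD'i
          (fun k i => hs'1 k i.1) (by
            have := nb_sub_lt s' (fun i => x i = 0) (hxu i1 hxi1) hxi1
            omega)))
        (fun y _ => PIS_all hs'i (fun k a b hab => Subtype.ext (hs'i k hab)) hs'1 _) h2 h3 j0 β0 hβ0
      exact h1 h4

/-- **independence at the primes with an index in `R`**, for letters in a set -/
theorem PISR_all (hR : ∀ m, ∃ q, m ≤ q ∧ R q) {I J : Type} [Fintype I] [DecidableEq I] [Fintype J]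
    [DecidableEq J] {s : ℕ → I → ℕ} {D : ℕ → J → ℕ} (hs : ∀ n, Function.Injective (s n))
    (hD : ∀ n, Function.Injective (D n)) (hs1 : ∀ n i, 1 ≤ s n i) (A : I → Prop) :
    PISR R s D A := by
  intro q0 Λ _ c hc
  exact PI_allR hR _ I J s D hs hD hs1 le_rfl q0 Λ (fun _ _ _ _ => trivial) c hc

end Pool.Agent.H43C
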