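import Pool.Agent.H43C.Ex
import Pool.Agent.H43C.Pis

/-!
# The heads of relations between twisted multiple sums (after helper777)
-/

set_option autoImplicit false

namespace Pool.Agent.H43C

open Filter Topology Pool.Agent.TH932.Abs Pool.Agent.TH932.Germs Pool.Agent.TH932.Chi
open Pool.Agent.TH796.AL Pool.Agent.Y760.ZG Pool.Agent.Y777.AL

/-- the functions `X v` are determined by their values at the residues in `U`, which are residues
modulo `Q` of infinitely many primes -/
structure Tws {W : Type} (X : W → ℕ → ℝ) (Q : ℕ) (U : Finset ℕ) (lam : ℕ → ℕ → ℝ) (M : ℝ) :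
    Prop where
  per : ∀ v m m', m % Q = m' % Q → X v m = X v m'
  gen : ∀ v k, X v k = ∑ ρ ∈ U, lam k ρ * X v ρ
  inf : ∀ ρ ∈ U, ∀ m, ∃ q, m ≤ q ∧ pr q % Q = ρ % Q
  bd : ∀ v m, |X v m| ≤ M

variable {I : Type} [Fintype I] [DecidableEq I]

section

variable {L : ℕ → ℝ} {hL : Tendsto L atTop atTop} {F : IntermediateField ℚ ℝ}
  {s : ℕ → I → ℕ} {x : I → ℝ}

open Classical in
/-- **the heads** -/
lemma headst (hF : FiniteDimensional ℚ F) (hs : Lim s x L) (hx : ∀ i, x i = 0 ∨ 2 ≤ x i)
    (hLs : ∀ i, x i ≠ 0 → ∀ᶠ n in (UU : Filter ℕ), L n ≤ (s n i : ℝ))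
    (hsinj : ∀ n, Function.Injective (s n)) (hs1 : ∀ n i, 1 ≤ s n i) {W : Type}
    [Fintype W] (w : W → List I) (hst : ∀ v, Lj x (w v)) {X : W → ℕ → ℝ} (hXF : ∀ v m, X v m ∈ F)
    {Q : ℕ} {U : Finset ℕ} {lam : ℕ → ℕ → ℝ} {M : ℝ} (hX : Tws X Q U lam M) (c : W → HR)
    (hc : ∀ v, c v ∈ SF hL F) (hn : Nul L (∑ v, c v * Xgt s (X v) (w v))) {y : ℝ} (hy : 2 ≤ y)
    (hw : ∀ v, c v ≠ 0 → w v = [] ∨ ∃ i u, w v = i :: u ∧ y ≤ x i) {i : I} (hi : x i = y)
    (β : List I) (ρ : ℕ) :
    Nul L (∑ v ∈ Finset.univ.filter (fun v => hdj i (w v)),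
      (c v * algebraMap ℝ HR (X v ρ)) * Xbj s x (w v).tail β) := by
  set Λ : Finset (List I) := Finset.univ.biUnion fun v =>
    ((spj x (w v).tail).map Prod.fst).toFinset with hΛ
  have hΛm : ∀ v, ∀ p ∈ spj x (w v).tail, p.1 ∈ Λ := by
    intro v p hp
    rw [hΛ, Finset.mem_biUnion]
    refine ⟨v, Finset.mem_univ _, ?_⟩
    rw [List.mem_toFinset, List.mem_map]
    exact ⟨p, hp, rfl⟩
  have hΛs : ∀ β ∈ Λ, ∀ a ∈ β, x a = 0 := by
    intro β hβ a ha
    rw [hΛ, Finset.mem_biUnion] at hβ
    obtain ⟨v, _, hβ⟩ := hβ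
    rw [List.mem_toFinset, List.mem_map] at hβ
    obtain ⟨p, hp, rfl⟩ := hβ
    exact spj_mem x p hp a ha
  set Y : ℕ → I → List I → HR := fun k i β =>
    ∑ v ∈ Finset.univ.filter (fun v => hdj i (w v)),
      (c v * algebraMap ℝ HR (X v k)) * Xbj s x (w v).tail β with hY
  by_cases hβ : β ∈ Λ
  swap
  · have h1 : ∀ v, Xbj s x (w v).tail β = 0 := by
      intro v
      unfold Xbj
      refine List.sum_eq_zero fun z hz => ?_
      obtain ⟨p, hp, rfl⟩ := List.mem_map.1 hz
      rw [if_neg]
      intro h
      exact hβ (h ▸ hΛm v p hp)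
    intro t
    have h2 : ∑ v ∈ Finset.univ.filter (fun v => hdj i (w v)),
        (c v * algebraMap ℝ HR (X v ρ)) * Xbj s x (w v).tail β = 0 :=
      Finset.sum_eq_zero fun v _ => by rw [h1, mul_zero]
    rw [h2]
    exact SR_zero t
  have hlog2 : 0 < Real.log 2 := Real.log_pos (by norm_num)
  -- bounds for the coefficients
  choose c0 hc0 hc0' using fun v => SF_bdd (hc v)
  set K : ℝ := ∑ v, c0 v with hK
  have hcK : ∀ v, c v ∈ SR L (-K) := fun v =>
    SR_anti hL (neg_le_neg (Finset.single_le_sum (f := c0) (fun v _ => hc0 v)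
      (Finset.mem_univ v))) (hc0' v)
  obtain ⟨m0, hm0⟩ := SF_common hc
  have hXb : ∀ t β, Xbj s x t β ∈ SR L 0 := by
    intro t β
    unfold Xbj
    have h1 : ∀ l : List (List I × List I),
        (l.map fun p => if p.1 = β then Xgj s x p.2 else 0).sum ∈ SR L 0 := by
      intro l
      induction l with
      | nil => exact SR_zero 0
      | cons p l ih =>
        rw [List.map_cons, List.sum_cons]
        refine SR_add hL ?_ ih
        split_ifs
        · exact SR_Xgj hL hLs p.2
        · exact SR_zero 0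
    exact h1 _
  -- the leading parts
  have hmain : ∀ q, m0 ≤ q → ∑ i ∈ Finset.univ.filter (fun i => x i = y),
      rho (ug s q i / ch1 hL q (-y)) *
        ∑ m ∈ Finset.Ico 1 ((pr q) ^ (⌈y⌉₊)), rho (lj s i m) *
          ∑ β ∈ Λ, rho (Gj s β (pr q * m)) * Y (pr q * m) i β ∈ SR L (Real.log (pr q) - K) := by
    intro q hq
    have hp := pr_prime q
    have hp0 : 0 < pr q := hp.pos
    have hp2 : 2 ≤ pr q := hp.two_le
    have hpr : (0 : ℝ) < pr q := by exact_mod_cast hp0
    have hlog : 0 < Real.log (pr q) := Real.log_pos (by exact_mod_cast hp.one_lt)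
    set N : ℕ := (pr q) ^ (⌈y⌉₊) with hN
    have hy1 : 1 ≤ ⌈y⌉₊ := Nat.one_le_ceil_iff.2 (by linarith only [hy])
    have hN2 : 2 ≤ N := hp2.trans (Nat.le_self_pow (by omega) _)
    have h1 := trunc_sumt hL hLs hst hX.bd hcK hn (k := pr q * N) (Nat.mul_pos hp0 (by omega))
    have h2 := leadt_sum hF hs hx w X hXF c hm0 hcK (show 1 ≤ y by linarith only [hy]) hw hq
      (N := N) (by omega)
      (SR_anti hL (by
        have h3 : Real.log ((pr q * N : ℕ) : ℝ) = (1 + (⌈y⌉₊ : ℝ)) * Real.log (pr q) := by
          rw [hN]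
          push_cast
          rw [Real.log_mul hpr.ne' (pow_pos hpr _).ne', Real.log_pow]
          ring
        rw [h3]
        have h4 := Nat.le_ceil y
        nlinarith only [h4, hlog]) h1)
    have hu : ∀ i ∈ Finset.univ.filter (fun i => x i = y),
        rho (ug s q i / ch1 hL q (-y)) ∈ SR L 0 := by
      intro i hi
      have h3 := ug_const hL hs q i
      rw [(Finset.mem_filter.1 hi).2] at h3
      exact SR_KK hL h3
    have h4 : ∑ i ∈ Finset.univ.filter (fun i => x i = y), rho (ug s q i / ch1 hL q (-y)) *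
        ∑ v ∈ Finset.univ.filter (fun v => hdj i (w v)), c v *
          ∑ m ∈ Finset.Ico 1 N, algebraMap ℝ HR (X v (pr q * m)) *
            (rho (lj s i m) * Rgj s x (w v).tail (pr q * m)) ∈
        SR L (Real.log (pr q) - K) := by
      refine SR_sum hL _ _ fun i hi => ?_
      have h5 : ∑ v ∈ Finset.univ.filter (fun v => hdj i (w v)), c v *
          ∑ m ∈ Finset.Ico 1 N, algebraMap ℝ HR (X v (pr q * m)) *
            (rho (lj s i m) * Rgj s x (w v).tail (pr q * m)) ∈
          SR L (Real.log (pr q) - K) := by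
        refine SR_sum hL _ _ fun v _ => ?_
        have h6 : ∑ m ∈ Finset.Ico 1 N, algebraMap ℝ HR (X v (pr q * m)) *
            (rho (lj s i m) * Rgj s x (w v).tail (pr q * m)) ∈ SR L (Real.log (pr q)) := by
          refine SR_sum hL _ _ fun m hm => ?_
          rw [Finset.mem_Ico] at hm
          have h7 := SR_mul hL (SR_cst hL (X v (pr q * m))) (SR_mul hL
            (SR_lj_zero hL hs hx i hm.1)
            (SR_Rgj hL hLs (w v).tail (k := pr q * m) (Nat.mul_pos hp0 hm.1)))
          refine SR_anti hL ?_ h7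
          rw [zero_add, zero_add]
          refine Real.log_le_log hpr ?_
          exact_mod_cast Nat.le_mul_of_pos_right _ hm.1
        have h7 := SR_mul hL (hcK v) h6
        refine SR_anti hL (le_of_eq ?_) h7
        ring
      have h6 := SR_mul hL (hu i hi) h5
      rwa [zero_add] at h6
    have h5 := SR_sub hL h2 h4
    refine (congrArg (fun z => z ∈ SR L (Real.log (pr q) - K)) ?_).mp h5
    rw [← Finset.sum_sub_distrib]
    refine Finset.sum_congr rfl fun i _ => ?_
    rw [← mul_sub]
    congr 1
    rw [← Finset.sum_sub_distrib]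
    have e1 : ∀ v, c v * ∑ m ∈ Finset.Ico 1 N, algebraMap ℝ HR (X v (pr q * m)) *
          rho (lj s i m * Gj s (w v).tail (pr q * m)) -
        c v * ∑ m ∈ Finset.Ico 1 N, algebraMap ℝ HR (X v (pr q * m)) *
          (rho (lj s i m) * Rgj s x (w v).tail (pr q * m)) =
        ∑ m ∈ Finset.Ico 1 N, rho (lj s i m) *
          ∑ β ∈ Λ, rho (Gj s β (pr q * m)) *
            ((c v * algebraMap ℝ HR (X v (pr q * m))) * Xbj s x (w v).tail β) := by
      intro v
      rw [← mul_sub, ← Finset.sum_sub_distrib, Finset.mul_sum]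
      refine Finset.sum_congr rfl fun m hm => ?_
      rw [Finset.mem_Ico] at hm
      rw [map_mul, Gj_expand hL hLs (w v).tail (k := pr q * m) (Nat.mul_pos hp0 hm.1),
        Xbj_sum s x Λ (spj x (w v).tail) (hΛm v) (fun β => rho (Gj s β (pr q * m)))]
      rw [← mul_sub, mul_add (rho (lj s i m)), add_sub_cancel_right]
      have e2 : ∀ β, rho (Gj s β (pr q * m)) *
          ((c v * algebraMap ℝ HR (X v (pr q * m))) * Xbj s x (w v).tail β) =
          (c v * algebraMap ℝ HR (X v (pr q * m))) *
            (rho (Gj s β (pr q * m)) * Xbj s x (w v).tail β) := fun β => by ring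
      simp only [e2]
      rw [← Finset.mul_sum]
      unfold Xbj
      ring
    rw [Finset.sum_congr rfl fun v _ => e1 v, Finset.sum_comm]
    refine Finset.sum_congr rfl fun m _ => ?_
    rw [← Finset.mul_sum]
    congr 1
    rw [Finset.sum_comm]
    refine Finset.sum_congr rfl fun β _ => ?_
    rw [← Finset.mul_sum]
  -- periodicity
  have hYper : ∀ k k', k % Q = k' % Q → Y k = Y k' := by
    intro k k' hkk
    funext i β
    rw [hY]
    simp only
    refine Finset.sum_congr rfl fun v _ => ?_
    rw [hX.per v k k' hkk]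
  have hYgen : ∀ k i β, Y k i β = ∑ ρ ∈ U, algebraMap ℝ HR (lam k ρ) * Y ρ i β := by
    intro k i β
    rw [hY]
    simp only [Finset.mul_sum]
    rw [Finset.sum_comm]
    refine Finset.sum_congr rfl fun v _ => ?_
    rw [hX.gen v k, map_sum, Finset.mul_sum, Finset.sum_mul]
    refine Finset.sum_congr rfl fun ρ _ => ?_
    rw [map_mul]
    ring
  -- the bootstrap
  have hboot : ∀ k : ℕ, ∀ r i, x i = y → ∀ β ∈ Λ, Y r i β ∈ SR L (-K + k * Real.log 2) := by
    intro k
    induction k with
    | zero =>
      intro r i _ β _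
      rw [Nat.cast_zero, zero_mul, add_zero]
      refine SR_sum hL _ _ fun v _ => ?_
      have h1 := SR_mul hL (SR_mul hL (hcK v) (SR_cst hL (X v r))) (hXb (w v).tail β)
      rwa [add_zero, add_zero] at h1
    | succ k ih =>
      set t : ℝ := -K + k * Real.log 2 with ht
      have ht1 : -K + ((k + 1 : ℕ) : ℝ) * Real.log 2 = t + Real.log 2 := by
        rw [ht]
        push_cast
        ring
      rw [ht1]
      have hcls : ∀ ρ ∈ U, ∀ i, x i = y → ∀ β ∈ Λ, Y ρ i β ∈ SR L (t + Real.log 2) := by
        intro ρ hρ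
        obtain ⟨q0, hq0⟩ := exists_nat_ge (Real.exp (t + Real.log 2 + K))
        have hA : PISR (fun q => pr q % Q = ρ % Q) s (fun n (i : {i // x i = y}) => s n i.1)
            (fun a => x a = 0) := PISR_all (hX.inf ρ hρ) hsinj
              (fun n a b hab => Subtype.ext (hsinj n hab)) hs1 _
        set f : {i // x i = y} × List I → ℕ → GG := fun p q =>
          (ug s q p.1.1 / ch1 hL q (-y)) * Gj s p.2 (pr q) with hf
        have hG := gaussR (R := fun q => pr q % Q = ρ % Q) hL (q0 + m0) (t + Real.log 2)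
          (Finset.univ ×ˢ Λ) f (by
          rintro ⟨i, β⟩ hp q
          rw [Finset.mem_product] at hp
          have h3 := ug_const hL hs q i.1
          rw [i.2] at h3
          exact (KK L hL).mul_mem h3 (Gj_KK hs (hΛs β hp.2) _)) (by
          rintro μ hμ ⟨i, β⟩ hp
          rw [Finset.mem_product] at hp
          refine hA (q0 + m0) Λ hΛs (fun i β => μ (i, β)) (fun q hq hRq => ?_) i β hp.2
          have h1 := hμ q hq hRq
          rw [Finset.sum_product] at h1
          have hch : rho (ch1 hL q (-y)) ≠ 0 := by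
            rw [Ne, map_eq_zero]
            exact ch1_ne hL q _
          have h2 : (∑ i : {i // x i = y}, ∑ β ∈ Λ, μ (i, β) * rho (f (i, β) q)) *
              rho (ch1 hL q (-y)) = 0 := by
            rw [h1, zero_mul]
          rw [← h2, Finset.sum_mul]
          refine Finset.sum_congr rfl fun i _ => ?_
          rw [Finset.sum_mul]
          refine Finset.sum_congr rfl fun β _ => ?_
          rw [hf]
          simp only [map_mul, map_div₀]
          have e2 : ug (fun n (i : {i // x i = y}) => s n i.1) q i = ug s q i.1 := rfl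
          rw [e2]
          field_simp)
          (fun p => Y ρ p.1.1 p.2) (fun q hq hRq => by
          have h1 := hmain q (by omega)
          have hp := pr_prime q
          have hp0 : 0 < pr q := hp.pos
          have hpr : (0 : ℝ) < pr q := by exact_mod_cast hp0
          have hlogp : t + Real.log 2 + K ≤ Real.log (pr q) := by
            rw [Real.le_log_iff_exp_le hpr]
            refine hq0.trans ?_
            have := pr_ge q
            exact_mod_cast (by omega : q0 ≤ pr q)
          set N : ℕ := (pr q) ^ (⌈y⌉₊) with hN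
          have hy1 : 1 ≤ ⌈y⌉₊ := Nat.one_le_ceil_iff.2 (by linarith only [hy])
          have hN2 : 2 ≤ N := hp.two_le.trans (Nat.le_self_pow (by omega) _)
          have h6 : ∑ i ∈ Finset.univ.filter (fun i => x i = y),
              rho (ug s q i / ch1 hL q (-y)) *
              ∑ m ∈ Finset.Ico 2 N, rho (lj s i m) *
                ∑ β ∈ Λ, rho (Gj s β (pr q * m)) * Y (pr q * m) i β ∈
              SR L (t + Real.log 2) := by
            refine SR_sum hL _ _ fun i hi => ?_
            rw [Finset.mem_filter] at hi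
            have h7 : ∑ m ∈ Finset.Ico 2 N, rho (lj s i m) *
                ∑ β ∈ Λ, rho (Gj s β (pr q * m)) * Y (pr q * m) i β ∈
                SR L (t + Real.log 2) := by
              refine SR_sum hL _ _ fun m hm => ?_
              rw [Finset.mem_Ico] at hm
              have h8 : ∑ β ∈ Λ, rho (Gj s β (pr q * m)) * Y (pr q * m) i β ∈ SR L t := by
                refine SR_sum hL _ _ fun β hβ => ?_
                have h9 := SR_mul hL (SR_Gj hL hs hx β (pr q * m)) (ih (pr q * m) i hi.2 β hβ)
                rwa [zero_add] at h9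
              have h9 := SR_mul hL (SR_lj hL hs i (m := m) (by omega)) h8
              refine SR_anti hL ?_ h9
              have h10 : Real.log 2 ≤ Real.log m :=
                Real.log_le_log (by norm_num) (by exact_mod_cast hm.1)
              rw [hi.2]
              nlinarith only [h10, hy, hlog2]
            have h3 := ug_const hL hs q i
            rw [hi.2] at h3
            have h8 := SR_mul hL (SR_KK hL h3) h7
            rwa [zero_add] at h8
          have h7 := SR_sub hL (SR_anti hL (show t + Real.log 2 ≤ Real.log (pr q) - K by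
            linarith only [hlogp]) h1) h6
          refine (congrArg (fun z => z ∈ SR L (t + Real.log 2)) ?_).mp h7
          rw [← Finset.sum_sub_distrib, Finset.sum_product]
          rw [Finset.sum_subtype (Finset.univ.filter (fun i => x i = y)) (p := fun i => x i = y)
            (fun i => by
              rw [Finset.mem_filter]
              exact ⟨fun h => h.2, fun h => ⟨Finset.mem_univ _, h⟩⟩)]
          refine Finset.sum_congr rfl fun i _ => ?_
          rw [← mul_sub, Finset.sum_eq_sum_Ico_succ_bot (by omega : 1 < N),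
            add_sub_cancel_right, lj_one, map_one, one_mul, mul_one, Finset.mul_sum]
          refine Finset.sum_congr rfl fun β _ => ?_
          rw [hYper (pr q) ρ hRq, hf]
          simp only [map_mul]
          ring)
        intro i hi β hβ
        exact hG (⟨i, hi⟩, β) (Finset.mem_product.2 ⟨Finset.mem_univ _, hβ⟩)
      intro r i hi β hβ
      rw [hYgen]
      refine SR_sum hL _ _ fun ρ hρ => ?_
      have h1 := SR_mul hL (SR_cst hL (lam r ρ)) (hcls ρ hρ i hi β hβ)
      rwa [zero_add] at h1
  intro t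
  obtain ⟨k, hk⟩ := exists_nat_ge ((t + K) / Real.log 2)
  refine SR_anti hL ?_ (hboot k ρ i hi β hβ)
  rw [div_le_iff₀ hlog2] at hk
  linarith only [hk]

end

end Pool.Agent.H43C
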