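import Pool.Agent.H43C.Hd

/-!
# Twisted multiple sums with a large first argument are linearly independent (after helper777)
-/

set_option autoImplicit false

namespace Pool.Agent.H43C

open Filter Topology Pool.Agent.TH932.Abs Pool.Agent.TH932.Germs Pool.Agent.TH932.Chi
open Pool.Agent.TH796.AL Pool.Agent.Y760.ZG Pool.Agent.Y777.AL

variable {I : Type} [Fintype I] [DecidableEq I]

section

variable {L : ℕ → ℝ} {hL : Tendsto L atTop atTop} {F : IntermediateField ℚ ℝ}
  {s : ℕ → I → ℕ} {x : I → ℝ}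

lemma cst_SF (c : F) : algebraMap ℝ HR (c : ℝ) ∈ SF hL F :=
  SF_of_NQ (q := 0) (m := 0) (NQ.coe ⟨_, cst_mem_KA hL F c⟩)

/-- **twisted multiple sums with a large first argument are linearly independent** -/
theorem indT (hF : FiniteDimensional ℚ F) (hs : Lim s x L) (hx : ∀ i, x i = 0 ∨ 2 ≤ x i)
    (hLs : ∀ i, x i ≠ 0 → ∀ᶠ n in (UU : Filter ℕ), L n ≤ (s n i : ℝ))
    (hsinj : ∀ n, Function.Injective (s n)) (hs1 : ∀ n i, 1 ≤ s n i)
    {T : Type} [Fintype T] [DecidableEq T] {χ : T → ℕ → ℝ} (hχF : ∀ t m, χ t m ∈ F) {Q : ℕ}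
    {U : Finset ℕ} {lam : ℕ → ℕ → ℝ} {M : ℝ} (hχ : Tws χ Q U lam M) (μ : T → ℕ → ℝ)
    (hμ : ∀ t t', ∑ ρ ∈ U, μ t ρ * χ t' ρ = if t = t' then 1 else 0)
    {W : Type} [Fintype W] (w : W → List I) (hwinj : Function.Injective w)
    (hw0 : ∀ v, w v ≠ []) (hst : ∀ v, Lj x (w v)) (c : W → T → HR) (c0 : HR)
    (hc : ∀ v t, c v t ∈ SF hL F) (hc0 : c0 ∈ SF hL F)
    (hn : Nul L (c0 + ∑ v, ∑ t, c v t * Xgt s (χ t) (w v))) :
    (∀ v t, c v t = 0) ∧ c0 = 0 := by
  classical
  by_cases hall : ∀ v t, c v t = 0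
  · refine ⟨hall, ?_⟩
    have h1 : c0 + ∑ v, ∑ t, c v t * Xgt s (χ t) (w v) = c0 := by
      rw [Finset.sum_eq_zero fun v _ => Finset.sum_eq_zero fun t _ => by rw [hall, zero_mul],
        add_zero]
    rw [h1] at hn
    exact SF_nul hF hc0 hn
  exfalso
  -- all words
  set w' : Option (W × T) → List I := fun o => o.elim [] fun p => w p.1 with hw'
  set X' : Option (W × T) → ℕ → ℝ := fun o => o.elim (fun _ => 0) fun p => χ p.2 with hX'
  set c' : Option (W × T) → HR := fun o => o.elim c0 fun p => c p.1 p.2 with hc'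
  have hst' : ∀ v, Lj x (w' v) := by
    intro v
    cases v with
    | none => exact Or.inl rfl
    | some p => exact hst p.1
  have hT : Tws X' Q U lam (max M 0) := by
    refine ⟨fun v m m' h => ?_, fun v k => ?_, hχ.inf, fun v m => ?_⟩
    · cases v with
      | none => rfl
      | some p => exact hχ.per p.2 m m' h
    · cases v with
      | none => simp [hX']
      | some p => exact hχ.gen p.2 k
    · cases v with
      | none => simp [hX']
      | some p => exact (hχ.bd p.2 m).trans (le_max_left _ _)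
  have hXF : ∀ v m, X' v m ∈ F := by
    intro v m
    cases v with
    | none => exact F.zero_mem
    | some p => exact hχF p.2 m
  have hcS : ∀ v, c' v ∈ SF hL F := by
    intro v
    cases v with
    | none => exact hc0
    | some p => exact hc p.1 p.2
  have hnil : Xgt s (fun _ => 0) ([] : List I) = 1 := by
    unfold Xgt
    rw [← gr_one]
    rfl
  have hn' : Nul L (∑ v, c' v * Xgt s (X' v) (w' v)) := by
    refine (congrArg (Nul L) ?_).mp hn
    rw [Fintype.sum_option, Fintype.sum_prod_type]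
    show _ = c0 * Xgt s (fun _ => 0) ([] : List I) + _
    rw [hnil, mul_one]
    rfl
  -- the smallest head
  have hne : ∃ v, c' v ≠ 0 ∧ w' v ≠ [] := by
    push Not at hall
    obtain ⟨v, t, h⟩ := hall
    exact ⟨some (v, t), h, hw0 v⟩
  obtain ⟨v2, hv2, hv2'⟩ := hne
  set φ : Option (W × T) → ℝ := fun v => match w' v with
    | i :: _ => x i
    | _ => 0 with hφ
  obtain ⟨v3, hv3, hmin⟩ := Finset.exists_min_image
    (Finset.univ.filter fun v => c' v ≠ 0 ∧ w' v ≠ []) φ
    ⟨v2, Finset.mem_filter.2 ⟨Finset.mem_univ _, hv2, hv2'⟩⟩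
  rw [Finset.mem_filter] at hv3
  obtain ⟨i3, u3, h3, hi3⟩ := (hst' v3).resolve_left hv3.2.2
  have hφ3 : φ v3 = x i3 := by
    rw [hφ]
    simp only [h3]
  have hwy : ∀ v, c' v ≠ 0 → w' v = [] ∨ ∃ i u, w' v = i :: u ∧ x i3 ≤ x i := by
    intro v hv
    rcases hst' v with h | ⟨i, u, h, _⟩
    · exact Or.inl h
    · right
      refine ⟨i, u, h, ?_⟩
      have h4 := hmin v (Finset.mem_filter.2 ⟨Finset.mem_univ _, hv, by rw [h]; simp⟩)
      rw [hφ3] at h4
      have h5 : φ v = x i := by
        rw [hφ]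
        simp only [h]
      rwa [h5] at h4
  have hy2 : 2 ≤ x i3 := (hx i3).resolve_left hi3
  obtain ⟨p3, hp3⟩ : ∃ p, v3 = some p := by
    cases v3 with
    | none => exact absurd rfl hv3.2.2
    | some p => exact ⟨p, rfl⟩
  subst hp3
  -- the class
  obtain ⟨ρ, hρ, hρ3⟩ : ∃ ρ ∈ U, ∑ t, c p3.1 t * algebraMap ℝ HR (χ t ρ) ≠ 0 := by
    by_contra hcon
    push Not at hcon
    apply hv3.2.1
    show c p3.1 p3.2 = 0
    have h1 : ∑ ρ ∈ U, algebraMap ℝ HR (μ p3.2 ρ) *
        ∑ t, c p3.1 t * algebraMap ℝ HR (χ t ρ) = 0 :=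
      Finset.sum_eq_zero fun ρ hρ => by rw [hcon ρ hρ, mul_zero]
    have h2 : ∑ ρ ∈ U, algebraMap ℝ HR (μ p3.2 ρ) *
        ∑ t, c p3.1 t * algebraMap ℝ HR (χ t ρ) =
        ∑ t, c p3.1 t * algebraMap ℝ HR (∑ ρ ∈ U, μ p3.2 ρ * χ t ρ) := by
      simp only [Finset.mul_sum, map_sum, map_mul]
      rw [Finset.sum_comm]
      refine Finset.sum_congr rfl fun t _ => Finset.sum_congr rfl fun ρ _ => ?_
      ring
    rw [h2] at h1
    simp only [hμ] at h1
    rw [Finset.sum_eq_single p3.2] at h1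
    · rwa [if_pos rfl, map_one, mul_one] at h1
    · intro t _ ht
      rw [if_neg (Ne.symm ht), map_zero, mul_zero]
    · intro h
      exact absurd (Finset.mem_univ _) h
  set d : W → HR := fun v => ∑ t, c v t * algebraMap ℝ HR (χ t ρ) with hd
  have hdS : ∀ v, d v ∈ SF hL F := fun v => (SF hL F).sum_mem fun t _ =>
    (SF hL F).mul_mem (hc v t) (cst_SF ⟨χ t ρ, hχF t ρ⟩)
  have hheads : ∀ β, Nul L (∑ v ∈ Finset.univ.filter (fun v => hdj i3 (w v)),
      d v * Xbj s x (w v).tail β) := by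
    intro β
    have h1 := headst hF hs hx hLs hsinj hs1 w' hst' hXF hT c' hcS hn' hy2 hwy rfl β ρ
    refine (congrArg (Nul L) ?_).mp h1
    rw [Finset.sum_filter, Fintype.sum_option, Fintype.sum_prod_type]
    have h2 : ¬ hdj i3 (w' none) := by
      unfold hdj
      simp [hw']
    rw [if_neg h2, zero_add, Finset.sum_filter]
    refine Finset.sum_congr rfl fun v _ => ?_
    by_cases hv : hdj i3 (w v)
    · rw [if_pos hv, hd]
      simp only
      rw [Finset.sum_mul]
      refine Finset.sum_congr rfl fun t _ => ?_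
      exact if_pos hv
    · rw [if_neg hv]
      exact Finset.sum_eq_zero fun t _ => if_neg hv
  obtain ⟨v4, hv4, hmax⟩ := Finset.exists_max_image
    (Finset.univ.filter fun v => d v ≠ 0 ∧ hdj i3 (w v)) (fun v => (prej x (w v).tail).length)
    ⟨p3.1, Finset.mem_filter.2 ⟨Finset.mem_univ _, hρ3, by
      have h4 : w p3.1 = i3 :: u3 := h3
      rw [h4, hdj_cons]⟩⟩
  rw [Finset.mem_filter] at hv4
  set β : List I := prej x (w v4).tail with hβ
  have h5 := indWj (hL := hL) hF hs hx hLs
    (fun y _ => PIS_all hsinj (fun t a b hab => Subtype.ext (hsinj t hab)) hs1 _)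
    (∑ v, (w v).length) {v // d v ≠ 0 ∧ hdj i3 (w v) ∧ prej x (w v).tail = β}
    (fun v => rstj x (w v.1).tail) (fun v v' hvv => by
      apply Subtype.ext
      apply hwinj
      have h6 : rstj x (w v.1).tail = rstj x (w v'.1).tail := hvv
      rw [hdj_eq v.2.2.1, hdj_eq v'.2.2.1, pre_rstj x (w v.1).tail, pre_rstj x (w v'.1).tail,
        v.2.2.2, v'.2.2.2, h6]) (fun v => Lj_rstj x _) (fun v => by
      have h6 := rstj_length x (w v.1).tail
      have h7 : (w v.1).length ≤ ∑ v, (w v).length :=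
        Finset.single_le_sum (f := fun v => (w v).length) (fun _ _ => Nat.zero_le _)
          (Finset.mem_univ _)
      have h8 := congrArg List.length (hdj_eq v.2.2.1)
      rw [List.length_cons] at h8
      omega) (fun v => d v.1) (fun v => hdS v.1) (by
      refine (congrArg (Nul L) ?_).mp (hheads β)
      have e1 : ∀ v ∈ Finset.univ.filter (fun v => hdj i3 (w v)),
          d v * Xbj s x (w v).tail β = if d v ≠ 0 ∧ hdj i3 (w v) ∧ prej x (w v).tail = β then
            d v * Xgj s x (rstj x (w v).tail) else 0 := by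
        intro v hv
        rw [Finset.mem_filter] at hv
        by_cases hcv : d v = 0
        · rw [hcv, zero_mul, if_neg]
          intro h
          exact h.1 rfl
        · have h9 := hmax v (Finset.mem_filter.2 ⟨Finset.mem_univ _, hcv, hv.2⟩)
          rw [Xbj_pre x s (w v).tail β h9]
          by_cases h10 : prej x (w v).tail = β
          · rw [if_pos h10, if_pos ⟨hcv, hv.2, h10⟩]
          · rw [if_neg h10, if_neg (fun h => h10 h.2.2), mul_zero]
      rw [Finset.sum_congr rfl e1, ← Finset.sum_filter, Finset.filter_filter]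
      refine Finset.sum_subtype _ (fun v => ?_) (fun v => d v * Xgj s x (rstj x (w v).tail))
      rw [Finset.mem_filter]
      constructor
      · intro h
        exact h.2.2
      · intro h
        exact ⟨Finset.mem_univ _, h.2.1, h⟩) ⟨v4, hv4.2.1, hv4.2.2, rfl⟩
  exact hv4.2.1 h5

end

end Pool.Agent.H43C
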