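import Pool.Agent.H43C.Ind
import Pool.Agent.Y777.AL.L

/-!
# Bounded numbers of multiple sums with a twist of the largest variable: relations of all
exponential heights (after helper777)
-/

set_option autoImplicit false

namespace Pool.Agent.H43C

open Filter Topology Pool.Agent.TH932.Abs Pool.Agent.TH932.Germs Pool.Agent.TH932.Chi
open Pool.Agent.TH796.AL Pool.Agent.Y760.ZG Pool.Agent.TH883.Zg Pool.Agent.Y777.AL

/-- **patterns** -/
theorem mainPt {l g : ℕ} (β : Fin l → ℝ) (hβ : ∀ j, IsAlgebraic ℚ (β j))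
    (hli : LinearIndependent ℚ β) {T : Type} [Fintype T] [DecidableEq T] (χ : T → ℕ → ℝ)
    (hχa : ∀ t m, IsAlgebraic ℚ (χ t m)) {Q : ℕ} (hQ : 1 ≤ Q) {U : Finset ℕ} {lam : ℕ → ℕ → ℝ}
    {M : ℝ} (hχ : Tws χ Q U lam M) (μ : T → ℕ → ℝ)
    (hμ : ∀ t t', ∑ ρ ∈ U, μ t ρ * χ t' ρ = if t = t' then 1 else 0)
    (Λ : Finset (List (Fin g))) (hΛ : ∀ w ∈ Λ, w ≠ []) (κ C : ℝ) :
    ∃ B : ℝ, 1 < B ∧ ∃ n0 : ℕ, ∀ n : ℕ, n0 ≤ n → ∀ s : Fin g → ℕ, Function.Injective s →
      (∀ i, 1 ≤ s i ∧ (s i : ℝ) ≤ κ * n) → (∀ w ∈ Λ, ∀ i ∈ w.head?, n ≤ s i) →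
      ∀ a : Option (Λ × T) → Fin l → ℤ, a ≠ 0 → (∀ p j, |(a p j : ℝ)| ≤ C ^ n) →
      (B ^ n)⁻¹ < |∑ j, β j * a none j + ∑ w : Λ, ∑ t, ∑ j, (β j * a (some (w, t)) j) *
        mzt (χ t) (w.1.map s)| := by
  classical
  by_contra hcon
  push Not at hcon
  have h1 : ∀ t : ℕ, ∃ n : ℕ, t ≤ n ∧ ∃ s : Fin g → ℕ, Function.Injective s ∧
      (∀ i, 1 ≤ s i ∧ (s i : ℝ) ≤ κ * n) ∧ (∀ w ∈ Λ, ∀ i ∈ w.head?, n ≤ s i) ∧
      ∃ a : Option (Λ × T) → Fin l → ℤ, a ≠ 0 ∧ (∀ p j, |(a p j : ℝ)| ≤ C ^ n) ∧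
      |∑ j, β j * a none j + ∑ w : Λ, ∑ t, ∑ j, (β j * a (some (w, t)) j) *
        mzt (χ t) (w.1.map s)| ≤ (((t : ℝ) + 2) ^ n)⁻¹ :=
    fun t => hcon ((t : ℝ) + 2) (by
      have : (0 : ℝ) ≤ t := Nat.cast_nonneg t
      linarith only [this]) t
  choose n hn s hinj hs hhead a0 ha0 hC hsmall using h1
  -- the scale
  set P : ℕ := ⌈κ⌉₊ + 1 with hP
  set N : ℕ → ℕ := fun t => P * n t with hN
  have hMn : ∀ t, t ≤ N t := fun t => (hn t).trans (Nat.le_mul_of_pos_left _ (by omega))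
  have hsM : ∀ t i, s t i ≤ N t := by
    intro t i
    have h2 : (s t i : ℝ) ≤ ((P * n t : ℕ) : ℝ) := by
      refine (hs t i).2.trans ?_
      push_cast
      refine mul_le_mul_of_nonneg_right ?_ (Nat.cast_nonneg _)
      have h3 := Nat.le_ceil κ
      rw [hP]
      push_cast
      linarith only [h3]
    exact_mod_cast h2
  obtain ⟨x0, hx0, hlim0⟩ := lim_exists hMn hsM
  obtain ⟨ε, hε, hxx⟩ := scale_exists hx0
  set x : Fin g → ℝ := fun i => x0 i / ε with hx
  have hL0 : Tendsto (fun t => (N t : ℝ)) atTop atTop :=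
    tendsto_natCast_atTop_atTop.comp (tendsto_atTop_mono hMn tendsto_id)
  set L : ℕ → ℝ := fun t => ε * (N t : ℝ) with hLdef
  have hL : Tendsto L atTop atTop := hL0.const_mul_atTop hε
  have hlim : Lim s x L := Lim_scale hlim0 hε
  have hLs := Lim_large hL hlim hxx
  have hP0 : (0 : ℝ) < P := by
    rw [hP]
    positivity
  -- the heads are large
  have hLj : ∀ w ∈ Λ, Lj x w := by
    intro w hw
    cases w with
    | nil => exact Or.inl rfl
    | cons i u =>
      right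
      refine ⟨i, u, rfl, ?_⟩
      intro hxi
      have h2 := hlim i (1 / (2 * ε * P)) (by positivity)
      have h3 : ∀ᶠ t : ℕ in (UU : Filter ℕ), 1 ≤ n t :=
        ev_of_atTop (by
          filter_upwards [eventually_ge_atTop 1] with t ht
          exact ht.trans (hn t))
      obtain ⟨t, h4, h5⟩ := (h2.and h3).exists
      rw [hxi, zero_mul, sub_zero, Nat.abs_cast] at h4
      have h6 : (n t : ℝ) ≤ s t i := by exact_mod_cast hhead t _ hw i (by simp)
      have h7 : 1 / (2 * ε * P) * L t = (n t : ℝ) / 2 := by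
        rw [hLdef, hN]
        push_cast
        field_simp
      rw [h7] at h4
      have h8 : (1 : ℝ) ≤ n t := by exact_mod_cast h5
      linarith only [h4, h6, h8]
  -- the number field
  set F : IntermediateField ℚ ℝ := IntermediateField.adjoin ℚ (Set.range β ∪
    Set.range fun p : T × Fin Q => χ p.1 p.2) with hFdef
  have hF : FiniteDimensional ℚ F := by
    haveI : Finite (Set.range β ∪ Set.range fun p : T × Fin Q => χ p.1 p.2 : Set ℝ) :=
      ((Set.finite_range _).union (Set.finite_range _)).to_subtype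
    exact IntermediateField.finiteDimensional_adjoin fun x hx => by
      rcases hx with ⟨j, rfl⟩ | ⟨p, rfl⟩
      · exact (hβ j).isIntegral
      · exact (hχa p.1 p.2).isIntegral
  have hβF : ∀ j, β j ∈ F := fun j =>
    IntermediateField.subset_adjoin ℚ _ (Set.mem_union_left _ ⟨j, rfl⟩)
  have hχF : ∀ t m, χ t m ∈ F := by
    intro t m
    have h2 : m % Q < Q := Nat.mod_lt _ hQ
    rw [hχ.per t m (m % Q) (Nat.mod_mod m Q).symm]
    exact IntermediateField.subset_adjoin ℚ _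
      (Set.mem_union_right _ ⟨(t, ⟨m % Q, h2⟩), rfl⟩)
  have hβS : ∀ j, algebraMap ℝ HR (β j) ∈ SF hL F := fun j => cst_SF ⟨β j, hβF j⟩
  set V : Option (Λ × T) → HR := fun p => p.elim 1 fun p => Xgt s (χ p.2) p.1.1 with hV
  have hVD : ∀ p, DD hL F (V p) := by
    intro p
    cases p with
    | none => exact DD.of_SF (SF hL F).one_mem
    | some p => exact DD_Xgt hL hLs (hχ.bd p.2) (hχF p.2) hlim (hLj p.1.1 p.1.2)
  have hVg : ∀ p, V p = gr fun t => p.elim 1 fun p => mzt (χ p.2) (p.1.1.map (s t)) := by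
    intro p
    cases p with
    | none => exact gr_one.symm
    | some p => rfl
  set y : Option (Λ × T) × Fin l → HR := fun p => algebraMap ℝ HR (β p.2) * V p.1 with hy
  set a : Option (Λ × T) × Fin l → GG := fun p => gm fun t => (a0 t p.1 p.2 : ℚ) with ha
  have hIG : ∀ p, IG L (Real.log (|C| + 1) / (ε * P)) (a p) := by
    intro p
    refine ⟨fun t => a0 t p.1 p.2, rfl, Eventually.of_forall fun t => ?_⟩
    refine (hC t p.1 p.2).trans ?_
    have h2 : 0 ≤ |C| := abs_nonneg C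
    have h3 : Real.log (|C| + 1) / (ε * P) * L t = n t * Real.log (|C| + 1) := by
      rw [hLdef, hN]
      push_cast
      field_simp
    rw [h3, Real.exp_nat_mul, Real.exp_log (by linarith only [h2])]
    refine (le_abs_self _).trans ?_
    rw [abs_pow]
    exact pow_le_pow_left₀ h2 (by linarith only []) _
  have hnul : Nul L (∑ p, rho (a p) * y p) := by
    have e1 : ∑ p, rho (a p) * y p = gr fun t =>
        ∑ j, β j * a0 t none j + ∑ w : Λ, ∑ τ, ∑ j, (β j * a0 t (some (w, τ)) j) *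
          mzt (χ τ) (w.1.map (s t)) := by
      have e2 : ∀ p, rho (a p) * y p = gr fun t =>
          (β p.2 * a0 t p.1 p.2) * p.1.elim 1 fun p => mzt (χ p.2) (p.1.1.map (s t)) := by
        intro p
        rw [ha, hy]
        simp only
        rw [hVg, rho_gm, cst_eq, gr_mul, gr_mul]
        congr 1
        funext t
        push_cast
        ring
      rw [Finset.sum_congr rfl fun p _ => e2 p, gr_sum]
      congr 1
      funext t
      rw [Fintype.sum_prod_type, Fintype.sum_option, Fintype.sum_prod_type]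
      simp only [Option.elim, mul_one]
    rw [e1]
    intro E
    rw [mem_SR]
    intro δ hδ
    have h2 : ∀ᶠ t : ℕ in (UU : Filter ℕ), Real.exp (ε * P * E) ≤ (t : ℝ) :=
      ev_of_atTop (tendsto_natCast_atTop_atTop.eventually_ge_atTop _)
    filter_upwards [h2, L_nonneg hL] with t h3 h0
    refine (hsmall t).trans ?_
    have h6 : Real.exp (E * L t) ≤ ((t : ℝ) + 2) ^ (n t) := by
      have h7 : E * L t = n t * (ε * P * E) := by
        rw [hLdef, hN]
        push_cast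
        ring
      rw [h7, Real.exp_nat_mul]
      exact pow_le_pow_left₀ (Real.exp_pos _).le (by linarith only [h3]) _
    calc (((t : ℝ) + 2) ^ (n t))⁻¹ ≤ (Real.exp (E * L t))⁻¹ :=
          inv_anti₀ (Real.exp_pos _) h6
      _ = Real.exp (-(E * L t)) := (Real.exp_neg _).symm
      _ ≤ Real.exp (-(E - δ) * L t) := by
          apply Real.exp_le_exp.2
          nlinarith only [h0, hδ]
  have hmain := gen hF (Fintype.card (Option (Λ × T) × Fin l)) (Option (Λ × T) × Fin l) rfl y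
    (fun p => (DD.of_SF (hβS p.2)).mul (hVD p.1)) ?_ _ a hIG hnul
  · have h2 : ∀ᶠ t in (UU : Filter ℕ), ∀ p : Option (Λ × T) × Fin l,
        (a0 t p.1 p.2 : ℚ) = 0 := by
      rw [Filter.eventually_all]
      intro p
      have h3 := hmain p
      simp only [ha] at h3
      rw [← gm_zero, gm_eq] at h3
      exact h3
    obtain ⟨t, ht⟩ := h2.exists
    apply ha0 t
    funext w j
    exact_mod_cast ht (w, j)
  · intro p hp hpn
    have h2 : Nul L ((∑ j, algebraMap ℝ HR (β j) * rho (p (none, j))) +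
        ∑ w : Λ, ∑ τ, (∑ j, algebraMap ℝ HR (β j) * rho (p (some (w, τ), j))) *
          Xgt s (χ τ) w.1) := by
      have e1 : ∑ q, rho (p q) * y q =
          (∑ j, algebraMap ℝ HR (β j) * rho (p (none, j))) +
          ∑ w : Λ, ∑ τ, (∑ j, algebraMap ℝ HR (β j) * rho (p (some (w, τ), j))) *
            Xgt s (χ τ) w.1 := by
        rw [Fintype.sum_prod_type, Fintype.sum_option, Fintype.sum_prod_type]
        congr 1
        · refine Finset.sum_congr rfl fun j _ => ?_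
          simp only [hy, hV, Option.elim, mul_one]
          ring
        · refine Finset.sum_congr rfl fun e _ => Finset.sum_congr rfl fun τ _ => ?_
          rw [Finset.sum_mul]
          refine Finset.sum_congr rfl fun j _ => ?_
          simp only [hy, hV, Option.elim]
          ring
      rw [← e1]
      exact hpn
    have h3 := indT (hL := hL) hF hlim hxx hLs hinj (fun t i => (hs t i).1) hχF hχ μ hμ
      (fun w : Λ => w.1) Subtype.val_injective (fun w => hΛ w.1 w.2) (fun w => hLj w.1 w.2)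
      (fun w τ => ∑ j, algebraMap ℝ HR (β j) * rho (p (some (w, τ), j)))
      (∑ j, algebraMap ℝ HR (β j) * rho (p (none, j))) (fun w τ =>
        (SF hL F).sum_mem fun j _ => (SF hL F).mul_mem (hβS j) (hp _))
      ((SF hL F).sum_mem fun j _ => (SF hL F).mul_mem (hβS j) (hp _)) h2
    rintro ⟨o, j⟩
    cases o with
    | none => exact disj_thm (Fin l) inferInstance β hli (fun j => p (none, j)) h3.2 j
    | some o =>
      exact disj_thm (Fin l) inferInstance β hli (fun j => p (some o, j)) (h3.1 o.1 o.2) j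

/-- **bounded numbers of twisted multiple sums** -/
theorem mainWt {l : ℕ} (β : Fin l → ℝ) (hβ : ∀ j, IsAlgebraic ℚ (β j))
    (hli : LinearIndependent ℚ β) {T : Type} [Fintype T] [DecidableEq T] (χ : T → ℕ → ℝ)
    (hχa : ∀ t m, IsAlgebraic ℚ (χ t m)) {Q : ℕ} (hQ : 1 ≤ Q) {U : Finset ℕ} {lam : ℕ → ℕ → ℝ}
    {M : ℝ} (hχ : Tws χ Q U lam M) (μ : T → ℕ → ℝ)
    (hμ : ∀ t t', ∑ ρ ∈ U, μ t ρ * χ t' ρ = if t = t' then 1 else 0) (N r : ℕ) (κ C : ℝ) :
    ∃ B : ℝ, 1 < B ∧ ∃ n0 : ℕ, ∀ n : ℕ, n0 ≤ n → ∀ W : Finset (List ℕ), W.card ≤ N →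
      (∀ w ∈ W, w ≠ [] ∧ w.length ≤ r ∧ Adj n κ w) → ∀ (b : Fin l → ℤ)
      (a : List ℕ → T → Fin l → ℤ), ((∃ j, b j ≠ 0) ∨ ∃ w ∈ W, ∃ t j, a w t j ≠ 0) →
      (∀ j, |(b j : ℝ)| ≤ C ^ n) → (∀ w ∈ W, ∀ t j, |(a w t j : ℝ)| ≤ C ^ n) →
      (B ^ n)⁻¹ < |∑ j, β j * b j + ∑ w ∈ W, ∑ t, ∑ j, (β j * a w t j) * mzt (χ t) w| := by
  classical
  choose Ω hΩ using fun g => words_exist r g
  have hmain0 : ∀ (g : ℕ) (Λ : Finset (List (Fin g))), ∃ B : ℝ, 1 < B ∧ ∃ n0 : ℕ,
      (∀ w ∈ Λ, w ≠ []) → ∀ n : ℕ, n0 ≤ n → ∀ s : Fin g → ℕ, Function.Injective s →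
      (∀ i, 1 ≤ s i ∧ (s i : ℝ) ≤ κ * n) → (∀ w ∈ Λ, ∀ i ∈ w.head?, n ≤ s i) →
      ∀ a : Option (Λ × T) → Fin l → ℤ, a ≠ 0 → (∀ p j, |(a p j : ℝ)| ≤ C ^ n) →
      (B ^ n)⁻¹ < |∑ j, β j * a none j + ∑ w : Λ, ∑ t, ∑ j, (β j * a (some (w, t)) j) *
        mzt (χ t) (w.1.map s)| := by
    intro g Λ
    by_cases h : ∀ w ∈ Λ, w ≠ []
    · obtain ⟨B, hB, n0, h1⟩ := mainPt (g := g) β hβ hli χ hχa hQ hχ μ hμ Λ h κ C
      exact ⟨B, hB, n0, fun _ => h1⟩
    · exact ⟨2, by norm_num, 0, fun h' => absurd h' h⟩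
  choose B hB n0 hmain using hmain0
  refine ⟨∑ g ∈ Finset.range (N * r + 1), ∑ Λ ∈ (Ω g).powerset, B g Λ, ?_,
    ∑ g ∈ Finset.range (N * r + 1), ∑ Λ ∈ (Ω g).powerset, n0 g Λ, ?_⟩
  · refine (hB 0 ∅).trans_le ?_
    refine (Finset.single_le_sum (s := (Ω 0).powerset) (f := fun Λ => B 0 Λ)
      (fun Λ _ => by linarith only [hB 0 Λ]) (Finset.empty_mem_powerset _)).trans ?_
    exact Finset.single_le_sum (f := fun g => ∑ Λ ∈ (Ω g).powerset, B g Λ)
      (fun g _ => Finset.sum_nonneg fun Λ _ => by linarith only [hB g Λ])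
      (Finset.mem_range.2 (by omega))
  intro n hn W hWN hW b a ha hbC hC
  set LL : Finset ℕ := W.biUnion fun w => w.toFinset with hLL
  have hcard : LL.card ≤ N * r := by
    calc LL.card ≤ ∑ w ∈ W, w.toFinset.card := Finset.card_biUnion_le
      _ ≤ ∑ _w ∈ W, r := Finset.sum_le_sum fun w hw =>
          (List.toFinset_card_le w).trans (hW w hw).2.1
      _ = W.card * r := by rw [Finset.sum_const, smul_eq_mul]
      _ ≤ N * r := Nat.mul_le_mul_right _ hWN
  set g : ℕ := LL.card with hg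
  set s : Fin g ↪o ℕ := LL.orderEmbOfFin rfl with hs
  have hsLL : ∀ i, s i ∈ LL := fun i => LL.orderEmbOfFin_mem rfl i
  have hsurj : ∀ m ∈ LL, ∃ i, s i = m := by
    intro m hm
    have h1 := LL.range_orderEmbOfFin rfl
    have h2 : m ∈ Set.range (LL.orderEmbOfFin rfl) := by
      rw [h1]
      exact hm
    exact h2
  have hgr : g ∈ Finset.range (N * r + 1) := Finset.mem_range.2 (by omega)
  -- coding
  have hcode : ∀ w ∈ W, ∃ w' : List (Fin g), w'.map s = w := by
    intro w hw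
    have h1 : ∀ m ∈ w, ∃ i, s i = m := fun m hm =>
      hsurj m (Finset.mem_biUnion.2 ⟨w, hw, List.mem_toFinset.2 hm⟩)
    clear hw
    induction w with
    | nil => exact ⟨[], rfl⟩
    | cons m u ih =>
      obtain ⟨i, hi⟩ := h1 m List.mem_cons_self
      obtain ⟨u', hu'⟩ := ih fun m' hm' => h1 m' (List.mem_cons_of_mem _ hm')
      exact ⟨i :: u', by rw [List.map_cons, hi, hu']⟩
  choose! enc henc using hcode
  set Λ : Finset (List (Fin g)) := W.image enc with hΛ
  have hencinj : Set.InjOn enc W := by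
    intro w hw w' hw' h
    rw [← henc w hw, ← henc w' hw', h]
  have hΛΩ : Λ ⊆ Ω g := by
    intro w' hw'
    obtain ⟨w, hw, rfl⟩ := Finset.mem_image.1 hw'
    refine hΩ g _ ?_
    have h1 := congrArg List.length (henc w hw)
    rw [List.length_map] at h1
    rw [h1]
    exact (hW w hw).2.1
  have hΛP : Λ ∈ (Ω g).powerset := Finset.mem_powerset.2 hΛΩ
  have hΛ0 : ∀ w ∈ Λ, w ≠ [] := by
    intro w' hw' h
    obtain ⟨w, hw, rfl⟩ := Finset.mem_image.1 hw'
    apply (hW w hw).1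
    rw [← henc w hw, h, List.map_nil]
  have hn0 : n0 g Λ ≤ n := by
    have h1 : n0 g Λ ≤ ∑ Λ ∈ (Ω g).powerset, n0 g Λ :=
      Finset.single_le_sum (f := fun Λ => n0 g Λ) (fun _ _ => Nat.zero_le _) hΛP
    have h2 : ∑ Λ ∈ (Ω g).powerset, n0 g Λ ≤
        ∑ g ∈ Finset.range (N * r + 1), ∑ Λ ∈ (Ω g).powerset, n0 g Λ :=
      Finset.single_le_sum (f := fun g => ∑ Λ ∈ (Ω g).powerset, n0 g Λ)
        (fun _ _ => Nat.zero_le _) hgr
    omega
  have h1 := hmain g Λ hΛ0 n hn0 s s.injective (fun i => by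
      have h2 := hsLL i
      rw [hLL, Finset.mem_biUnion] at h2
      obtain ⟨w, hw, h3⟩ := h2
      exact (hW w hw).2.2.1 _ (List.mem_toFinset.1 h3)) (by
      intro w' hw' i hi
      obtain ⟨w, hw, rfl⟩ := Finset.mem_image.1 hw'
      refine (hW w hw).2.2.2 (s i) ?_
      rw [← henc w hw, List.head?_map, Option.mem_def, Option.mem_def.1 hi]
      rfl) (fun o j => o.elim (b j) fun p => a (p.1.1.map s) p.2 j) (by
      intro h2
      rcases ha with ⟨j1, hj1⟩ | ⟨w1, hw1, t1, j1, hj1⟩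
      · exact hj1 (congrFun (congrFun h2 none) j1)
      · apply hj1
        have h3 := congrFun (congrFun h2 (some (⟨enc w1, Finset.mem_image_of_mem _ hw1⟩, t1))) j1
        simp only [Pi.zero_apply, Option.elim] at h3
        rwa [henc w1 hw1] at h3) (fun o j => by
      cases o with
      | none => exact hbC j
      | some p =>
        obtain ⟨w, hw, h2⟩ := Finset.mem_image.1 p.1.2
        simp only [Option.elim]
        rw [← h2, henc w hw]
        exact hC w hw p.2 j)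
  have h2 : ∑ w' : Λ, ∑ t, ∑ j, (β j * a (w'.1.map s) t j) * mzt (χ t) (w'.1.map s) =
      ∑ w ∈ W, ∑ t, ∑ j, (β j * a w t j) * mzt (χ t) w := by
    rw [Finset.sum_coe_sort Λ (fun w' => ∑ t, ∑ j, (β j * a (w'.map s) t j) *
      mzt (χ t) (w'.map s)), hΛ, Finset.sum_image fun w hw w' hw' h => hencinj hw hw' h]
    refine Finset.sum_congr rfl fun w hw => ?_
    rw [henc w hw]
  simp only [Option.elim] at h1
  rw [h2] at h1
  refine lt_of_le_of_lt ?_ h1
  have hBg : B g Λ ≤ ∑ g ∈ Finset.range (N * r + 1), ∑ Λ ∈ (Ω g).powerset, B g Λ :=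
    (Finset.single_le_sum (f := fun Λ => B g Λ) (fun Λ _ => by linarith only [hB g Λ])
      hΛP).trans (Finset.single_le_sum (f := fun g => ∑ Λ ∈ (Ω g).powerset, B g Λ)
      (fun g _ => Finset.sum_nonneg fun Λ _ => by linarith only [hB g Λ]) hgr)
  have hBg0 : 0 < B g Λ := by linarith only [hB g Λ]
  gcongr

end Pool.Agent.H43C
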