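import Pool.Agent.Y777.AL.K

/-!
# Independence of truncated multiple sums on an infinite set of primes (after helper883 and
helper760)
-/

set_option autoImplicit false

namespace Pool.Agent.H43C

open Filter Topology Polynomial Pool.Agent.TH507.HS Pool.Agent.TH507.ZS Pool.Agent.TH883.Zg

/-- **linear independence on an infinite set of numbers** -/
theorem hs_inf (P : ℕ → Prop) (hP : ∀ m, ∃ q, m ≤ q ∧ P q) (Λ : Finset (List ℕ+)) (h Y : ℕ)
    (c : Fin (h + 1) × Λ → ℚ)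
    (hc : ∀ q : ℕ, P q → Y ≤ q →
      ∑ x : Fin (h + 1) × Λ, c x * (hs x.2.1 q / (q : ℚ) ^ (x.1 : ℕ)) = 0) : c = 0 := by
  classical
  set e : List ℕ+ → AA := fun w => if hw : w ∈ Λ then
    ∑ i : Fin (h + 1), kq (c (i, ⟨w, hw⟩)) * qj 1 0 ^ (i : ℕ) else 0 with he
  have heK : ∀ w, e w ∈ KN 1 le_rfl := by
    intro w
    rw [he]
    simp only
    split_ifs with hw
    · exact (KN 1 le_rfl).sum_mem fun i _ =>
        (KN 1 le_rfl).mul_mem (kq_mem 1 le_rfl _) ((KN 1 le_rfl).pow_mem (qj_mem 1 le_rfl 0) _)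
    · exact (KN 1 le_rfl).zero_mem
  have he2 : ∀ w : Λ, e w.1 = gr fun m => ∑ i : Fin (h + 1), c (i, w) *
      (1 / ((1 + 1 * m : ℕ) : ℚ)) ^ (i : ℕ) := by
    intro w
    rw [gr_sum, he]
    simp only [w.2, dite_true]
    refine Finset.sum_congr rfl fun i _ => ?_
    rw [qj, gr_pow, kq_apply, gr_mul]
    rfl
  set F : ℕ → ℚ := fun k => ∑ x : Fin (h + 1) × Λ, c x * (hs x.2.1 k / (k : ℚ) ^ (x.1 : ℕ)) with hF
  have hsum : ∑ w ∈ Λ, e w * yw 1 w = gr fun m => F (1 + 1 * m) := by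
    rw [← Finset.sum_coe_sort]
    have h1 : ∀ w : Λ, e w.1 * yw 1 w.1 = gr fun m => ∑ i : Fin (h + 1), c (i, w) *
        (hs w.1 (1 + 1 * m) / ((1 + 1 * m : ℕ) : ℚ) ^ (i : ℕ)) := by
      intro w
      rw [he2, yw, gr_mul]
      congr 1
      funext m
      rw [Finset.sum_mul]
      refine Finset.sum_congr rfl fun i _ => ?_
      rw [one_div, inv_pow]
      ring
    rw [Finset.sum_congr rfl fun w _ => h1 w, ← gr_sum]
    congr 1
    funext m
    rw [hF]
    simp only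
    rw [Fintype.sum_prod_type, Finset.sum_comm]
  have hlen : ∃ t, ∀ w ∈ Λ, w.length < t := by
    refine ⟨∑ w ∈ Λ, w.length + 1, fun w hw => ?_⟩
    have := Finset.single_le_sum (f := fun w : List ℕ+ => w.length) (fun _ _ => Nat.zero_le _) hw
    omega
  obtain ⟨t, ht⟩ := hlen
  have hW : ∑ w ∈ Λ, e w * yw 1 w ∈ W (KN 1 le_rfl) (yw 1) t :=
    (W _ _ t).sum_mem fun w hw => mul_mem_W (heK w) (mem_W (ht w hw))
  have hS := Sz_W 1 le_rfl t _ hW
  rw [hsum, Sz_gr] at hS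
  have hne : ∀ m0 : ℕ, (∀ m, m0 ≤ m → F (1 + 1 * m) ≠ 0) → False := by
    intro m0 hm0
    obtain ⟨q, hq, hqp⟩ := hP (m0 + Y + 2)
    have h1 := hc q hqp (by omega)
    apply hm0 (q - 1) (by omega)
    rw [show 1 + 1 * (q - 1) = q by omega]
    exact h1
  rcases hS with h1 | h1 | h1
  · rw [eventually_atTop] at h1
    obtain ⟨m0, hm0⟩ := h1
    refine hs_ind Λ h 1 (m0 + 1) le_rfl c fun k hk _ => ?_
    have h2 : F (1 + 1 * (k - 1)) = 0 := hm0 (k - 1) (by omega)
    rw [show 1 + 1 * (k - 1) = k by omega] at h2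
    exact h2
  · rw [eventually_atTop] at h1
    obtain ⟨m0, hm0⟩ := h1
    exact (hne m0 fun m hm => (hm0 m hm).ne').elim
  · rw [eventually_atTop] at h1
    obtain ⟨m0, hm0⟩ := h1
    exact (hne m0 fun m hm => (hm0 m hm).ne).elim


end Pool.Agent.H43C

namespace Pool.Agent.H43C

open Filter Topology Pool.Agent.TH932.Abs Pool.Agent.TH932.Germs Pool.Agent.TH932.Chi
open Pool.Agent.TH796.AL Pool.Agent.Y760.ZG
open Pool.Agent.TH507.HS (hs hs_nil hs_cons)

/-- independence at the primes over the real numbers -/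
lemma hs_realR (P : ℕ → Prop) (hP : ∀ m, ∃ q, m ≤ q ∧ P q) (Λ : Finset (List ℕ+)) (h Y : ℕ) (c : Fin (h + 1) × Λ → ℝ)
    (hc : ∀ q : ℕ, P q → Y ≤ q →
      ∑ x : Fin (h + 1) × Λ, c x * (hr (cl x.2.1) q / (q : ℝ) ^ (x.1 : ℕ)) = 0) : c = 0 := by
  funext x0
  refine (Module.forall_dual_apply_eq_zero_iff ℚ (c x0)).1 fun φ => ?_
  have h1 := hs_inf P hP Λ h Y (fun x => φ (c x)) (fun q hq hY => by
    have h2 := congrArg φ (hc q hq hY)
    rw [map_zero, map_sum] at h2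
    rw [← h2]
    refine Finset.sum_congr rfl fun x _ => ?_
    have e1 : c x * (hr (cl x.2.1) q / (q : ℝ) ^ (x.1 : ℕ)) =
        (hs x.2.1 q / (q : ℚ) ^ (x.1 : ℕ)) • c x := by
      rw [Rat.smul_def, hr_cl]
      push_cast
      ring
    rw [e1, map_smul, smul_eq_mul, mul_comm])
  exact congrFun h1 x0

/-- the last step -/
lemma env_finR (R : ℕ → Prop) (hR : ∀ m, ∃ q, m ≤ q ∧ R q) {I : Type} [Fintype I] [DecidableEq I] (Λ : Finset (List ℕ+)) (cls : Finset I)
    (d : I → ℤ) (hd : ∀ j ∈ cls, ∀ j' ∈ cls, d j = d j' → j = j') (η : I → Λ → ℝ) (q1 : ℕ)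
    (h : ∀ q : ℕ, q1 ≤ q → R q → ∑ j ∈ cls, ((pr q : ℝ) ^ (d j))⁻¹ *
      ∑ β : Λ, hr (cl β.1) (pr q) * η j β = 0) : ∀ j ∈ cls, ∀ β, η j β = 0 := by
  classical
  intro j0 hj0 β0
  set D : ℕ := ∑ j, (d j).natAbs with hD
  have hdD : ∀ j, (d j).natAbs ≤ D := fun j =>
    Finset.single_le_sum (f := fun j => (d j).natAbs) (fun _ _ => Nat.zero_le _)
      (Finset.mem_univ j)
  set e : I → ℕ := fun j => (d j + D).toNat with he
  have hej : ∀ j, (e j : ℤ) = d j + D := by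
    intro j
    have h1 := hdD j
    have h2 : 0 ≤ d j + D := by omega
    rw [he]
    exact Int.toNat_of_nonneg h2
  set H : ℕ := ∑ j, e j with hH
  have heH : ∀ j, e j < H + 1 := fun j =>
    Nat.lt_succ_of_le (Finset.single_le_sum (f := e) (fun _ _ => Nat.zero_le _)
      (Finset.mem_univ j))
  set c : Fin (H + 1) × Λ → ℝ := fun x => ∑ j ∈ cls.filter (fun j => e j = x.1), η j x.2 with hc
  have h1 := hs_realR (fun p => ∃ q, pr q = p ∧ R q) (fun m => by
      obtain ⟨q, hq, hRq⟩ := hR m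
      refine ⟨pr q, ?_, q, rfl, hRq⟩
      have := pr_ge q
      omega) Λ H (pr q1) c (fun p hp hY => by
    obtain ⟨q, hq, rfl, hRq⟩ : ∃ q, q1 ≤ q ∧ pr q = p ∧ R q := by
      obtain ⟨q, rfl, hRq⟩ := hp
      refine ⟨q, ?_, rfl, hRq⟩
      by_contra hcon
      rw [not_le] at hcon
      have h2 := pr_lt hcon
      omega
    have hp0 : (pr q : ℝ) ≠ 0 := by exact_mod_cast (pr_prime q).ne_zero
    have h2 := h q hq hRq
    have h3 : ∑ x : Fin (H + 1) × Λ, c x * (hr (cl x.2.1) (pr q) / (pr q : ℝ) ^ (x.1 : ℕ)) =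
        ((pr q : ℝ) ^ D)⁻¹ * ∑ j ∈ cls, ((pr q : ℝ) ^ (d j))⁻¹ *
          ∑ β : Λ, hr (cl β.1) (pr q) * η j β := by
      rw [Fintype.sum_prod_type, Finset.mul_sum]
      have h4 : ∀ j ∈ cls, ((pr q : ℝ) ^ D)⁻¹ * (((pr q : ℝ) ^ (d j))⁻¹ *
          ∑ β : Λ, hr (cl β.1) (pr q) * η j β) =
          ∑ x : Fin (H + 1), if e j = x then ∑ β : Λ, η j β * (hr (cl β.1) (pr q) /
            (pr q : ℝ) ^ (x : ℕ)) else 0 := by
        intro j _
        symm
        rw [Finset.sum_eq_single (⟨e j, heH j⟩ : Fin (H + 1))]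
        · rw [if_pos rfl, ← mul_assoc, Finset.mul_sum]
          refine Finset.sum_congr rfl fun β _ => ?_
          have h5 : ((pr q : ℝ) ^ D)⁻¹ * ((pr q : ℝ) ^ (d j))⁻¹ = ((pr q : ℝ) ^ (e j))⁻¹ := by
            rw [← mul_inv, ← zpow_natCast, ← zpow_natCast, ← zpow_add₀ hp0, hej j, add_comm]
          rw [h5]
          show η j β * (hr (cl β.1) (pr q) / (pr q : ℝ) ^ (e j)) = _
          rw [div_eq_mul_inv]
          ring
        · intro x _ hx
          rw [if_neg]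
          intro h5
          exact hx (Fin.ext h5.symm)
        · intro h5
          exact absurd (Finset.mem_univ _) h5
      rw [Finset.sum_congr rfl h4, Finset.sum_comm (s := cls)]
      refine Finset.sum_congr rfl fun x _ => ?_
      rw [← Finset.sum_filter, Finset.sum_comm (s := cls.filter _)]
      refine Finset.sum_congr rfl fun β _ => ?_
      rw [hc]
      simp only
      rw [Finset.sum_mul]
    rw [h3, h2, mul_zero])
  have h2 := congrFun h1 (⟨e j0, heH j0⟩, β0)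
  rw [hc] at h2
  simp only [Pi.zero_apply] at h2
  have h3 : cls.filter (fun j => e j = e j0) = {j0} := by
    ext j
    rw [Finset.mem_filter, Finset.mem_singleton]
    constructor
    · rintro ⟨h4, h5⟩
      refine hd j h4 j0 hj0 ?_
      have h6 := hej j
      have h7 := hej j0
      rw [h5] at h6
      linarith only [h6, h7]
    · rintro rfl
      exact ⟨hj0, rfl⟩
  rw [h3, Finset.sum_singleton] at h2
  exact h2


end Pool.Agent.H43C
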