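import Pool.Agent.H43C.Cl

/-!
# The theorem with the weight as the scale
-/

set_option autoImplicit false

namespace Pool.Agent.H43C

open Filter Topology Pool.Agent.Y760.ZG Pool.Agent.Y777.AL Pool.Agent.TH883.Zg
open Pool.Agent.Y777.AM

/-- **the theorem at the scale `k`** -/
theorem scale {l : ℕ} (β : Fin l → ℝ) (hβ : ∀ j, IsAlgebraic ℚ (β j))
    (hli : LinearIndependent ℚ β) {T : Type} [Fintype T] [DecidableEq T] (χ : T → ℕ → ℝ)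
    (hχa : ∀ t m, IsAlgebraic ℚ (χ t m)) {Q : ℕ} (hQ : 1 ≤ Q) {U : Finset ℕ} {lam : ℕ → ℕ → ℝ}
    {M : ℝ} (hχ : Tws χ Q U lam M) (μ : T → ℕ → ℝ)
    (hμ : ∀ t t', ∑ ρ ∈ U, μ t ρ * χ t' ρ = if t = t' then 1 else 0) (hM0 : 0 ≤ M) (N : ℕ)
    (C ε : ℝ) (hε : 0 < ε) :
    ∃ B : ℝ, 1 < B ∧ ∃ k0 : ℕ, ∀ k : ℕ, k0 ≤ k → ∀ W H : Finset (List ℕ), W.card ≤ N →
      (∀ w ∈ W, w ≠ [] ∧ (∀ m ∈ w, 1 ≤ m) ∧ w.sum ≤ k ∧ ∀ a ∈ w.head?, ε * k ≤ (a : ℝ)) →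
      (∀ h ∈ H, h ≠ [] ∧ (∀ m ∈ h, 1 ≤ m) ∧ (∀ a ∈ h.head?, 2 ≤ a) ∧ h.sum ≤ k ∧
        (ε * k ≤ ht h ∨ ((∀ a ∈ h.head?, ε * k ≤ (a : ℝ)) ∧ ε * k ≤ h.length))) →
      ∀ (b : Fin l → ℤ) (a : List ℕ → T → Fin l → ℤ) (c : List ℕ → T → ℝ),
      ((∃ j, b j ≠ 0) ∨ ∃ w ∈ W, (w.length : ℝ) ≤ 1 / ε ∧ ∃ t j, a w t j ≠ 0) →
      (∀ j, |(b j : ℝ)| ≤ C ^ k) → (∀ w ∈ W, ∀ t j, |(a w t j : ℝ)| ≤ C ^ k) →
      (∀ h ∈ H, ∀ t, |c h t| ≤ C ^ k) →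
      (B ^ k)⁻¹ < |∑ j, β j * b j + ∑ w ∈ W, ∑ t, ∑ j, (β j * a w t j) * mzt (χ t) w +
        ∑ h ∈ H, ∑ t, c h t * mzt (χ t) h| := by
  set R : ℕ := ⌈1 / ε⌉₊ with hR
  set P : ℕ := ⌈ε⌉₊ with hP
  set C' : ℝ := max |C| 1 with hC'
  have hC1 : 1 ≤ C' := le_max_right _ _
  have hRε : 1 / ε ≤ R := Nat.le_ceil _
  have hPε : ε ≤ P := Nat.le_ceil _
  have hP1 : P ≠ 0 := by
    have := Nat.ceil_pos.2 hε
    omega
  obtain ⟨B, hB, n0, h⟩ := F2t β hβ hli χ hχa hQ hχ μ hμ hM0 N R R (R : ℝ) (C' ^ R) (1 / 2)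
    (by norm_num)
  refine ⟨B ^ P, one_lt_pow₀ hB hP1, max (R * (n0 + 1)) R, ?_⟩
  intro k hk W H hWN hW hH b a c ha hbC haC hcC
  have hk1 : R * (n0 + 1) ≤ k := (le_max_left _ _).trans hk
  have hk2 : R ≤ k := (le_max_right _ _).trans hk
  set n : ℕ := ⌈ε * k⌉₊ with hn
  have hn1 : ε * k ≤ n := Nat.le_ceil _
  have hk0 : (0 : ℝ) ≤ k := Nat.cast_nonneg _
  have hn0 : n0 ≤ n := by
    have h1 : ((R * (n0 + 1) : ℕ) : ℝ) ≤ k := by exact_mod_cast hk1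
    have h2 : (n0 : ℝ) ≤ ε * k := by
      push_cast at h1
      have h3 : (1 / ε) * ((n0 : ℝ) + 1) ≤ k :=
        (mul_le_mul_of_nonneg_right hRε (by positivity)).trans h1
      have h4 := mul_le_mul_of_nonneg_left h3 hε.le
      have h5 : ε * (1 / ε * ((n0 : ℝ) + 1)) = n0 + 1 := by field_simp
      linarith only [h4, h5]
    exact_mod_cast h2.trans hn1
  have hkn : k ≤ R * n := by
    have h1 : (k : ℝ) ≤ R * n := by
      calc (k : ℝ) = 1 / ε * (ε * k) := by field_simp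
        _ ≤ R * n := mul_le_mul hRε hn1 (by positivity) (Nat.cast_nonneg _)
    exact_mod_cast h1
  have hn2 : (1 / 2 : ℝ) * n ≤ ε * k := by
    have h1 : (n : ℝ) < ε * k + 1 := Nat.ceil_lt_add_one (by positivity)
    have h2 : (R : ℝ) ≤ k := by exact_mod_cast hk2
    have h3 : 1 ≤ ε * k := by
      have h4 := mul_le_mul_of_nonneg_left (hRε.trans h2) hε.le
      have h5 : ε * (1 / ε) = 1 := by field_simp
      linarith only [h4, h5]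
    linarith only [h1, h3]
  have hCC : C ^ k ≤ (C' ^ R) ^ n := by
    rw [← pow_mul]
    calc C ^ k ≤ |C ^ k| := le_abs_self _
      _ = |C| ^ k := abs_pow _ _
      _ ≤ C' ^ k := pow_le_pow_left₀ (abs_nonneg _) (le_max_left _ _) _
      _ ≤ C' ^ (R * n) := pow_le_pow_right₀ hC1 hkn
  have hnk : n ≤ P * k := by
    rw [hn, Nat.ceil_le]
    push_cast
    exact mul_le_mul_of_nonneg_right hPε hk0
  have hmain := h n hn0 W hWN (by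
      intro w hw
      obtain ⟨e1, e2, e3, e4⟩ := hW w hw
      refine ⟨e1, fun m hm => ⟨e2 m hm, ?_⟩, fun a ha => Nat.ceil_le.2 (e4 a ha)⟩
      have h1 : m ≤ w.sum := List.le_sum_of_mem hm
      have h2 : m ≤ R * n := h1.trans (e3.trans hkn)
      exact_mod_cast h2) H (by
      intro h hh
      obtain ⟨e1, e2, e3, e4, e5⟩ := hH h hh
      refine ⟨e1, e2, e3, e4.trans hkn, ?_⟩
      rcases e5 with e5 | ⟨e5, e6⟩
      · exact Or.inl (hn2.trans e5)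
      · exact Or.inr ⟨fun a ha => hn2.trans (e5 a ha), hn2.trans e6⟩) b a c (by
      rcases ha with h1 | ⟨w, hw, h1, h2⟩
      · exact Or.inl h1
      · refine Or.inr ⟨w, hw, ?_, h2⟩
        exact_mod_cast h1.trans hRε) (fun j => (hbC j).trans hCC)
    (fun w hw t j => (haC w hw t j).trans hCC) (fun h hh t => (hcC h hh t).trans hCC)
  refine lt_of_le_of_lt ?_ hmain
  rw [← pow_mul]
  exact inv_anti₀ (by positivity) (pow_le_pow_right₀ hB.le hnk)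

end Pool.Agent.H43C
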