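import Pool.Agent.H43C.Dp

/-!
# Arbitrarily many very small twisted multiple sums
-/

set_option autoImplicit false

namespace Pool.Agent.H43C

open Filter Topology Pool.Agent.Y760.ZG Pool.Agent.Y777.AL Pool.Agent.TH883.Zg
open Pool.Agent.Y777.AM

/-- the words whose values are very small -/
def Sml (n : ℕ) (ε : ℝ) (Q : ℕ) (h : List ℕ) : Prop :=
  h ≠ [] ∧ (∀ m ∈ h, 1 ≤ m) ∧ (∀ k ∈ h.head?, 2 ≤ k) ∧ h.sum ≤ Q * n ∧
    (ε * n ≤ ht h ∨ ((∀ k ∈ h.head?, ε * n ≤ (k : ℝ)) ∧ ε * n ≤ h.length))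

/-- the sum of the values of large depth and large first argument -/
theorem small2 (ε C B : ℝ) (hε : 0 < ε) (hC : 1 ≤ C) (hB : 1 < B) :
    ∃ n0 : ℕ, ∀ n : ℕ, n0 ≤ n → ∀ H : Finset (List ℕ), (H.card : ℝ) ≤ C ^ n →
      (∀ h ∈ H, h ≠ [] ∧ (∀ m ∈ h, 1 ≤ m) ∧ (∀ k ∈ h.head?, ε * n ≤ (k : ℝ)) ∧
        ε * n ≤ h.length) → ∀ b : List ℕ → ℝ, (∀ h ∈ H, |b h| ≤ C ^ n) →
      |∑ h ∈ H, b h * mz h| ≤ (B ^ n)⁻¹ / 2 := by
  set A : ℝ := 2 * C * C * B with hA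
  have hA1 : 1 ≤ A := by
    have h1 : 1 ≤ C * C := one_le_mul_of_one_le_of_one_le hC hC
    nlinarith only [h1, hB]
  set K : ℕ := ⌈A ^ (1 / ε)⌉₊ + 2 with hK
  have hK2 : 2 ≤ K := by omega
  have hKA : A ≤ (K : ℝ) ^ ε := by
    have h1 : A ^ (1 / ε) ≤ (K : ℝ) := by
      rw [hK]
      push_cast
      have := Nat.le_ceil (A ^ (1 / ε))
      linarith only [this]
    calc A = (A ^ (1 / ε)) ^ ε := by
          rw [← Real.rpow_mul (by linarith only [hA1])]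
          rw [one_div, inv_mul_cancel₀ hε.ne', Real.rpow_one]
      _ ≤ (K : ℝ) ^ ε := Real.rpow_le_rpow (Real.rpow_nonneg (by linarith only [hA1]) _) h1 hε.le
  have ht : Tendsto (fun n : ℕ => (2 : ℝ) ^ n) atTop atTop :=
    tendsto_pow_atTop_atTop_of_one_lt one_lt_two
  obtain ⟨n1, hn1⟩ :=
    (ht.eventually_ge_atTop (2 * (8 * ze 2 * (K : ℝ) ^ 3))).exists_forall_of_atTop
  refine ⟨max n1 ⌈((K : ℝ) + 3) / ε⌉₊, fun n hn H hHc hH b hb => ?_⟩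
  have hn2 := hn1 n ((le_max_left _ _).trans hn)
  have h1 : ((K : ℝ) + 3) / ε ≤ n :=
    (Nat.le_ceil _).trans (by exact_mod_cast (le_max_right _ _).trans hn)
  rw [div_le_iff₀ hε] at h1
  set p : ℕ := ⌈ε * n⌉₊ with hp
  have hp1 : ε * n ≤ p := Nat.le_ceil _
  have hp3 : K + 3 ≤ p := by
    have h2 : ((K + 3 : ℕ) : ℝ) ≤ p := by
      push_cast
      linarith only [h1, hp1]
    exact_mod_cast h2
  have hK0 : (0 : ℝ) < K := by
    have : 0 < K := by omega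
    exact_mod_cast this
  have hK1 : (1 : ℝ) ≤ K := by
    have : 1 ≤ K := by omega
    exact_mod_cast this
  have hpow : A ^ n ≤ (K : ℝ) ^ p := by
    calc A ^ n ≤ ((K : ℝ) ^ ε) ^ n := pow_le_pow_left₀ (by linarith only [hA1]) hKA _
      _ = (K : ℝ) ^ (ε * n) := by rw [Real.rpow_mul hK0.le, Real.rpow_natCast]
      _ ≤ (K : ℝ) ^ (p : ℝ) := Real.rpow_le_rpow_of_exponent_le hK1 hp1
      _ = (K : ℝ) ^ p := Real.rpow_natCast _ _
  have hz := ze2_pos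
  have hA0 : 0 < A ^ n := by positivity
  have hval : ∀ h ∈ H, mz h ≤ 8 * ze 2 * (K : ℝ) ^ 3 * (A ^ n)⁻¹ := by
    intro h hh
    obtain ⟨e1, e2, e3, e4⟩ := hH h hh
    have hl : K < h.length := by
      have h2 : ((K + 3 : ℕ) : ℝ) ≤ h.length := by
        push_cast
        linarith only [h1, e4]
      have h3 : K + 3 ≤ h.length := by exact_mod_cast h2
      omega
    have h2 := mz_deep (n := p) (K := K) (by omega) hK2 hl e2 (fun k hk => Nat.ceil_le.2 (e3 k hk))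
    refine h2.trans ?_
    exact mul_le_mul_of_nonneg_left (inv_anti₀ hA0 hpow) (by positivity)
  have hBn : (0 : ℝ) < B ^ n := by positivity
  have hCn : (0 : ℝ) < C ^ n := by positivity
  have h7 : ∀ h ∈ H, |b h * mz h| ≤ C ^ n * (8 * ze 2 * (K : ℝ) ^ 3 * (A ^ n)⁻¹) := by
    intro h hh
    rw [abs_mul, abs_of_nonneg (mz_nonneg h)]
    exact mul_le_mul (hb h hh) (hval h hh) (mz_nonneg _) hCn.le
  calc |∑ h ∈ H, b h * mz h| ≤ ∑ h ∈ H, |b h * mz h| := Finset.abs_sum_le_sum_abs _ _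
    _ ≤ ∑ h ∈ H, C ^ n * (8 * ze 2 * (K : ℝ) ^ 3 * (A ^ n)⁻¹) := Finset.sum_le_sum h7
    _ = H.card * (C ^ n * (8 * ze 2 * (K : ℝ) ^ 3 * (A ^ n)⁻¹)) := by
        rw [Finset.sum_const, nsmul_eq_mul]
    _ ≤ C ^ n * (C ^ n * (8 * ze 2 * (K : ℝ) ^ 3 * (A ^ n)⁻¹)) :=
        mul_le_mul_of_nonneg_right hHc (by positivity)
    _ = (8 * ze 2 * (K : ℝ) ^ 3) * ((2 : ℝ) ^ n)⁻¹ * (B ^ n)⁻¹ := by
        rw [hA, mul_pow, mul_pow, mul_pow]
        field_simp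
    _ ≤ 1 / 2 * (B ^ n)⁻¹ := by
        refine mul_le_mul_of_nonneg_right ?_ (by positivity)
        rw [← div_eq_mul_inv, div_le_iff₀ (by positivity)]
        linarith only [hn2]
    _ = (B ^ n)⁻¹ / 2 := by ring

/-- **the sum of the very small twisted values** -/
theorem small_t {T : Type} [Fintype T] {χ : T → ℕ → ℝ} {M : ℝ} (hM : ∀ t m, |χ t m| ≤ M)
    (hM0 : 0 ≤ M) (ε C B : ℝ) (Q : ℕ) (hε : 0 < ε) (hC : 1 ≤ C) (hB : 1 < B) :
    ∃ n0 : ℕ, ∀ n : ℕ, n0 ≤ n → ∀ H : Finset (List ℕ), (∀ h ∈ H, Sml n ε Q h) →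
      ∀ c : List ℕ → T → ℝ, (∀ h ∈ H, ∀ t, |c h t| ≤ C ^ n) →
      |∑ h ∈ H, ∑ t, c h t * mzt (χ t) h| ≤ (B ^ n)⁻¹ / 2 := by
  classical
  set D : ℝ := max ((Fintype.card T : ℝ) * M) 1 with hD
  set C' : ℝ := max (D * C) (2 ^ Q) with hC'
  have hD1 : 1 ≤ D := le_max_right _ _
  have hC1 : 1 ≤ C' := (one_le_mul_of_one_le_of_one_le hD1 hC).trans (le_max_left _ _)
  obtain ⟨n1, h1⟩ := small ε C' (2 * B) Q hε hC1 (by linarith only [hB])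
  obtain ⟨n2, h2⟩ := small2 ε C' (2 * B) hε hC1 (by linarith only [hB])
  refine ⟨max (max n1 n2) 1, fun n hn H hH c hc => ?_⟩
  have hn1 : n1 ≤ n := (le_max_left _ _).trans ((le_max_left _ _).trans hn)
  have hn2 : n2 ≤ n := (le_max_right _ _).trans ((le_max_left _ _).trans hn)
  have hn3 : 1 ≤ n := (le_max_right _ _).trans hn
  have hBn : (0 : ℝ) < B ^ n := by positivity
  have hCn : (0 : ℝ) < C ^ n := by positivity
  have hcard : ∀ H' : Finset (List ℕ), H' ⊆ H → (H'.card : ℝ) ≤ C' ^ n := by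
    intro H' hs
    have h5 := card_words H' (Q * n) (fun h hh => ⟨(hH h (hs hh)).2.1, (hH h (hs hh)).2.2.2.1⟩)
    calc (H'.card : ℝ) ≤ ((2 ^ (Q * n) : ℕ) : ℝ) := by exact_mod_cast h5
      _ = (2 ^ Q) ^ n := by rw [← pow_mul]; push_cast; rfl
      _ ≤ C' ^ n := pow_le_pow_left₀ (by positivity) (le_max_right _ _) _
  have hbb : |(Fintype.card T : ℝ) * M * C ^ n| ≤ C' ^ n := by
    rw [abs_of_nonneg (by positivity)]
    calc (Fintype.card T : ℝ) * M * C ^ n ≤ D * C ^ n :=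
          mul_le_mul_of_nonneg_right (le_max_left _ _) hCn.le
      _ ≤ D ^ n * C ^ n := by
          refine mul_le_mul_of_nonneg_right ?_ hCn.le
          calc D = D ^ 1 := (pow_one _).symm
            _ ≤ D ^ n := pow_le_pow_right₀ hD1 hn3
      _ = (D * C) ^ n := (mul_pow _ _ _).symm
      _ ≤ C' ^ n := pow_le_pow_left₀ (by positivity) (le_max_left _ _) _
  -- the two parts
  set S1 := H.filter (fun h => ε * n ≤ (ht h : ℝ)) with hS1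
  set S2 := H.filter (fun h => ¬ ε * n ≤ (ht h : ℝ)) with hS2
  have h3 := h1 n hn1 S1 (hcard _ (Finset.filter_subset _ _)) (by
      intro h hh
      obtain ⟨hh1, hh2⟩ := Finset.mem_filter.1 hh
      obtain ⟨e1, e2, e3, e4, e5⟩ := hH h hh1
      exact ⟨e1, e2, e3, (List.length_le_sum_of_one_le h e2).trans e4, hh2⟩)
    (fun _ => (Fintype.card T : ℝ) * M * C ^ n) (fun _ _ => hbb)
  have h4 := h2 n hn2 S2 (hcard _ (Finset.filter_subset _ _)) (by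
      intro h hh
      obtain ⟨hh1, hh2⟩ := Finset.mem_filter.1 hh
      obtain ⟨e1, e2, e3, e4, e5⟩ := hH h hh1
      have e6 := e5.resolve_left hh2
      exact ⟨e1, e2, e6.1, e6.2⟩)
    (fun _ => (Fintype.card T : ℝ) * M * C ^ n) (fun _ _ => hbb)
  have h5 : ∀ h ∈ H, |∑ t, c h t * mzt (χ t) h| ≤ (Fintype.card T : ℝ) * M * C ^ n * mz h := by
    intro h hh
    obtain ⟨e1, e2, e3, e4, e5⟩ := hH h hh
    refine (Finset.abs_sum_le_sum_abs _ _).trans ?_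
    calc ∑ t, |c h t * mzt (χ t) h| ≤ ∑ t : T, C ^ n * (M * mz h) := by
          refine Finset.sum_le_sum fun t _ => ?_
          rw [abs_mul]
          exact mul_le_mul (hc h hh t) (mzt_le (hM t) e1 e2 e3) (abs_nonneg _) hCn.le
      _ = _ := by
          rw [Finset.sum_const, nsmul_eq_mul, Finset.card_univ]
          ring
  have h6 : |∑ h ∈ H, ∑ t, c h t * mzt (χ t) h| ≤
      ∑ h ∈ H, (Fintype.card T : ℝ) * M * C ^ n * mz h :=
    (Finset.abs_sum_le_sum_abs _ _).trans (Finset.sum_le_sum h5)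
  have h7 : ∑ h ∈ H, (Fintype.card T : ℝ) * M * C ^ n * mz h =
      ∑ h ∈ S1, (Fintype.card T : ℝ) * M * C ^ n * mz h +
      ∑ h ∈ S2, (Fintype.card T : ℝ) * M * C ^ n * mz h :=
    (Finset.sum_filter_add_sum_filter_not H (fun h => ε * n ≤ (ht h : ℝ)) _).symm
  have h8 : ((2 * B) ^ n)⁻¹ ≤ (B ^ n)⁻¹ / 2 := by
    rw [mul_pow, mul_inv]
    have h8 : (2 : ℝ) ≤ 2 ^ n := by
      calc (2 : ℝ) = 2 ^ 1 := (pow_one _).symm
        _ ≤ 2 ^ n := pow_le_pow_right₀ one_le_two (by omega)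
    have h9 : ((2 : ℝ) ^ n)⁻¹ ≤ 1 / 2 := by
      rw [one_div]
      exact inv_anti₀ two_pos h8
    calc ((2 : ℝ) ^ n)⁻¹ * (B ^ n)⁻¹ ≤ 1 / 2 * (B ^ n)⁻¹ :=
          mul_le_mul_of_nonneg_right h9 (by positivity)
      _ = _ := by ring
  have h9 := (le_abs_self _).trans h3
  have h10 := (le_abs_self _).trans h4
  linarith only [h6, h7, h8, h9, h10]

/-- **the theorem with arbitrarily many very small values** -/
theorem F2t {l : ℕ} (β : Fin l → ℝ) (hβ : ∀ j, IsAlgebraic ℚ (β j))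
    (hli : LinearIndependent ℚ β) {T : Type} [Fintype T] [DecidableEq T] (χ : T → ℕ → ℝ)
    (hχa : ∀ t m, IsAlgebraic ℚ (χ t m)) {Q : ℕ} (hQ : 1 ≤ Q) {U : Finset ℕ} {lam : ℕ → ℕ → ℝ}
    {M : ℝ} (hχ : Tws χ Q U lam M) (μ : T → ℕ → ℝ)
    (hμ : ∀ t t', ∑ ρ ∈ U, μ t ρ * χ t' ρ = if t = t' then 1 else 0) (hM0 : 0 ≤ M) (N K R : ℕ)
    (κ C ε : ℝ) (hε : 0 < ε) :
    ∃ B : ℝ, 1 < B ∧ ∃ n0 : ℕ, ∀ n : ℕ, n0 ≤ n → ∀ W : Finset (List ℕ), W.card ≤ N →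
      (∀ w ∈ W, w ≠ [] ∧ Adj n κ w) → ∀ H : Finset (List ℕ), (∀ h ∈ H, Sml n ε R h) →
      ∀ (b : Fin l → ℤ) (a : List ℕ → T → Fin l → ℤ) (c : List ℕ → T → ℝ),
      ((∃ j, b j ≠ 0) ∨ ∃ w ∈ W, w.length ≤ K ∧ ∃ t j, a w t j ≠ 0) →
      (∀ j, |(b j : ℝ)| ≤ C ^ n) → (∀ w ∈ W, ∀ t j, |(a w t j : ℝ)| ≤ C ^ n) →
      (∀ h ∈ H, ∀ t, |c h t| ≤ C ^ n) →
      (B ^ n)⁻¹ < |∑ j, β j * b j + ∑ w ∈ W, ∑ t, ∑ j, (β j * a w t j) * mzt (χ t) w +
        ∑ h ∈ H, ∑ t, c h t * mzt (χ t) h| := by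
  obtain ⟨B, hB, n1, h1⟩ := F1t β hβ hli χ hχa hQ hχ μ hμ hM0 N K κ C
  obtain ⟨n2, h2⟩ := small_t hχ.bd hM0 ε (max |C| 1) B R hε (le_max_right _ _) hB
  refine ⟨2 * B, by linarith only [hB], max (max n1 n2) 1, ?_⟩
  intro n hn W hWN hW H hH b a c ha hbC haC hcC
  have hn1 : n1 ≤ n := (le_max_left _ _).trans ((le_max_left _ _).trans hn)
  have hn2 : n2 ≤ n := (le_max_right _ _).trans ((le_max_left _ _).trans hn)
  have hn3 : 1 ≤ n := (le_max_right _ _).trans hn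
  have hCC : C ^ n ≤ max |C| 1 ^ n := by
    refine (le_abs_self _).trans ?_
    rw [abs_pow]
    exact pow_le_pow_left₀ (abs_nonneg _) (le_max_left _ _) _
  have h3 := h1 n hn1 W hWN hW b a ha hbC haC
  have h4 := h2 n hn2 H hH c (fun h hh t => (hcC h hh t).trans hCC)
  have h7 : ((2 * B) ^ n)⁻¹ ≤ (B ^ n)⁻¹ / 2 := by
    rw [mul_pow, mul_inv]
    have h8 : (2 : ℝ) ≤ 2 ^ n := by
      calc (2 : ℝ) = 2 ^ 1 := (pow_one _).symm
        _ ≤ 2 ^ n := pow_le_pow_right₀ one_le_two (by omega)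
    have h9 : ((2 : ℝ) ^ n)⁻¹ ≤ 1 / 2 := by
      rw [one_div]
      exact inv_anti₀ two_pos h8
    calc ((2 : ℝ) ^ n)⁻¹ * (B ^ n)⁻¹ ≤ 1 / 2 * (B ^ n)⁻¹ :=
          mul_le_mul_of_nonneg_right h9 (by positivity)
      _ = _ := by ring
  set X : ℝ := ∑ j, β j * b j + ∑ w ∈ W, ∑ t, ∑ j, (β j * a w t j) * mzt (χ t) w with hX
  set Y : ℝ := ∑ h ∈ H, ∑ t, c h t * mzt (χ t) h with hY
  have h10 : |X| ≤ |X + Y| + |Y| := by
    have h11 : X = (X + Y) - Y := by ring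
    calc |X| = |(X + Y) - Y| := by rw [← h11]
      _ ≤ |X + Y| + |Y| := abs_sub _ _
  linarith only [h3, h4, h7, h10]

end Pool.Agent.H43C
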