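import Pool.Agent.Y777.AL.E

/-!
# Truncated multiple sums with a twist of the largest variable: parts and leading parts (after
helper760 and helper777)
-/

set_option autoImplicit false

namespace Pool.Agent.H43C

open Filter Topology Pool.Agent.TH932.Abs Pool.Agent.TH932.Germs Pool.Agent.TH932.Chi
open Pool.Agent.TH796.AL Pool.Agent.Y760.ZG Pool.Agent.Y777.AL

variable {I : Type} [Fintype I] [DecidableEq I]

/-- truncated multiple sums, the largest variable is twisted by `χ` -/
noncomputable def Gt (s : ℕ → I → ℕ) (χ : ℕ → ℝ) : List I → ℕ → HR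
  | [], _ => 1
  | a :: u, N => ∑ m ∈ Finset.Ico 1 N, algebraMap ℝ HR (χ m) * rho (lj s a m * Gj s u m)

omit [Fintype I] [DecidableEq I] in
lemma Gt_nil (s : ℕ → I → ℕ) (χ : ℕ → ℝ) (N : ℕ) : Gt s χ ([] : List I) N = 1 := by rw [Gt]
omit [Fintype I] [DecidableEq I] in
lemma Gt_cons (s : ℕ → I → ℕ) (χ : ℕ → ℝ) (a : I) (u : List I) (N : ℕ) :
    Gt s χ (a :: u) N =
      ∑ m ∈ Finset.Ico 1 N, algebraMap ℝ HR (χ m) * rho (lj s a m * Gj s u m) := by rw [Gt]

open Classical in
/-- the part of the weight `z` at the prime `q` -/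
noncomputable def Gty (s : ℕ → I → ℕ) (x : I → ℝ) (χ : ℕ → ℝ) (q : ℕ) : List I → ℕ → ℝ → HR
  | [], _, z => if z = 0 then 1 else 0
  | a :: u, N, z => ∑ m ∈ Finset.Ico 1 N, algebraMap ℝ HR (χ m) *
      rho (lj s a m * Gy s x q u m (z - padicValNat (pr q) m * x a))

open Classical in
omit [Fintype I] [DecidableEq I] in
lemma Gty_nil (s : ℕ → I → ℕ) (x : I → ℝ) (χ : ℕ → ℝ) (q N : ℕ) (z : ℝ) :
    Gty s x χ q ([] : List I) N z = if z = 0 then 1 else 0 := by rw [Gty]
omit [Fintype I] [DecidableEq I] in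
lemma Gty_cons (s : ℕ → I → ℕ) (x : I → ℝ) (χ : ℕ → ℝ) (q : ℕ) (a : I) (u : List I) (N : ℕ)
    (z : ℝ) : Gty s x χ q (a :: u) N z = ∑ m ∈ Finset.Ico 1 N, algebraMap ℝ HR (χ m) *
      rho (lj s a m * Gy s x q u m (z - padicValNat (pr q) m * x a)) := by rw [Gty]

variable {s : ℕ → I → ℕ} {x : I → ℝ} {χ : ℕ → ℝ}

omit [Fintype I] [DecidableEq I] in
lemma Gty_notMem (q : ℕ) (w : List I) (N : ℕ) (z : ℝ) (hz : z ∉ Yj x q w N) :
    Gty s x χ q w N z = 0 := by
  classical
  cases w with
  | nil =>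
    rw [Yj_nil, Finset.mem_singleton] at hz
    rw [Gty_nil, if_neg hz]
  | cons a u =>
    rw [Yj_cons] at hz
    rw [Gty_cons]
    refine Finset.sum_eq_zero fun m hm => ?_
    rw [Gy_notMem s x q u m, mul_zero, map_zero, mul_zero]
    intro h
    exact hz (Finset.mem_biUnion.2 ⟨m, hm, Finset.mem_image.2 ⟨_, h, by ring⟩⟩)

omit [Fintype I] [DecidableEq I] in
lemma Gty_sum (q : ℕ) (w : List I) (N : ℕ) (Y : Finset ℝ) (hY : Yj x q w N ⊆ Y) :
    ∑ z ∈ Y, Gty s x χ q w N z = Gt s χ w N := by
  classical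
  cases w with
  | nil =>
    rw [Yj_nil, Finset.singleton_subset_iff] at hY
    rw [Gt_nil, Finset.sum_eq_single_of_mem 0 hY]
    · rw [Gty_nil, if_pos rfl]
    · intro z _ hz
      rw [Gty_nil, if_neg hz]
  | cons a u =>
    rw [Yj_cons] at hY
    rw [Gt_cons]
    simp only [Gty_cons]
    rw [Finset.sum_comm]
    refine Finset.sum_congr rfl fun m hm => ?_
    rw [← Finset.mul_sum, ← map_sum, ← Finset.mul_sum]
    congr 3
    rw [← Gy_sum s x q u m (Y.image fun z => z - padicValNat (pr q) m * x a) ?_,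
      Finset.sum_image]
    · intro z _ z' _ h
      simpa using h
    · intro z hz
      refine Finset.mem_image.2 ⟨z + padicValNat (pr q) m * x a, ?_, by ring⟩
      exact hY (Finset.mem_biUnion.2 ⟨m, hm, Finset.mem_image.2 ⟨_, hz, rfl⟩⟩)

section

variable {L : ℕ → ℝ} {hL : Tendsto L atTop atTop} {F : IntermediateField ℚ ℝ}

lemma NQ_cst (hχ : ∀ m, χ m ∈ F) (q M m : ℕ) : NQ hL F q M (algebraMap ℝ HR (χ m)) :=
  NQ.coe ⟨_, cst_mem_KA hL F ⟨χ m, hχ m⟩⟩

lemma NQ_Gty (hs : Lim s x L) (hχ : ∀ m, χ m ∈ F) {q M : ℕ} (hq : q < M) (w : List I) (N : ℕ)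
    (z : ℝ) (hN : N ≤ M + 1) : NQ hL F q M (Gty s x χ q w N z * rho ((ch1 hL q (-z))⁻¹)) := by
  classical
  cases w with
  | nil =>
    rw [Gty_nil]
    split_ifs with h
    · rw [h, neg_zero, ch1_zero, inv_one, map_one, mul_one]
      exact NQ.one
    · rw [zero_mul]
      exact NQ.zero
  | cons a u =>
    rw [Gty_cons, Finset.sum_mul]
    refine NQ.sum _ _ fun m hm => ?_
    rw [Finset.mem_Ico] at hm
    have h1 : ch1 hL q (-z) = ch1 hL q (-(padicValNat (pr q) m * x a)) *
        ch1 hL q (-(z - padicValNat (pr q) m * x a)) := by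
      rw [← ch1_add]
      congr 1
      ring
    rw [mul_assoc, ← map_mul, ← div_eq_mul_inv, h1, mul_div_mul_comm, map_mul]
    exact (NQ_cst hχ q M m).mul ((NQ_lj hs a hm.1 (by omega) hq).mul (NQ_Gy hs hq u m _ (by omega)))

omit [DecidableEq I] [Fintype I] in
lemma Gty_pr {q : ℕ} (w : List I) {N : ℕ} (hN : N ≤ pr q) : Gty s x χ q w N 0 = Gt s χ w N := by
  classical
  rw [← Gty_sum q w N (insert 0 (Yj x q w N)) (Finset.subset_insert _ _)]
  refine (Finset.sum_eq_single_of_mem 0 (Finset.mem_insert_self _ _) fun z hz hz0 => ?_).symm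
  exact Gty_notMem q w N z fun h => hz0 (Yj_small w N z hN h)

lemma SF_Gt (hs : Lim s x L) (hχ : ∀ m, χ m ∈ F) (w : List I) (N : ℕ) : Gt s χ w N ∈ SF hL F := by
  have h1 := NQ_Gty (hL := hL) (F := F) hs hχ (q := N) (M := N + 1) (Nat.lt_succ_self N) w N 0
    (by omega)
  rw [Gty_pr w (by have := pr_ge N; omega), neg_zero, ch1_zero, inv_one, map_one, mul_one] at h1
  exact SF_of_NQ h1

/-- **the part of a small sum at one prime is small** -/
lemma partt (hF : FiniteDimensional ℚ F) (hs : Lim s x L) {W : Type} [Fintype W]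
    (w : W → List I) (X : W → ℕ → ℝ) (hX : ∀ v m, X v m ∈ F) (c : W → HR) {q M N : ℕ} (hq : q < M)
    (hN : N ≤ M + 1) (hc : ∀ v, NQ hL F q M (c v)) {E : ℝ}
    (h : ∑ v, c v * Gt s (X v) (w v) N ∈ SR L E) (z : ℝ) :
    ∑ v, c v * Gty s x (X v) q (w v) N z ∈ SR L E := by
  classical
  set Y : Finset ℝ := Finset.univ.biUnion fun v => Yj x q (w v) N with hY
  by_cases hz : z ∈ Y
  · set R : ℝ → HR := fun z => ∑ v, c v * (Gty s x (X v) q (w v) N z * rho ((ch1 hL q (-z))⁻¹))
      with hR
    have h1 : ∀ z, rho (ch1 hL q (-z)) * R z = ∑ v, c v * Gty s x (X v) q (w v) N z := by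
      intro z
      rw [hR]
      simp only
      rw [Finset.mul_sum]
      refine Finset.sum_congr rfl fun v _ => ?_
      have h2 : rho (ch1 hL q (-z)) * rho ((ch1 hL q (-z))⁻¹) = 1 := by
        rw [← map_mul, mul_inv_cancel₀ (ch1_ne hL q (-z)), map_one]
      calc rho (ch1 hL q (-z)) * (c v * (Gty s x (X v) q (w v) N z * rho ((ch1 hL q (-z))⁻¹))) =
          c v * Gty s x (X v) q (w v) N z * (rho (ch1 hL q (-z)) * rho ((ch1 hL q (-z))⁻¹)) := by
            ring
        _ = _ := by rw [h2, mul_one]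
    have h2 : ∑ z ∈ Y, rho (ch (bs M) hL (Pi.single ⟨q, hq⟩ (-z))) * R z ∈ SR L E := by
      have e1 : ∑ z ∈ Y, rho (ch (bs M) hL (Pi.single ⟨q, hq⟩ (-z))) * R z =
          ∑ v, c v * Gt s (X v) (w v) N := by
        have e2 : ∀ z ∈ Y, rho (ch (bs M) hL (Pi.single ⟨q, hq⟩ (-z))) * R z =
            ∑ v, c v * Gty s x (X v) q (w v) N z := by
          intro z _
          rw [ch1_eq, h1]
        rw [Finset.sum_congr rfl e2, Finset.sum_comm]
        refine Finset.sum_congr rfl fun v _ => ?_
        rw [← Finset.mul_sum, Gty_sum q (w v) N Y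
          (Finset.subset_biUnion_of_mem (fun v => Yj x q (w v) N) (Finset.mem_univ v))]
      rw [e1]
      exact h
    have h3 := split hF hq Y R (fun z _ => NQ.sum _ _ fun v _ => (hc v).mul
      (NQ_Gty hs (hX v) hq (w v) N z hN)) h2 z hz
    have h4 := SR_mul hL (ch1_mem (hL := hL) q z) h3
    rw [h1] at h4
    refine SR_anti hL (le_of_eq ?_) h4
    ring
  · have h1 : ∀ v, Gty s x (X v) q (w v) N z = 0 := fun v => Gty_notMem q (w v) N z fun h2 =>
      hz (Finset.mem_biUnion.2 ⟨v, Finset.mem_univ v, h2⟩)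
    simp only [h1, mul_zero, Finset.sum_const_zero]
    exact SR_zero _

end

section

variable {L : ℕ → ℝ} (hL : Tendsto L atTop atTop) (hs : Lim s x L)
include hL

lemma SR_cst0 (c : ℝ) : algebraMap ℝ HR c ∈ SR L 0 := SR_cst hL c

include hs

open Classical in
omit [Fintype I] [DecidableEq I] in
/-- **the leading part at a large prime** -/
lemma leadt (hx : ∀ i, x i = 0 ∨ 2 ≤ x i) (χ : ℕ → ℝ) (q : ℕ) (i : I) (u : List I) (N : ℕ) {y : ℝ}
    (hy : 1 ≤ y) (hyi : y ≤ x i) :
    Gty s x χ q (i :: u) (pr q * N) y - (if x i = y then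
      ∑ m ∈ Finset.Ico 1 N, algebraMap ℝ HR (χ (pr q * m)) *
        rho (lj s i (pr q * m) * Gj s u (pr q * m)) else 0) ∈
      SR L ((y + 1) * Real.log (pr q)) := by
  have hp := pr_prime q
  have hp0 : 0 < pr q := hp.pos
  have hlog : 0 < Real.log (pr q) := Real.log_pos (by exact_mod_cast hp.one_lt)
  have hcst : ∀ (m : ℕ) {t : ℝ} {a : HR}, a ∈ SR L t → algebraMap ℝ HR (χ m) * a ∈ SR L t := by
    intro m t a ha
    have h1 := SR_mul hL (SR_cst hL (χ m)) ha
    rwa [zero_add] at h1
  set F : ℕ → HR := fun m => algebraMap ℝ HR (χ m) * rho (lj s i m *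
    Gy s x q u m (y - padicValNat (pr q) m * x i)) with hF
  have e1 : Gty s x χ q (i :: u) (pr q * N) y =
      ∑ m ∈ (Finset.Ico 1 (pr q * N)).filter (fun m => ¬ pr q ∣ m), F m +
        ∑ m ∈ Finset.Ico 1 N, F (pr q * m) := by
    rw [Gty_cons, ← Finset.sum_filter_add_sum_filter_not _ (fun m => pr q ∣ m), add_comm]
    congr 1
    have h1 : (Finset.Ico 1 (pr q * N)).filter (fun m => pr q ∣ m) =
        (Finset.Ico 1 N).image fun m => pr q * m := by
      ext m
      simp only [Finset.mem_filter, Finset.mem_Ico, Finset.mem_image]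
      constructor
      · rintro ⟨⟨h2, h3⟩, m', rfl⟩
        refine ⟨m', ⟨?_, lt_of_mul_lt_mul_left h3 (Nat.zero_le _)⟩, rfl⟩
        rcases Nat.eq_zero_or_pos m' with h | h
        · rw [h, mul_zero] at h2
          omega
        · exact h
      · rintro ⟨m', ⟨h2, h3⟩, rfl⟩
        exact ⟨⟨Nat.mul_pos hp0 h2, Nat.mul_lt_mul_of_pos_left h3 hp0⟩, dvd_mul_right _ _⟩
    rw [h1, Finset.sum_image]
    intro a _ b _ hab
    exact Nat.eq_of_mul_eq_mul_left hp0 hab
  have e2 : Gty s x χ q (i :: u) (pr q * N) y - (if x i = y then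
      ∑ m ∈ Finset.Ico 1 N, algebraMap ℝ HR (χ (pr q * m)) *
        rho (lj s i (pr q * m) * Gj s u (pr q * m)) else 0) =
      ∑ m ∈ (Finset.Ico 1 (pr q * N)).filter (fun m => ¬ pr q ∣ m), F m +
        ∑ m ∈ Finset.Ico 1 N, (F (pr q * m) -
          if x i = y then algebraMap ℝ HR (χ (pr q * m)) *
            rho (lj s i (pr q * m) * Gj s u (pr q * m)) else 0) := by
    rw [e1, Finset.sum_sub_distrib]
    split_ifs
    · ring
    · simp
  rw [e2]
  refine SR_add hL (SR_sum hL _ _ fun m hm => ?_) (SR_sum hL _ _ fun m hm => ?_)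
  · rw [Finset.mem_filter, Finset.mem_Ico] at hm
    have hv : padicValNat (pr q) m = 0 := padicValNat.eq_zero_of_not_dvd hm.2
    rw [hF]
    simp only
    rw [hv, Nat.cast_zero, zero_mul, sub_zero]
    refine hcst m ?_
    by_cases hmp : m ≤ pr q
    · rw [Gy_small s hmp (by linarith only [hy]), mul_zero, map_zero]
      exact SR_zero _
    · push Not at hmp
      rw [map_mul]
      have h1 := SR_mul hL (SR_lj hL hs i hm.1.1) (SR_Gy hL hs hx q u m y)
      refine SR_anti hL ?_ h1
      have h2 : Real.log (pr q) ≤ Real.log m :=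
        Real.log_le_log (by exact_mod_cast hp0) (by exact_mod_cast hmp.le)
      nlinarith only [h2, hyi, hy, hlog]
  · rw [Finset.mem_Ico] at hm
    have hpm : 1 ≤ pr q * m := Nat.mul_pos hp0 hm.1
    haveI : Fact (pr q).Prime := ⟨hp⟩
    have hv : padicValNat (pr q) (pr q * m) = 1 + padicValNat (pr q) m := by
      rw [padicValNat.mul (by omega) (by omega), padicValNat_self]
    have hlg := SR_lj hL hs i hpm
    have hlogm : Real.log (pr q * m : ℕ) = Real.log (pr q) + Real.log m := by
      push_cast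
      rw [Real.log_mul (by exact_mod_cast hp0.ne') (by exact_mod_cast (by omega : m ≠ 0))]
    rw [hlogm] at hlg
    have hm0 : 0 ≤ Real.log m := Real.log_nonneg (by exact_mod_cast hm.1)
    rw [hF]
    simp only
    rw [hv]
    rcases Nat.eq_zero_or_pos (padicValNat (pr q) m) with h0 | h0
    · rw [h0]
      split_ifs with h1
      · rw [h1, show y - ((1 + 0 : ℕ) : ℝ) * y = 0 by push_cast; ring, ← mul_sub]
        refine hcst _ ?_
        rw [← map_sub, ← mul_sub, map_mul, ← neg_sub, map_neg, mul_neg]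
        refine SR_neg ?_
        have h2 := SR_mul hL hlg (SR_Gj_sub hL hs hx q u (pr q * m))
        refine SR_anti hL ?_ h2
        rw [h1]
        nlinarith only [hm0, hy, hlog]
      · have h2 : y - ((1 + 0 : ℕ) : ℝ) * x i < 0 := by
          push_cast
          have := lt_of_le_of_ne hyi (Ne.symm h1)
          linarith only [this]
        rw [Gy_neg s hx h2, mul_zero, map_zero, mul_zero, sub_zero]
        exact SR_zero _
    · have h2 : y - ((1 + padicValNat (pr q) m : ℕ) : ℝ) * x i < 0 := by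
        have h3 : (2 : ℝ) ≤ ((1 + padicValNat (pr q) m : ℕ) : ℝ) := by exact_mod_cast (by omega)
        nlinarith only [h3, hyi, hy]
      rw [Gy_neg s hx h2, mul_zero, map_zero, mul_zero, zero_sub]
      refine SR_neg ?_
      split_ifs with h1
      · refine hcst _ ?_
        rw [map_mul]
        have h3 := SR_mul hL hlg (SR_Gj hL hs hx u (pr q * m))
        refine SR_anti hL ?_ h3
        have h4 : Real.log (pr q) ≤ Real.log m := by
          refine Real.log_le_log (by exact_mod_cast hp0) ?_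
          have h5 : pr q ∣ m := dvd_of_one_le_padicValNat h0
          exact_mod_cast Nat.le_of_dvd (by omega) h5
        rw [h1]
        nlinarith only [h4, hy, hlog]
      · exact SR_zero _

end

section

variable {L : ℕ → ℝ} {hL : Tendsto L atTop atTop} {F : IntermediateField ℚ ℝ}

open Classical in
/-- **the leading part of a small sum at a large prime** -/
lemma leadt_sum (hF : FiniteDimensional ℚ F) (hs : Lim s x L) (hx : ∀ i, x i = 0 ∨ 2 ≤ x i)
    {W : Type} [Fintype W] (w : W → List I) (X : W → ℕ → ℝ) (hX : ∀ v m, X v m ∈ F) (c : W → HR)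
    {m0 : ℕ} (hm0 : ∀ m', m0 ≤ m' → ∀ v, NQ hL F m' m' (c v)) {K : ℝ}
    (hK : ∀ v, c v ∈ SR L (-K))
    {y : ℝ} (hy : 1 ≤ y) (hw : ∀ v, c v ≠ 0 → w v = [] ∨ ∃ i u, w v = i :: u ∧ y ≤ x i)
    {q : ℕ} (hq : m0 ≤ q) {N : ℕ} (hN : 1 ≤ N)
    (h : ∑ v, c v * Gt s (X v) (w v) (pr q * N) ∈ SR L ((y + 1) * Real.log (pr q) - K)) :
    ∑ i ∈ Finset.univ.filter (fun i => x i = y), rho (ug s q i / ch1 hL q (-y)) *
      ∑ v ∈ Finset.univ.filter (fun v => hdj i (w v)), c v *
        ∑ m ∈ Finset.Ico 1 N, algebraMap ℝ HR (X v (pr q * m)) *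
          rho (lj s i m * Gj s (w v).tail (pr q * m)) ∈
      SR L (Real.log (pr q) - K) := by
  have hp := pr_prime q
  have hp0 : 0 < pr q := hp.pos
  have hlog : 0 < Real.log (pr q) := Real.log_pos (by exact_mod_cast hp.one_lt)
  have hqN : q < pr q * N := by
    have h1 := pr_ge q
    have h2 : pr q * 1 ≤ pr q * N := Nat.mul_le_mul_left _ hN
    omega
  have h1 := partt hF hs w X hX c (q := q) (M := pr q * N) (N := pr q * N) hqN (by omega)
    (fun v => (hm0 q hq v).mono hqN.le) h y
  have h2 : ∑ v, c v * Gty s x (X v) q (w v) (pr q * N) y -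
      ∑ i ∈ Finset.univ.filter (fun i => x i = y),
        ∑ v ∈ Finset.univ.filter (fun v => hdj i (w v)), c v *
          ∑ m ∈ Finset.Ico 1 N, algebraMap ℝ HR (X v (pr q * m)) *
            rho (lj s i (pr q * m) * Gj s (w v).tail (pr q * m)) ∈
      SR L ((y + 1) * Real.log (pr q) - K) := by
    have e1 : ∑ i ∈ Finset.univ.filter (fun i => x i = y),
        ∑ v ∈ Finset.univ.filter (fun v => hdj i (w v)), c v *
          ∑ m ∈ Finset.Ico 1 N, algebraMap ℝ HR (X v (pr q * m)) *
            rho (lj s i (pr q * m) * Gj s (w v).tail (pr q * m)) =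
        ∑ v, c v * ∑ i ∈ Finset.univ.filter (fun i => x i = y), if hdj i (w v) then
          ∑ m ∈ Finset.Ico 1 N, algebraMap ℝ HR (X v (pr q * m)) *
            rho (lj s i (pr q * m) * Gj s (w v).tail (pr q * m))
          else 0 := by
      have e0 : ∀ v : W, c v * ∑ i ∈ Finset.univ.filter (fun i => x i = y), (if hdj i (w v) then
          ∑ m ∈ Finset.Ico 1 N, algebraMap ℝ HR (X v (pr q * m)) *
            rho (lj s i (pr q * m) * Gj s (w v).tail (pr q * m))
          else 0) = ∑ i ∈ Finset.univ.filter (fun i => x i = y), if hdj i (w v) then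
          c v * ∑ m ∈ Finset.Ico 1 N, algebraMap ℝ HR (X v (pr q * m)) *
            rho (lj s i (pr q * m) * Gj s (w v).tail (pr q * m))
          else 0 := by
        intro v
        rw [Finset.mul_sum]
        refine Finset.sum_congr rfl fun i _ => ?_
        split_ifs
        · rfl
        · rw [mul_zero]
      simp only [e0]
      rw [Finset.sum_comm]
      refine Finset.sum_congr rfl fun i _ => ?_
      rw [Finset.sum_filter]
    rw [e1, ← Finset.sum_sub_distrib]
    refine SR_sum hL _ _ fun v _ => ?_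
    rw [← mul_sub]
    by_cases hcv : c v = 0
    · rw [hcv, zero_mul]
      exact SR_zero _
    · have h3 : Gty s x (X v) q (w v) (pr q * N) y -
          (∑ i ∈ Finset.univ.filter (fun i => x i = y), if hdj i (w v) then
          ∑ m ∈ Finset.Ico 1 N, algebraMap ℝ HR (X v (pr q * m)) *
            rho (lj s i (pr q * m) * Gj s (w v).tail (pr q * m))
          else 0) ∈ SR L ((y + 1) * Real.log (pr q)) := by
        rcases hw v hcv with h4 | ⟨j, u, h4, h5⟩
        · rw [h4, Gty_nil, if_neg (by linarith only [hy]), zero_sub]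
          refine SR_neg ?_
          rw [Finset.sum_eq_zero]
          · exact SR_zero _
          · intro i _
            rw [if_neg]
            unfold hdj
            simp
        · rw [h4]
          have h6 : (∑ i ∈ Finset.univ.filter (fun i => x i = y),
              if hdj i (j :: u : List I) then
              ∑ m ∈ Finset.Ico 1 N, algebraMap ℝ HR (X v (pr q * m)) *
                rho (lj s i (pr q * m) * Gj s (j :: u : List I).tail (pr q * m)) else 0) =
              if x j = y then ∑ m ∈ Finset.Ico 1 N, algebraMap ℝ HR (X v (pr q * m)) *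
                rho (lj s j (pr q * m) * Gj s u (pr q * m)) else 0 := by
            simp only [hdj_cons, List.tail_cons]
            rw [Finset.sum_filter]
            rw [Finset.sum_eq_single j]
            · simp
            · intro i _ hij
              rw [if_neg (Ne.symm hij)]
              simp
            · intro h
              exact absurd (Finset.mem_univ j) h
          rw [h6]
          exact leadt hL hs hx (X v) q j u N hy h5
      have h4 := SR_mul hL (hK v) h3
      refine SR_anti hL (le_of_eq ?_) h4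
      ring
  have h3 := SR_sub hL h1 h2
  rw [sub_sub_cancel] at h3
  have h4 : ∑ i ∈ Finset.univ.filter (fun i => x i = y), rho (ug s q i / ch1 hL q (-y)) *
      ∑ v ∈ Finset.univ.filter (fun v => hdj i (w v)), c v *
        ∑ m ∈ Finset.Ico 1 N, algebraMap ℝ HR (X v (pr q * m)) *
          rho (lj s i m * Gj s (w v).tail (pr q * m)) =
      (∑ i ∈ Finset.univ.filter (fun i => x i = y),
        ∑ v ∈ Finset.univ.filter (fun v => hdj i (w v)), c v *
          ∑ m ∈ Finset.Ico 1 N, algebraMap ℝ HR (X v (pr q * m)) *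
            rho (lj s i (pr q * m) * Gj s (w v).tail (pr q * m))) *
        rho (ch1 hL q (y)) := by
    rw [Finset.sum_mul]
    refine Finset.sum_congr rfl fun i _ => ?_
    rw [Finset.sum_mul, Finset.mul_sum]
    refine Finset.sum_congr rfl fun v _ => ?_
    have h5 : (ch1 hL q (-y))⁻¹ = ch1 hL q y := by
      refine inv_eq_of_mul_eq_one_right ?_
      rw [← ch1_add, neg_add_cancel, ch1_zero]
    rw [div_eq_mul_inv, h5, map_mul, Finset.mul_sum, Finset.mul_sum, Finset.mul_sum,
      Finset.sum_mul]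
    refine Finset.sum_congr rfl fun m _ => ?_
    rw [lj_mul, lj_ug]
    simp only [map_mul]
    ring
  rw [h4]
  have h5 := ch1_mem (hL := hL) q (-y)
  rw [neg_neg] at h5
  have h6 := SR_mul hL h3 h5
  refine SR_anti hL (le_of_eq ?_) h6
  ring

end

end Pool.Agent.H43C
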